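import Mathlib

namespace Pool.Agent.Helper894.FS

open scoped BigOperators

/-- free group on two generators -/
abbrev F2 := FreeGroup Bool

/-- letters of the lazy walk: none is the identity, some (x, b) is a generator or its inverse -/
abbrev Lt := Option (Bool × Bool)

/-- the element of the free group given by a letter -/
def lt : Lt → F2
  | none => 1
  | some p => FreeGroup.mk [p]

/-- value of a word; the head of the list is applied first -/
def ev : List Lt → F2
  | [] => 1
  | s :: l => ev l * lt s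

/-- the finite set of words of length n -/
def words : ℕ → Finset (List Lt)
  | 0 => {[]}
  | n + 1 => (Finset.univ ×ˢ words n).map
      ⟨fun p : Lt × List Lt => p.1 :: p.2, fun p q h => by
        simp only [List.cons.injEq] at h
        exact Prod.ext h.1 h.2⟩

/-- one step average of a function along an action -/
noncomputable def avg {Ω : Type*} (φ : F2 →* Equiv.Perm Ω) (F : Ω → ℝ) (ω : Ω) : ℝ :=
  (1 / 5) * ∑ s : Lt, F (φ (lt s) ω)

/-- an action on the line whose generators move points by at most r -/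
def Disp (r : ℕ) (π : F2 →* Equiv.Perm ℤ) : Prop :=
  ∀ (x : Bool) (n : ℤ), |π (FreeGroup.of x) n - n| ≤ r

/-- g fixes n and does not move any point across n -/
def Bar (π : F2 →* Equiv.Perm ℤ) (g : F2) (n : ℤ) : Prop :=
  π g n = n ∧ (∀ y, y < n → π g y < n) ∧ (∀ y, n < y → n < π g y)

/-- bounded function -/
def Bd {Ω : Type*} (F : Ω → ℝ) : Prop := ∃ C : ℝ, ∀ ω, |F ω| ≤ C

/-- finitely additive mean -/
structure Mean (Ω : Type*) where
  m : (Ω → ℝ) → ℝ
  one : m (fun _ => 1) = 1
  add : ∀ F G, Bd F → Bd G → m (fun ω => F ω + G ω) = m F + m G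
  smul : ∀ (c : ℝ) F, Bd F → m (fun ω => c * F ω) = c * m F
  nonneg : ∀ F, Bd F → (∀ ω, 0 ≤ F ω) → 0 ≤ m F

/-- a finitely supported law on nontrivial elements, of norm at most l, moving each point
with probability at most α -/
def HasLaw {Ω : Type*} (φ : F2 →* Equiv.Perm Ω) (l : ℕ) (α : ℝ) : Prop :=
  ∃ (ι : Type) (_ : Fintype ι) (c : ι → ℝ) (g : ι → F2), (∀ i, 0 ≤ c i) ∧ ∑ i, c i = 1 ∧
    (∀ i, g i ≠ 1) ∧ (∀ i, (g i).norm ≤ l) ∧
    ∀ ω, ∑ i, c i * Set.indicator {ω' | φ (g i) ω' ≠ ω'} (fun _ => (1 : ℝ)) ω ≤ α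

/-- product action on a family of lines -/
def prodAct {I : Type*} (π : I → (F2 →* Equiv.Perm ℤ)) : F2 →* Equiv.Perm (I × ℤ) where
  toFun g := Equiv.prodShear (Equiv.refl I) (fun i => π i g)
  map_one' := by ext ⟨i, n⟩ <;> simp
  map_mul' g h := by ext ⟨i, n⟩ <;> simp

@[simp] theorem prodAct_apply {I : Type*} (π : I → (F2 →* Equiv.Perm ℤ)) (g : F2) (i : I)
    (n : ℤ) : prodAct π g (i, n) = (i, π i g n) := rfl

end Pool.Agent.Helper894.FS
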