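import Pool.Agent.Helper894.FS.Main

namespace Pool.Agent.Helper894.FS

variable {A : Type}

/-- the points of the subshift with forbidden words F -/
def Pt (F : Set (List A)) : Type := {x : ℤ → A // x ∈ SF F}

/-- the product topology with A discrete, restricted to the subshift -/
instance topPt (F : Set (List A)) : TopologicalSpace (Pt F) :=
  TopologicalSpace.induced (fun x n => x.1 n) (@Pi.topologicalSpace ℤ (fun _ => A) fun _ => ⊥)

/-- homeomorphisms of the subshift -/
def HomeoSF (F : Set (List A)) : Type := Pt F ≃ₜ Pt F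

/-- composition of homeomorphisms -/
instance groupHomeoSF (F : Set (List A)) : Group (HomeoSF F) :=
  (inferInstance : Group (Pt F ≃ₜ Pt F))

/-- application of a homeomorphism to a point -/
def ap {F : Set (List A)} (h : HomeoSF F) (x : Pt F) : Pt F := Homeomorph.toEquiv h x

theorem ap_one {F : Set (List A)} (x : Pt F) : ap (1 : HomeoSF F) x = x := rfl

theorem ap_mul {F : Set (List A)} (g h : HomeoSF F) (x : Pt F) :
    ap (g * h) x = ap g (ap h x) := rfl

theorem continuous_ap {F : Set (List A)} (h : HomeoSF F) : Continuous (ap h) :=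
  Homeomorph.continuous h

theorem ap_ext {F : Set (List A)} {g h : HomeoSF F} (H : ∀ x, ap g x = ap h x) : g = h :=
  Homeomorph.ext H

/-- h is the involution of the letter a: it moves over the letter a by one shift, to the right
if it is the letter at 1, to the left if it is the letter at 0 -/
def IsPhi {F : Set (List A)} (a : A) (h : HomeoSF F) : Prop :=
  ∀ x : Pt F, (x.1 1 = a → (ap h x).1 = sh 1 x.1) ∧ (x.1 0 = a → (ap h x).1 = sh (-1) x.1) ∧
    (x.1 1 ≠ a → x.1 0 ≠ a → (ap h x).1 = x.1)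

/-- the group generated by the local shifts -/
def GSF (F : Set (List A)) : Subgroup (HomeoSF F) :=
  Subgroup.closure {h | ∃ a, IsPhi a h}

/-- h agrees near each point with an element of GSF -/
def LocG {F : Set (List A)} (h : HomeoSF F) : Prop :=
  ∀ x, ∃ U : Set (Pt F), IsOpen U ∧ x ∈ U ∧ ∃ g ∈ GSF F, ∀ y ∈ U, ap h y = ap g y

/-- the topological full group of GSF (see mem_FullSF) -/
def FullSF (F : Set (List A)) : Subgroup (HomeoSF F) := Subgroup.closure {h | LocG h}

/-- the subgroup K contains a nonabelian free group -/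
def HasFree {F : Set (List A)} (K : Subgroup (HomeoSF F)) : Prop :=
  ∃ f : FreeGroup (Fin 2) →* HomeoSF F, Function.Injective f ∧ ∀ g, f g ∈ K

section

variable (F : Set (List A)) (hF : ∀ a : A, [a, a] ∈ F)

/-- the explicit homeomorphism phi -/
noncomputable def phiH (a : A) : HomeoSF F :=
  @phi A ⊥ (@DiscreteTopology.mk A ⊥ rfl) F hF a

theorem isPhi_phiH (a : A) : IsPhi a (phiH F hF a) := by
  intro x
  have e : (ap (phiH F hF a) x).1 = phiFun a x.1 := rfl
  rw [e]
  refine ⟨fun h => by simp [phiFun, h], fun h => ?_, fun h h' => by simp [phiFun, h, h']⟩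
  have h1 : x.1 1 ≠ a := fun h1 => not_aa hF x.2 0 a h h1
  simp [phiFun, h1, h]

theorem isPhi_iff (a : A) (h : HomeoSF F) : IsPhi a h ↔ h = phiH F hF a := by
  constructor
  · intro hh
    apply ap_ext
    intro x
    apply Subtype.ext
    obtain ⟨h1, h2, h3⟩ := hh x
    obtain ⟨k1, k2, k3⟩ := isPhi_phiH F hF a x
    by_cases c1 : x.1 1 = a
    · rw [h1 c1, k1 c1]
    · by_cases c2 : x.1 0 = a
      · rw [h2 c2, k2 c2]
      · rw [h3 c1 c2, k3 c1 c2]
  · rintro rfl
    exact isPhi_phiH F hF a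

theorem GSF_eq : GSF F = (@GF A ⊥ (@DiscreteTopology.mk A ⊥ rfl) F hF : Subgroup (HomeoSF F)) := by
  have e : {h : HomeoSF F | ∃ a, IsPhi a h} = Set.range (phiH F hF) := by
    ext h
    constructor
    · rintro ⟨a, ha⟩
      exact ⟨a, ((isPhi_iff F hF a h).mp ha).symm⟩
    · rintro ⟨a, rfl⟩
      exact ⟨a, isPhi_phiH F hF a⟩
  rw [GSF, e]
  rfl

theorem LocG_iff (h : HomeoSF F) :
    LocG h ↔ @LocallyInGF A ⊥ (@DiscreteTopology.mk A ⊥ rfl) F hF h := by
  unfold LocG
  rw [GSF_eq F hF]
  rfl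

theorem FullSF_eq :
    FullSF F = (@FullG A ⊥ (@DiscreteTopology.mk A ⊥ rfl) F hF : Subgroup (HomeoSF F)) := by
  have e : {h : HomeoSF F | LocG h} =
      {h | @LocallyInGF A ⊥ (@DiscreteTopology.mk A ⊥ rfl) F hF h} := by
    ext h
    exact LocG_iff F hF h
  rw [FullSF, e]
  rfl

include hF

/-- the topological full group consists exactly of the homeomorphisms which agree near each
point with an element of GSF -/
theorem mem_FullSF (h : HomeoSF F) : h ∈ FullSF F ↔ LocG h := by
  rw [FullSF_eq F hF, LocG_iff F hF]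
  exact @mem_FullG A ⊥ (@DiscreteTopology.mk A ⊥ rfl) F hF h

theorem GSF_le_FullSF : GSF F ≤ FullSF F := fun g hg =>
  (mem_FullSF F hF g).mpr fun _ => ⟨Set.univ, isOpen_univ, trivial, g, hg, fun _ _ => rfl⟩

theorem no_free_full [Finite A]
    (h : ∀ ε : ℝ, 0 < ε → ∀ n₀ : ℕ, ∃ n ≥ n₀,
      Real.log (numWords F n) ≤ ε * Real.sqrt n) : ¬ HasFree (FullSF F) := by
  rintro ⟨f, hf, hK⟩
  let e : F2 ≃* FreeGroup (Fin 2) := FreeGroup.freeGroupCongr finTwoEquiv.symm
  have hK' : ∀ g, f g ∈ (@FullG A ⊥ (@DiscreteTopology.mk A ⊥ rfl) F hF : Subgroup (HomeoSF F)) := by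
    intro g
    rw [← FullSF_eq F hF]
    exact hK g
  let f' : FreeGroup (Fin 2) →*
      (@FullG A ⊥ (@DiscreteTopology.mk A ⊥ rfl) F hF : Subgroup (HomeoSF F)) :=
    MonoidHom.codRestrict f _ hK'
  have hf' : Function.Injective f' := by
    intro x y hxy
    apply hf
    exact congrArg Subtype.val hxy
  exact @no_free A _ ⊥ (@DiscreteTopology.mk A ⊥ rfl) F hF h (f'.comp e.toMonoidHom)
    (show Function.Injective (f' ∘ e) from hf'.comp e.injective)

theorem no_free_G [Finite A]
    (h : ∀ ε : ℝ, 0 < ε → ∀ n₀ : ℕ, ∃ n ≥ n₀,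
      Real.log (numWords F n) ≤ ε * Real.sqrt n) : ¬ HasFree (GSF F) := by
  rintro ⟨f, hf, hK⟩
  exact no_free_full F hF h ⟨f, hf, fun g => GSF_le_FullSF F hF (hK g)⟩

end

end Pool.Agent.Helper894.FS
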