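import Pool.Agent.Helper894.FS.Defs

namespace Pool.Agent.Helper894.FS

namespace JA

open scoped BigOperators


theorem twist_q (u v : Bool × Bool) : ∃ q : Bool × Bool, q ≠ (u.1, !u.2) ∧ q ≠ v := by
  revert u v
  decide

theorem twist_p (a b q : Bool × Bool) : ∃ p : Bool × Bool, p ≠ a ∧ p ≠ (b.1, !b.2) ∧
    p ≠ (q.1, !q.2) := by
  revert a b q
  decide

theorem twist_ok (x y : Bool × Bool) (h : y ≠ (x.1, !x.2)) : x.1 = y.1 → x.2 = y.2 := by
  revert x y
  decide

theorem twist_ok' (x y : Bool × Bool) (h : x ≠ (y.1, !y.2)) : x.1 = y.1 → x.2 = y.2 := by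
  revert x y
  decide

/-- twisting: two nontrivial elements do not commute after conjugating one of them by a
suitable word of length two -/
theorem twist (g g' : F2) (hg : g ≠ 1) (hg' : g' ≠ 1) : ∃ p q : Bool × Bool,
    g * (FreeGroup.mk [p, q] * g' * (FreeGroup.mk [p, q])⁻¹) * g⁻¹ *
      (FreeGroup.mk [p, q] * g' * (FreeGroup.mk [p, q])⁻¹)⁻¹ ≠ 1 := by
  have hL : g.toWord ≠ [] := fun h => hg (FreeGroup.toWord_eq_nil_iff.1 h)
  have hL' : g'.toWord ≠ [] := fun h => hg' (FreeGroup.toWord_eq_nil_iff.1 h)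
  obtain ⟨L, hLd⟩ : ∃ L, L = g.toWord := ⟨_, rfl⟩
  obtain ⟨L', hLd'⟩ : ∃ L', L' = g'.toWord := ⟨_, rfl⟩
  have hLr : FreeGroup.IsReduced L := by rw [hLd]; exact FreeGroup.isReduced_toWord
  have hLr' : FreeGroup.IsReduced L' := by rw [hLd']; exact FreeGroup.isReduced_toWord
  rw [← hLd] at hL
  rw [← hLd'] at hL'
  have hgm : g = FreeGroup.mk L := by rw [hLd, FreeGroup.mk_toWord]
  have hgm' : g' = FreeGroup.mk L' := by rw [hLd', FreeGroup.mk_toWord]
  obtain ⟨q, hq1, hq2⟩ := twist_q (L'.head hL') (L'.getLast hL')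
  obtain ⟨p, hp1, hp2, hp3⟩ := twist_p (L.head hL) (L.getLast hL) q
  refine ⟨p, q, ?_⟩
  intro hcomm
  obtain ⟨W, hW⟩ : ∃ W, W = [p, q] ++ L' ++ [(q.1, !q.2), (p.1, !p.2)] := ⟨_, rfl⟩
  have hh : FreeGroup.mk [p, q] * g' * (FreeGroup.mk [p, q])⁻¹ = FreeGroup.mk W := by
    rw [hgm', FreeGroup.inv_mk, FreeGroup.mul_mk, FreeGroup.mul_mk, hW]
    rfl
  rw [hh, mul_inv_eq_one, mul_inv_eq_iff_eq_mul, hgm, FreeGroup.mul_mk, FreeGroup.mul_mk] at hcomm
  have hred := congrArg FreeGroup.toWord hcomm
  rw [FreeGroup.toWord_mk, FreeGroup.toWord_mk] at hred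
  have hWr : FreeGroup.IsReduced W := by
    rw [hW]
    unfold FreeGroup.IsReduced at hLr' ⊢
    rw [List.isChain_append, List.isChain_append]
    refine ⟨⟨?_, hLr', ?_⟩, ?_, ?_⟩
    · rw [List.isChain_cons_cons]
      exact ⟨twist_ok' _ _ hp3, List.isChain_singleton _⟩
    · intro x hx y hy
      have hx' : x = q := by simpa using hx.symm
      have hy' : y = L'.head hL' := by
        rw [List.head?_eq_some_head hL'] at hy
        simpa using hy.symm
      rw [hx', hy']
      exact twist_ok' _ _ hq1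
    · rw [List.isChain_cons_cons]
      refine ⟨?_, List.isChain_singleton _⟩
      intro h
      have := twist_ok' _ _ hp3
      simp only at h ⊢
      rw [this h.symm]
    · intro x hx y hy
      have hy' : y = (q.1, !q.2) := by simpa using hy.symm
      have hx' : x = L'.getLast hL' := by
        rw [List.getLast?_append_of_ne_nil _ hL', List.getLast?_eq_some_getLast hL'] at hx
        simpa using hx.symm
      rw [hx', hy']
      apply twist_ok'
      intro h
      apply hq2
      rw [h]
      simp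
  have h1 : FreeGroup.IsReduced (L ++ W) := by
    unfold FreeGroup.IsReduced at hWr hLr ⊢
    rw [List.isChain_append]
    refine ⟨hLr, hWr, ?_⟩
    intro x hx y hy
    have hy' : y = p := by
      rw [hW] at hy
      simpa using hy.symm
    have hx' : x = L.getLast hL := by
      rw [List.getLast?_eq_some_getLast hL] at hx
      simpa using hx.symm
    rw [hx', hy']
    exact twist_ok _ _ hp2
  have h2 : FreeGroup.IsReduced (W ++ L) := by
    unfold FreeGroup.IsReduced at hWr hLr ⊢
    rw [List.isChain_append]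
    refine ⟨hWr, hLr, ?_⟩
    intro x hx y hy
    have hy' : y = L.head hL := by
      rw [List.head?_eq_some_head hL] at hy
      simpa using hy.symm
    have hx' : x = (p.1, !p.2) := by
      have hx2 : W.getLast? = some (p.1, !p.2) := by
        rw [hW, List.getLast?_append_of_ne_nil _ (by simp)]
        rfl
      rw [hx2] at hx
      simpa using hx.symm
    rw [hx', hy']
    apply twist_ok
    intro h
    apply hp1
    rw [h]
    simp
  rw [h1.reduce_eq, h2.reduce_eq] at hred
  have h3 := congrArg List.head? hred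
  rw [List.head?_append_of_ne_nil _ hL, hW, List.head?_eq_some_head hL] at h3
  simp at h3
  exact hp1 h3.symm

/-- torsion freeness -/
theorem torsion_free (g : F2) (hg : g ≠ 1) (n : ℕ) (hn : n ≠ 0) : g ^ n ≠ 1 := by
  intro h
  exact hg ((pow_eq_one_iff_left hn).1 h)

end JA

end Pool.Agent.Helper894.FS
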