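import Pool.Agent.Helper894.FS.Defs

namespace Pool.Agent.Helper894.FS

namespace JB

open scoped BigOperators


section FSB

variable {Ω : Type*} (φ : F2 →* Equiv.Perm Ω)

/-- indicator of the moved points -/
noncomputable def fsI (x : F2) (ω : Ω) : ℝ :=
  Set.indicator {ω' | φ x ω' ≠ ω'} (fun _ => (1 : ℝ)) ω

theorem fsI_of {x : F2} {ω : Ω} (h : φ x ω ≠ ω) : fsI φ x ω = 1 := by
  rw [fsI]
  exact Set.indicator_of_mem (s := {ω' | φ x ω' ≠ ω'}) h _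

theorem fsI_not {x : F2} {ω : Ω} (h : φ x ω = ω) : fsI φ x ω = 0 := by
  rw [fsI]
  apply Set.indicator_of_notMem
  simpa using h

theorem fsI_nonneg (x : F2) (ω : Ω) : 0 ≤ fsI φ x ω := by
  by_cases h : φ x ω = ω
  · rw [fsI_not φ h]
  · rw [fsI_of φ h]; exact zero_le_one

theorem fs_inv_fix {x : F2} {ω : Ω} (h : φ x ω = ω) : φ x⁻¹ ω = ω := by
  rw [map_inv, Equiv.Perm.inv_eq_iff_eq]
  exact h.symm

theorem fs_conj {t x : F2} {ω : Ω} (h : φ (t * x * t⁻¹) ω ≠ ω) :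
    φ x (φ t⁻¹ ω) ≠ φ t⁻¹ ω := by
  intro h0
  apply h
  rw [map_mul, map_mul, Equiv.Perm.mul_apply, Equiv.Perm.mul_apply, h0, ← Equiv.Perm.mul_apply,
    ← map_mul, mul_inv_cancel, map_one, Equiv.Perm.one_apply]

theorem fs_cases {g h : F2} {ω : Ω} (hC : φ (g * h * g⁻¹ * h⁻¹) ω ≠ ω) :
    (φ g ω ≠ ω ∧ φ h ω ≠ ω) ∨ (φ g ω ≠ ω ∧ φ h (φ g⁻¹ ω) ≠ φ g⁻¹ ω) ∨
      (φ h ω ≠ ω ∧ φ g (φ h⁻¹ ω) ≠ φ h⁻¹ ω) := by
  have hg' : φ g (φ g⁻¹ ω) = ω := by
    rw [← Equiv.Perm.mul_apply, ← map_mul, mul_inv_cancel, map_one, Equiv.Perm.one_apply]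
  have hh' : φ h (φ h⁻¹ ω) = ω := by
    rw [← Equiv.Perm.mul_apply, ← map_mul, mul_inv_cancel, map_one, Equiv.Perm.one_apply]
  have hexp : φ (g * h * g⁻¹ * h⁻¹) ω = φ g (φ h (φ g⁻¹ (φ h⁻¹ ω))) := by
    simp only [map_mul, Equiv.Perm.mul_apply]
  rw [hexp] at hC
  by_cases h1 : φ g ω = ω
  · by_cases h2 : φ h ω = ω
    · exfalso
      apply hC
      rw [fs_inv_fix φ h2, fs_inv_fix φ h1, h2, h1]
    · right; right
      refine ⟨h2, fun h3 => hC ?_⟩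
      rw [fs_inv_fix φ h3, hh', h1]
  · by_cases h2 : φ h ω = ω
    · right; left
      refine ⟨h1, fun h3 => hC ?_⟩
      rw [fs_inv_fix φ h2, h3, hg']
    · left
      exact ⟨h1, h2⟩

/-- the twisting elements -/
def fsT (r : (Bool × Bool) × (Bool × Bool)) : F2 := FreeGroup.mk [r.1, r.2]

/-- pointwise bound -/
theorem fs_point (g x : F2) (r : (Bool × Bool) × (Bool × Bool)) (ω : Ω) :
    fsI φ (g * (fsT r * x * (fsT r)⁻¹) * g⁻¹ * (fsT r * x * (fsT r)⁻¹)⁻¹) ω ≤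
      fsI φ g ω * fsI φ x (φ (fsT r)⁻¹ ω) +
      fsI φ g ω * fsI φ x (φ (fsT r)⁻¹ (φ g⁻¹ ω)) +
      fsI φ x (φ (fsT r)⁻¹ ω) * fsI φ g (φ (fsT r * x * (fsT r)⁻¹)⁻¹ ω) := by
  have n1 := fsI_nonneg φ g ω
  have n2 := fsI_nonneg φ x (φ (fsT r)⁻¹ ω)
  have n3 := fsI_nonneg φ x (φ (fsT r)⁻¹ (φ g⁻¹ ω))
  have n4 := fsI_nonneg φ g (φ (fsT r * x * (fsT r)⁻¹)⁻¹ ω)
  by_cases hC : φ (g * (fsT r * x * (fsT r)⁻¹) * g⁻¹ * (fsT r * x * (fsT r)⁻¹)⁻¹) ω = ω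
  · rw [fsI_not φ hC]
    positivity
  · rw [fsI_of φ hC]
    rcases fs_cases φ hC with ⟨h1, h2⟩ | ⟨h1, h2⟩ | ⟨h1, h2⟩
    · rw [fsI_of φ h1, fsI_of φ (fs_conj φ h2)]
      nlinarith
    · rw [fsI_of φ h1, fsI_of φ (fs_conj φ h2)]
      nlinarith [mul_nonneg n2 n4]
    · rw [fsI_of φ (fs_conj φ h1), fsI_of φ h2]
      nlinarith [mul_nonneg n1 n3]

theorem fs_norm (l : ℕ) (g x : F2) (hg : g.norm ≤ l) (hx : x.norm ≤ l)
    (r : (Bool × Bool) × (Bool × Bool)) :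
    (g * (fsT r * x * (fsT r)⁻¹) * g⁻¹ * (fsT r * x * (fsT r)⁻¹)⁻¹).norm ≤ 4 * l + 8 := by
  have ht : (fsT r).norm ≤ 2 := by
    have := FreeGroup.norm_mk_le (L₁ := [r.1, r.2])
    simpa [fsT] using this
  have hh : (fsT r * x * (fsT r)⁻¹).norm ≤ l + 4 := by
    have h1 := FreeGroup.norm_mul_le (fsT r * x) (fsT r)⁻¹
    have h2 := FreeGroup.norm_mul_le (fsT r) x
    rw [FreeGroup.norm_inv_eq] at h1
    omega
  have h1 := FreeGroup.norm_mul_le (g * (fsT r * x * (fsT r)⁻¹) * g⁻¹)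
    (fsT r * x * (fsT r)⁻¹)⁻¹
  have h2 := FreeGroup.norm_mul_le (g * (fsT r * x * (fsT r)⁻¹)) g⁻¹
  have h3 := FreeGroup.norm_mul_le g (fsT r * x * (fsT r)⁻¹)
  rw [FreeGroup.norm_inv_eq] at h1 h2
  omega

end FSB

/-- law of twisted commutators -/
theorem law_step {Ω : Type*} (φ : F2 →* Equiv.Perm Ω)
    (htwist : ∀ g g' : F2, g ≠ 1 → g' ≠ 1 → ∃ p q : Bool × Bool,
      g * (FreeGroup.mk [p, q] * g' * (FreeGroup.mk [p, q])⁻¹) * g⁻¹ *
        (FreeGroup.mk [p, q] * g' * (FreeGroup.mk [p, q])⁻¹)⁻¹ ≠ 1)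
    (l : ℕ) (α : ℝ) (hα : 0 ≤ α) (h : HasLaw φ l α) :
    HasLaw φ (4 * l + 8) (48 * α ^ 2) := by
  classical
  obtain ⟨ι, hι, c, g, hc0, hc1, hg1, hgl, hgα⟩ := h
  have hα' : ∀ ω, ∑ i, c i * fsI φ (g i) ω ≤ α := hgα
  have hex : ∀ i j : ι, ∃ r : (Bool × Bool) × (Bool × Bool),
      g i * (fsT r * g j * (fsT r)⁻¹) * (g i)⁻¹ * (fsT r * g j * (fsT r)⁻¹)⁻¹ ≠ 1 := by
    intro i j
    obtain ⟨p, q, hpq⟩ := htwist (g i) (g j) (hg1 i) (hg1 j)
    exact ⟨(p, q), hpq⟩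
  choose r hr using hex
  have hnn : ∀ ω, 0 ≤ ∑ i, c i * fsI φ (g i) ω := fun ω =>
    Finset.sum_nonneg fun i _ => mul_nonneg (hc0 i) (fsI_nonneg φ _ _)
  refine ⟨ι × ι, inferInstance, fun p => c p.1 * c p.2,
    fun p => g p.1 * (fsT (r p.1 p.2) * g p.2 * (fsT (r p.1 p.2))⁻¹) * (g p.1)⁻¹ *
      (fsT (r p.1 p.2) * g p.2 * (fsT (r p.1 p.2))⁻¹)⁻¹, fun p => mul_nonneg (hc0 _) (hc0 _),
    ?_, fun p => hr p.1 p.2, fun p => fs_norm l _ _ (hgl _) (hgl _) _, ?_⟩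
  · rw [Fintype.sum_prod_type, ← Finset.sum_mul_sum, hc1, one_mul]
  · intro ω
    rw [Fintype.sum_prod_type]
    change ∑ i, ∑ j, c i * c j * fsI φ (g i * (fsT (r i j) * g j * (fsT (r i j))⁻¹) *
        (g i)⁻¹ * (fsT (r i j) * g j * (fsT (r i j))⁻¹)⁻¹) ω ≤ _
    -- the three contributions
    have hb : ∀ i j : ι, c i * c j * fsI φ (g i * (fsT (r i j) * g j * (fsT (r i j))⁻¹) *
        (g i)⁻¹ * (fsT (r i j) * g j * (fsT (r i j))⁻¹)⁻¹) ω ≤
        (∑ t : (Bool × Bool) × (Bool × Bool),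
          (c i * fsI φ (g i) ω) * (c j * fsI φ (g j) (φ (fsT t)⁻¹ ω))) +
        (∑ t : (Bool × Bool) × (Bool × Bool),
          (c i * fsI φ (g i) ω) * (c j * fsI φ (g j) (φ (fsT t)⁻¹ (φ (g i)⁻¹ ω)))) +
        (∑ t : (Bool × Bool) × (Bool × Bool),
          (c j * fsI φ (g j) (φ (fsT t)⁻¹ ω)) *
            (c i * fsI φ (g i) (φ (fsT t * g j * (fsT t)⁻¹)⁻¹ ω))) := by
      intro i j
      have hcc : 0 ≤ c i * c j := mul_nonneg (hc0 i) (hc0 j)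
      have hp := mul_le_mul_of_nonneg_left (fs_point φ (g i) (g j) (r i j) ω) hcc
      have s1 := Finset.single_le_sum (s := Finset.univ)
        (f := fun t : (Bool × Bool) × (Bool × Bool) =>
          (c i * fsI φ (g i) ω) * (c j * fsI φ (g j) (φ (fsT t)⁻¹ ω)))
        (fun t _ => mul_nonneg (mul_nonneg (hc0 i) (fsI_nonneg φ _ _))
          (mul_nonneg (hc0 j) (fsI_nonneg φ _ _))) (Finset.mem_univ (r i j))
      have s2 := Finset.single_le_sum (s := Finset.univ)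
        (f := fun t : (Bool × Bool) × (Bool × Bool) =>
          (c i * fsI φ (g i) ω) * (c j * fsI φ (g j) (φ (fsT t)⁻¹ (φ (g i)⁻¹ ω))))
        (fun t _ => mul_nonneg (mul_nonneg (hc0 i) (fsI_nonneg φ _ _))
          (mul_nonneg (hc0 j) (fsI_nonneg φ _ _))) (Finset.mem_univ (r i j))
      have s3 := Finset.single_le_sum (s := Finset.univ)
        (f := fun t : (Bool × Bool) × (Bool × Bool) =>
          (c j * fsI φ (g j) (φ (fsT t)⁻¹ ω)) *
            (c i * fsI φ (g i) (φ (fsT t * g j * (fsT t)⁻¹)⁻¹ ω)))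
        (fun t _ => mul_nonneg (mul_nonneg (hc0 j) (fsI_nonneg φ _ _))
          (mul_nonneg (hc0 i) (fsI_nonneg φ _ _))) (Finset.mem_univ (r i j))
      skip
      linarith
    have key : ∑ i, ∑ j, c i * c j * fsI φ (g i * (fsT (r i j) * g j * (fsT (r i j))⁻¹) *
        (g i)⁻¹ * (fsT (r i j) * g j * (fsT (r i j))⁻¹)⁻¹) ω ≤
        (∑ i, ∑ j, ∑ t : (Bool × Bool) × (Bool × Bool),
          (c i * fsI φ (g i) ω) * (c j * fsI φ (g j) (φ (fsT t)⁻¹ ω))) +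
        (∑ i, ∑ j, ∑ t : (Bool × Bool) × (Bool × Bool),
          (c i * fsI φ (g i) ω) * (c j * fsI φ (g j) (φ (fsT t)⁻¹ (φ (g i)⁻¹ ω)))) +
        (∑ i, ∑ j, ∑ t : (Bool × Bool) × (Bool × Bool),
          (c j * fsI φ (g j) (φ (fsT t)⁻¹ ω)) *
            (c i * fsI φ (g i) (φ (fsT t * g j * (fsT t)⁻¹)⁻¹ ω))) := by
      rw [← Finset.sum_add_distrib, ← Finset.sum_add_distrib]
      refine Finset.sum_le_sum fun i _ => ?_
      rw [← Finset.sum_add_distrib, ← Finset.sum_add_distrib]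
      exact Finset.sum_le_sum fun j _ => hb i j
    have card16 : ∑ _t : (Bool × Bool) × (Bool × Bool), α ^ 2 = 16 * α ^ 2 := by
      rw [Finset.sum_const, Finset.card_univ]
      have : Fintype.card ((Bool × Bool) × (Bool × Bool)) = 16 := by decide
      rw [this, nsmul_eq_mul]
      norm_num
    have b1 : (∑ i, ∑ j, ∑ t : (Bool × Bool) × (Bool × Bool),
          (c i * fsI φ (g i) ω) * (c j * fsI φ (g j) (φ (fsT t)⁻¹ ω))) ≤ 16 * α ^ 2 := by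
      have e : (∑ i, ∑ j, ∑ t : (Bool × Bool) × (Bool × Bool),
          (c i * fsI φ (g i) ω) * (c j * fsI φ (g j) (φ (fsT t)⁻¹ ω))) =
          ∑ t : (Bool × Bool) × (Bool × Bool), (∑ i, c i * fsI φ (g i) ω) *
            (∑ j, c j * fsI φ (g j) (φ (fsT t)⁻¹ ω)) := by
        simp only [Finset.sum_mul_sum]
        have : ∀ i : ι, ∑ j, ∑ t : (Bool × Bool) × (Bool × Bool),
            (c i * fsI φ (g i) ω) * (c j * fsI φ (g j) (φ (fsT t)⁻¹ ω)) =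
            ∑ t : (Bool × Bool) × (Bool × Bool), ∑ j,
            (c i * fsI φ (g i) ω) * (c j * fsI φ (g j) (φ (fsT t)⁻¹ ω)) := fun i =>
          Finset.sum_comm
        rw [Finset.sum_congr rfl fun i _ => this i, Finset.sum_comm]
      rw [e, ← card16]
      refine Finset.sum_le_sum fun t _ => ?_
      rw [pow_two]
      exact mul_le_mul (hα' _) (hα' _) (hnn _) hα
    have b2 : (∑ i, ∑ j, ∑ t : (Bool × Bool) × (Bool × Bool),
          (c i * fsI φ (g i) ω) * (c j * fsI φ (g j) (φ (fsT t)⁻¹ (φ (g i)⁻¹ ω)))) ≤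
          16 * α ^ 2 := by
      have e : ∀ i : ι, (∑ j, ∑ t : (Bool × Bool) × (Bool × Bool),
          (c i * fsI φ (g i) ω) * (c j * fsI φ (g j) (φ (fsT t)⁻¹ (φ (g i)⁻¹ ω)))) ≤
          (c i * fsI φ (g i) ω) * (16 * α) := by
        intro i
        rw [Finset.sum_comm]
        have h1 : ∀ t : (Bool × Bool) × (Bool × Bool), ∑ j,
            (c i * fsI φ (g i) ω) * (c j * fsI φ (g j) (φ (fsT t)⁻¹ (φ (g i)⁻¹ ω))) ≤
            (c i * fsI φ (g i) ω) * α := by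
          intro t
          rw [← Finset.mul_sum]
          exact mul_le_mul_of_nonneg_left (hα' _) (mul_nonneg (hc0 i) (fsI_nonneg φ _ _))
        refine (Finset.sum_le_sum fun t _ => h1 t).trans ?_
        rw [Finset.sum_const, Finset.card_univ]
        have : Fintype.card ((Bool × Bool) × (Bool × Bool)) = 16 := by decide
        rw [this, nsmul_eq_mul]
        apply le_of_eq
        push_cast
        ring
      refine (Finset.sum_le_sum fun i _ => e i).trans ?_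
      rw [← Finset.sum_mul]
      have := mul_le_mul_of_nonneg_right (hα' ω) (show (0 : ℝ) ≤ 16 * α by positivity)
      nlinarith
    have b3 : (∑ i, ∑ j, ∑ t : (Bool × Bool) × (Bool × Bool),
          (c j * fsI φ (g j) (φ (fsT t)⁻¹ ω)) *
            (c i * fsI φ (g i) (φ (fsT t * g j * (fsT t)⁻¹)⁻¹ ω))) ≤ 16 * α ^ 2 := by
      rw [Finset.sum_comm]
      have e : ∀ j : ι, (∑ i, ∑ t : (Bool × Bool) × (Bool × Bool),
          (c j * fsI φ (g j) (φ (fsT t)⁻¹ ω)) *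
            (c i * fsI φ (g i) (φ (fsT t * g j * (fsT t)⁻¹)⁻¹ ω))) ≤
          ∑ t : (Bool × Bool) × (Bool × Bool), (c j * fsI φ (g j) (φ (fsT t)⁻¹ ω)) * α := by
        intro j
        rw [Finset.sum_comm]
        refine Finset.sum_le_sum fun t _ => ?_
        rw [← Finset.mul_sum]
        exact mul_le_mul_of_nonneg_left (hα' _) (mul_nonneg (hc0 j) (fsI_nonneg φ _ _))
      refine (Finset.sum_le_sum fun j _ => e j).trans ?_
      rw [Finset.sum_comm, ← card16]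
      refine Finset.sum_le_sum fun t _ => ?_
      rw [← Finset.sum_mul, pow_two]
      exact mul_le_mul_of_nonneg_right (hα' _) hα
    have hfin := key.trans (add_le_add (add_le_add b1 b2) b3)
    have e48 : 16 * α ^ 2 + 16 * α ^ 2 + 16 * α ^ 2 = 48 * α ^ 2 := by ring
    rw [e48] at hfin
    exact hfin

end JB

end Pool.Agent.Helper894.FS
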