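import Pool.Agent.Helper894.FS.Defs

namespace Pool.Agent.Helper894.FS

namespace JC

open scoped BigOperators


section meanaux

variable {Ω : Type*}

/-- the indicator function of the support of `φ g` -/
noncomputable def em_ind (φ : F2 →* Equiv.Perm Ω) (g : F2) : Ω → ℝ :=
  Set.indicator {ω' | φ g ω' ≠ ω'} (fun _ => (1 : ℝ))

theorem em_ind_nonneg (φ : F2 →* Equiv.Perm Ω) (g : F2) (ω : Ω) : 0 ≤ em_ind φ g ω :=
  Set.indicator_nonneg (fun _ _ => zero_le_one) ω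

theorem em_ind_le (φ : F2 →* Equiv.Perm Ω) (g : F2) (ω : Ω) : em_ind φ g ω ≤ 1 := by
  classical
  unfold em_ind
  rw [Set.indicator_apply]
  split_ifs <;> norm_num

theorem em_ind_comp (φ : F2 →* Equiv.Perm Ω) (g v : F2) (ω : Ω) :
    em_ind φ g (φ v ω) = em_ind φ (v⁻¹ * g * v) ω := by
  classical
  unfold em_ind
  rw [Set.indicator_apply, Set.indicator_apply]
  have h : φ v ω ∈ {ω' | φ g ω' ≠ ω'} ↔ ω ∈ {ω' | φ (v⁻¹ * g * v) ω' ≠ ω'} := by
    show φ g (φ v ω) ≠ φ v ω ↔ φ (v⁻¹ * g * v) ω ≠ ω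
    rw [not_iff_not, map_mul, map_mul, map_inv, Equiv.Perm.mul_apply, Equiv.Perm.mul_apply,
      Equiv.Perm.inv_eq_iff_eq]
  by_cases h1 : φ v ω ∈ {ω' | φ g ω' ≠ ω'}
  · rw [if_pos h1, if_pos (h.1 h1)]
  · rw [if_neg h1, if_neg fun h2 => h1 (h.2 h2)]

/-- nonnegative combinations of supports, with total weight `t` -/
def em_KC (φ : F2 →* Equiv.Perm Ω) (h : Ω → ℝ) (t : ℝ) : Prop :=
  ∃ (ι : Type) (_ : Fintype ι) (c : ι → ℝ) (g : ι → F2), (∀ i, 0 ≤ c i) ∧ (∀ i, g i ≠ 1) ∧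
    ∑ i, c i = t ∧ ∀ ω, ∑ i, c i * em_ind φ (g i) ω = h ω

theorem em_KC_zero (φ : F2 →* Equiv.Perm Ω) : em_KC φ 0 0 :=
  ⟨Empty, inferInstance, fun i => i.elim, fun i => i.elim, fun i => i.elim, fun i => i.elim,
    by simp, fun ω => by simp⟩

theorem em_KC_add {φ : F2 →* Equiv.Perm Ω} {h h' : Ω → ℝ} {t t' : ℝ} (H : em_KC φ h t)
    (H' : em_KC φ h' t') : em_KC φ (h + h') (t + t') := by
  obtain ⟨ι, _, c, g, h1, h2, h3, h4⟩ := H
  obtain ⟨ι', _, c', g', h1', h2', h3', h4'⟩ := H'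
  refine ⟨ι ⊕ ι', inferInstance, Sum.elim c c', Sum.elim g g', ?_, ?_, ?_, ?_⟩
  · rintro (i | i)
    · exact h1 i
    · exact h1' i
  · rintro (i | i)
    · exact h2 i
    · exact h2' i
  · rw [Fintype.sum_sum_type]
    simp only [Sum.elim_inl, Sum.elim_inr]
    rw [h3, h3']
  · intro ω
    rw [Fintype.sum_sum_type]
    simp only [Sum.elim_inl, Sum.elim_inr, Pi.add_apply]
    rw [h4, h4']

theorem em_KC_smul {φ : F2 →* Equiv.Perm Ω} {h : Ω → ℝ} {t : ℝ} (H : em_KC φ h t) (a : ℝ)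
    (ha : 0 ≤ a) : em_KC φ (a • h) (a * t) := by
  obtain ⟨ι, _, c, g, h1, h2, h3, h4⟩ := H
  refine ⟨ι, inferInstance, fun i => a * c i, g, fun i => mul_nonneg ha (h1 i), h2, ?_, ?_⟩
  · rw [← Finset.mul_sum, h3]
  · intro ω
    rw [Pi.smul_apply, smul_eq_mul, ← h4, Finset.mul_sum]
    exact Finset.sum_congr rfl fun i _ => by ring

theorem em_KC_comp {φ : F2 →* Equiv.Perm Ω} {h : Ω → ℝ} {t : ℝ} (H : em_KC φ h t) (v : F2) :
    em_KC φ (fun ω => h (φ v ω)) t := by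
  obtain ⟨ι, _, c, g, h1, h2, h3, h4⟩ := H
  refine ⟨ι, inferInstance, c, fun i => v⁻¹ * g i * v, h1, fun i hi => h2 i ?_, h3, ?_⟩
  · have : g i = v * (v⁻¹ * g i * v) * v⁻¹ := by group
    have hi' : v⁻¹ * g i * v = 1 := hi
    rw [this, hi']
    group
  · intro ω
    show ∑ i, c i * em_ind φ (v⁻¹ * g i * v) ω = h (φ v ω)
    rw [← h4]
    exact Finset.sum_congr rfl fun i _ => by rw [em_ind_comp]

theorem em_KC_sum {φ : F2 →* Equiv.Perm Ω} {κ : Type*} (s : Finset κ) (h : κ → Ω → ℝ) (t : κ → ℝ)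
    (H : ∀ i ∈ s, em_KC φ (h i) (t i)) : em_KC φ (∑ i ∈ s, h i) (∑ i ∈ s, t i) := by
  classical
  induction s using Finset.induction_on with
  | empty =>
    rw [Finset.sum_empty, Finset.sum_empty]
    exact em_KC_zero φ
  | insert i s hi ih =>
    rw [Finset.sum_insert hi, Finset.sum_insert hi]
    exact em_KC_add (H i (Finset.mem_insert_self _ _))
      (ih fun j hj => H j (Finset.mem_insert_of_mem hj))

/-- the averaging operator as a linear map -/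
noncomputable def em_T (φ : F2 →* Equiv.Perm Ω) : (Ω → ℝ) →ₗ[ℝ] (Ω → ℝ) where
  toFun := avg φ
  map_add' F G := by
    funext ω
    simp only [avg, Pi.add_apply, Finset.sum_add_distrib]
    ring
  map_smul' c F := by
    funext ω
    simp only [avg, Pi.smul_apply, smul_eq_mul, RingHom.id_apply, ← Finset.mul_sum]
    ring

theorem em_T_pow (φ : F2 →* Equiv.Perm Ω) (n : ℕ) (F : Ω → ℝ) :
    ((em_T φ) ^ n) F = (avg φ)^[n] F := by
  rw [Module.End.pow_apply]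
  rfl

/-- the Cesaro averages -/
noncomputable def em_A (φ : F2 →* Equiv.Perm Ω) (N : ℕ) : (Ω → ℝ) →ₗ[ℝ] (Ω → ℝ) :=
  (1 / (N : ℝ)) • ∑ n ∈ Finset.range N, (em_T φ) ^ n

theorem em_A_apply (φ : F2 →* Equiv.Perm Ω) (N : ℕ) (F : Ω → ℝ) (ω : Ω) :
    em_A φ N F ω = (1 / (N : ℝ)) * ∑ n ∈ Finset.range N, ((avg φ)^[n] F) ω := by
  unfold em_A
  rw [LinearMap.smul_apply, LinearMap.sum_apply, Pi.smul_apply, Finset.sum_apply, smul_eq_mul]
  congr 1
  exact Finset.sum_congr rfl fun n _ => by rw [em_T_pow]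

theorem em_avg_nonneg (φ : F2 →* Equiv.Perm Ω) {F : Ω → ℝ} (hF : ∀ ω, 0 ≤ F ω) (n : ℕ) :
    ∀ ω, 0 ≤ ((avg φ)^[n] F) ω := by
  induction n with
  | zero => exact hF
  | succ n ih =>
    intro ω
    rw [Function.iterate_succ_apply']
    unfold avg
    have : 0 ≤ ∑ s : Lt, ((avg φ)^[n] F) (φ (lt s) ω) := Finset.sum_nonneg fun s _ => ih _
    unfold avg at this
    linarith

theorem em_A_nonneg (φ : F2 →* Equiv.Perm Ω) (N : ℕ) {F : Ω → ℝ} (hF : ∀ ω, 0 ≤ F ω) (ω : Ω) :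
    0 ≤ em_A φ N F ω := by
  rw [em_A_apply]
  apply mul_nonneg (by positivity)
  exact Finset.sum_nonneg fun n _ => em_avg_nonneg φ hF n ω

theorem em_avg_const (φ : F2 →* Equiv.Perm Ω) (c : ℝ) (n : ℕ) :
    (avg φ)^[n] (fun _ => c) = fun _ => c := by
  induction n with
  | zero => rfl
  | succ n ih =>
    rw [Function.iterate_succ_apply', ih]
    funext ω
    unfold avg
    rw [Finset.sum_const, Finset.card_univ]
    have : Fintype.card Lt = 5 := by decide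
    rw [this]
    simp

theorem em_A_const (φ : F2 →* Equiv.Perm Ω) {N : ℕ} (hN : 0 < N) (c : ℝ) :
    em_A φ N (fun _ => c) = fun _ => c := by
  funext ω
  rw [em_A_apply]
  simp only [em_avg_const]
  rw [Finset.sum_const, Finset.card_range, nsmul_eq_mul]
  have : (N : ℝ) ≠ 0 := by positivity
  field_simp

theorem em_KC_avg {φ : F2 →* Equiv.Perm Ω} {h : Ω → ℝ} {t : ℝ} (H : em_KC φ h t) :
    em_KC φ (avg φ h) t := by
  have h1 := em_KC_sum (Finset.univ : Finset Lt) (fun s => (1 / 5 : ℝ) • fun ω => h (φ (lt s) ω))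
    (fun _ => (1 / 5 : ℝ) * t) (fun s _ => em_KC_smul (em_KC_comp H (lt s)) _ (by norm_num))
  have h2 : (∑ s : Lt, (1 / 5 : ℝ) • fun ω => h (φ (lt s) ω)) = avg φ h := by
    funext ω
    rw [Finset.sum_apply, avg, Finset.mul_sum]
    rfl
  have h3 : ∑ _s : Lt, (1 / 5 : ℝ) * t = t := by
    rw [Finset.sum_const, Finset.card_univ]
    have : Fintype.card Lt = 5 := by decide
    rw [this, nsmul_eq_mul]
    push_cast
    ring
  rw [h2, h3] at h1
  exact h1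

theorem em_KC_A {φ : F2 →* Equiv.Perm Ω} {h : Ω → ℝ} {t : ℝ} (H : em_KC φ h t) {N : ℕ}
    (hN : 0 < N) : em_KC φ (em_A φ N h) t := by
  have h0 : ∀ n, em_KC φ ((avg φ)^[n] h) t := by
    intro n
    induction n with
    | zero => exact H
    | succ n ih =>
      rw [Function.iterate_succ_apply']
      exact em_KC_avg ih
  have h1 := em_KC_sum (Finset.range N) (fun n => (1 / (N : ℝ)) • ((avg φ)^[n] h))
    (fun _ => (1 / (N : ℝ)) * t) (fun n _ => em_KC_smul (h0 n) _ (by positivity))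
  have h2 : (∑ n ∈ Finset.range N, (1 / (N : ℝ)) • ((avg φ)^[n] h)) = em_A φ N h := by
    funext ω
    rw [Finset.sum_apply, em_A_apply, Finset.mul_sum]
    rfl
  have h3 : ∑ _n ∈ Finset.range N, (1 / (N : ℝ)) * t = t := by
    rw [Finset.sum_const, Finset.card_range, nsmul_eq_mul]
    have : (N : ℝ) ≠ 0 := by positivity
    field_simp
  rw [h2, h3] at h1
  exact h1

/-- the averages of differences are small -/
def em_good (φ : F2 →* Equiv.Perm Ω) (N : ℕ) (ε : ℝ) : Prop :=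
  0 < N ∧ ∀ F : Ω → ℝ, (∀ ω, |F ω| ≤ 1) → ∀ (s : Lt) (ω : Ω),
    |em_A φ N (fun ω' => F ω' - F (φ (lt s) ω')) ω| ≤ ε

theorem em_good_scale {φ : F2 →* Equiv.Perm Ω} {F : Ω → ℝ} {C : ℝ} (hC : 0 ≤ C)
    (hF : ∀ ω, |F ω| ≤ C) {N : ℕ} {ε : ℝ} (h : em_good φ N ε) (s : Lt) (ω : Ω) :
    |em_A φ N (fun ω' => F ω' - F (φ (lt s) ω')) ω| ≤ (C + 1) * ε := by
  have hC1 : 0 < C + 1 := by linarith
  have h1 := h.2 (fun ω => (C + 1)⁻¹ * F ω) (fun ω => by
    rw [abs_mul, abs_of_pos (inv_pos.2 hC1)]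
    rw [inv_mul_le_iff₀ hC1]
    linarith [hF ω]) s ω
  have h2 : (fun ω' => (C + 1)⁻¹ * F ω' - (C + 1)⁻¹ * F (φ (lt s) ω')) =
      (C + 1)⁻¹ • fun ω' => F ω' - F (φ (lt s) ω') := by
    funext ω'
    rw [Pi.smul_apply, smul_eq_mul]
    ring
  rw [h2, map_smul, Pi.smul_apply, smul_eq_mul, abs_mul, abs_of_pos (inv_pos.2 hC1),
    inv_mul_le_iff₀ hC1] at h1
  exact h1

/-- bounded functions -/
def em_E (Ω : Type*) : Submodule ℝ (Ω → ℝ) where
  carrier := {F | Bd F}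
  add_mem' := by
    rintro F G ⟨C, hC⟩ ⟨D, hD⟩
    exact ⟨C + D, fun ω => (abs_add_le _ _).trans (add_le_add (hC ω) (hD ω))⟩
  zero_mem' := ⟨0, fun ω => by simp⟩
  smul_mem' := by
    rintro c F ⟨C, hC⟩
    refine ⟨|c| * C, fun ω => ?_⟩
    rw [Pi.smul_apply, smul_eq_mul, abs_mul]
    exact mul_le_mul_of_nonneg_left (hC ω) (abs_nonneg _)

/-- the cone -/
def em_cone (φ : F2 →* Equiv.Perm Ω) (α : ℝ) : PointedCone ℝ (em_E Ω) where
  carrier := {F | ∃ (h : Ω → ℝ) (t C : ℝ), em_KC φ h t ∧ 0 ≤ C ∧ ∀ (N : ℕ) (ε : ℝ), 0 < ε →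
    em_good φ N ε → ∀ ω, em_A φ N h ω - α * t - C * ε ≤ em_A φ N (F : Ω → ℝ) ω}
  add_mem' := by
    rintro F G ⟨h, t, C, h1, h2, h3⟩ ⟨h', t', C', h1', h2', h3'⟩
    refine ⟨h + h', t + t', C + C', em_KC_add h1 h1', add_nonneg h2 h2', ?_⟩
    intro N ε hε hg ω
    have e1 := h3 N ε hε hg ω
    have e2 := h3' N ε hε hg ω
    rw [Submodule.coe_add, map_add, map_add, Pi.add_apply, Pi.add_apply]
    linarith
  zero_mem' := by
    refine ⟨0, 0, 0, em_KC_zero φ, le_rfl, ?_⟩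
    intro N ε hε hg ω
    rw [Submodule.coe_zero, map_zero]
    simp
  smul_mem' := by
    rintro ⟨c, hc⟩ F ⟨h, t, C, h1, h2, h3⟩
    refine ⟨c • h, c * t, c * C, em_KC_smul h1 c hc, mul_nonneg hc h2, ?_⟩
    intro N ε hε hg ω
    have e1 := mul_le_mul_of_nonneg_left (h3 N ε hε hg ω) hc
    have e2 : (((⟨c, hc⟩ : {c : ℝ // 0 ≤ c}) • F : em_E Ω) : Ω → ℝ) = c • (F : Ω → ℝ) := rfl
    rw [e2, map_smul, map_smul, Pi.smul_apply, Pi.smul_apply, smul_eq_mul, smul_eq_mul]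
    linarith

end meanaux

/-- existence of an invariant mean giving mass at least α to all supports -/
theorem exists_mean {Ω : Type*} [Nonempty Ω] (φ : F2 →* Equiv.Perm Ω) (α : ℝ) (hα : 0 < α)
    (hD : ∀ ε : ℝ, 0 < ε → ∃ N : ℕ, 0 < N ∧ ∀ F : Ω → ℝ, (∀ ω, |F ω| ≤ 1) →
      ∀ (s : Lt) (ω : Ω), |(1 / (N : ℝ)) * ∑ n ∈ Finset.range N,
        ((avg φ)^[n] (fun ω' => F ω' - F (φ (lt s) ω'))) ω| ≤ ε)
    (hno : ¬ ∃ (ι : Type) (_ : Fintype ι) (c : ι → ℝ) (g : ι → F2), (∀ i, 0 ≤ c i) ∧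
      ∑ i, c i = 1 ∧ (∀ i, g i ≠ 1) ∧
      ∀ ω, ∑ i, c i * Set.indicator {ω' | φ (g i) ω' ≠ ω'} (fun _ => (1 : ℝ)) ω ≤ α) :
    ∃ M : Mean Ω, (∀ (g : F2) (F : Ω → ℝ), Bd F → M.m (fun ω => F (φ g ω)) = M.m F) ∧
      ∀ g : F2, g ≠ 1 → α ≤ M.m (Set.indicator {ω | φ g ω ≠ ω} (fun _ => (1 : ℝ))) := by
  classical
  have hgood : ∀ ε : ℝ, 0 < ε → ∃ N, em_good φ N ε := by
    intro ε hε
    obtain ⟨N, hN, hN2⟩ := hD ε hε
    refine ⟨N, hN, fun F hF s ω => ?_⟩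
    rw [em_A_apply]
    exact hN2 F hF s ω
  have hbd1 : ∀ c : ℝ, Bd (fun _ : Ω => c) := fun c => ⟨|c|, fun _ => le_rfl⟩
  let one : em_E Ω := ⟨fun _ => 1, hbd1 1⟩
  have hone : one ≠ 0 := by
    intro h
    have h1 : (one : Ω → ℝ) = 0 := by rw [h]; rfl
    obtain ⟨ω⟩ := ‹Nonempty Ω›
    have h2 := congrFun h1 ω
    exact one_ne_zero h2
  -- nonnegative functions are in the cone
  have hpos : ∀ F : em_E Ω, (∀ ω, 0 ≤ (F : Ω → ℝ) ω) → F ∈ em_cone φ α := by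
    intro F hF
    refine ⟨0, 0, 0, em_KC_zero φ, le_rfl, fun N ε hε hg ω => ?_⟩
    have := em_A_nonneg φ N hF ω
    simpa using this
  let f : em_E Ω →ₗ.[ℝ] ℝ := LinearPMap.mkSpanSingleton' one (1 : ℝ) (by
    intro c hc
    rcases smul_eq_zero.1 hc with h | h
    · rw [h]; simp
    · exact absurd h hone)
  have hfa : ∀ (c : ℝ) (h : c • one ∈ f.domain), f ⟨c • one, h⟩ = c := by
    intro c h
    have h1 : f ⟨c • one, h⟩ = (RingHom.id ℝ) c • (1 : ℝ) :=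
      LinearPMap.mkSpanSingleton'_apply one (1 : ℝ) _ c h
    rw [h1]
    simp
  have hdom : ∀ c : ℝ, c • one ∈ f.domain := by
    intro c
    exact Submodule.smul_mem _ _ (Submodule.mem_span_singleton_self one)
  obtain ⟨G, hG1, hG2⟩ := riesz_extension (em_cone φ α) f (by
    rintro ⟨x, hx⟩ hxs
    obtain ⟨d, rfl⟩ : ∃ d : ℝ, d • one = x := Submodule.mem_span_singleton.1 hx
    rw [hfa]
    by_contra hd
    push Not at hd
    obtain ⟨h, t, C, hK, hC, hin⟩ := hxs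
    have hε : 0 < (-d) / (2 * (C + 1)) := by
      apply div_pos (by linarith)
      linarith
    obtain ⟨N, hN⟩ := hgood _ hε
    have hin2 := hin N _ hε hN
    have e1 : ((d • one : em_E Ω) : Ω → ℝ) = fun _ => d := by
      funext ω
      show d * 1 = d
      ring
    rw [e1, em_A_const φ hN.1] at hin2
    have hCe : C * ((-d) / (2 * (C + 1))) ≤ -d / 2 := by
      rw [mul_div_assoc', div_le_div_iff₀ (by linarith) (by norm_num)]
      nlinarith
    have hlt : ∀ ω, em_A φ N h ω < α * t := by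
      intro ω
      have := hin2 ω
      linarith
    obtain ⟨ι, _, c, g, k1, k2, k3, k4⟩ := em_KC_A hK hN.1
    have ht : 0 < t := by
      obtain ⟨ω⟩ := ‹Nonempty Ω›
      have h5 := hlt ω
      rw [← k4] at h5
      have h6 : 0 ≤ ∑ i, c i * em_ind φ (g i) ω :=
        Finset.sum_nonneg fun i _ => mul_nonneg (k1 i) (em_ind_nonneg _ _ _)
      have h7 : 0 < α * t := lt_of_le_of_lt h6 h5
      exact (pos_iff_pos_of_mul_pos h7).1 hα
    apply hno
    refine ⟨ι, inferInstance, fun i => c i / t, g, fun i => div_nonneg (k1 i) ht.le, ?_, k2, ?_⟩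
    · rw [← Finset.sum_div, k3, div_self ht.ne']
    · intro ω
      have h5 : ∑ i, c i / t * Set.indicator {ω' | φ (g i) ω' ≠ ω'} (fun _ => (1 : ℝ)) ω =
          (∑ i, c i * em_ind φ (g i) ω) / t := by
        rw [Finset.sum_div]
        exact Finset.sum_congr rfl fun i _ => by rw [em_ind]; ring
      rw [h5, k4, div_le_iff₀ ht]
      exact (hlt ω).le) (by
    intro y
    obtain ⟨C, hC⟩ := y.2
    refine ⟨⟨C • one, hdom C⟩, hpos _ fun ω => ?_⟩
    have e1 : ((C • one + y : em_E Ω) : Ω → ℝ) ω = C + (y : Ω → ℝ) ω := by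
      show C * 1 + (y : Ω → ℝ) ω = C + (y : Ω → ℝ) ω
      ring
    show 0 ≤ ((C • one + y : em_E Ω) : Ω → ℝ) ω
    rw [e1]
    have := (abs_le.1 (hC ω)).1
    linarith)
  have hGc : ∀ (c : ℝ) (h : Bd (fun _ : Ω => c)), G ⟨fun _ => c, h⟩ = c := by
    intro c h
    have e1 : (⟨fun _ => c, h⟩ : em_E Ω) = c • one := by
      apply Subtype.ext
      funext ω
      show c = c * 1
      ring
    have h1 := hG1 ⟨c • one, hdom c⟩
    rw [hfa] at h1
    rw [e1]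
    exact h1
  have hGm : ∀ (F : Ω → ℝ) (h : Bd F),
      (if h : Bd F then G ⟨F, h⟩ else 0) = G ⟨F, h⟩ := fun F h => dif_pos h
  have hcomp : ∀ (v : F2) (F : Ω → ℝ), Bd F → Bd (fun ω => F (φ v ω)) := by
    rintro v F ⟨C, hC⟩
    exact ⟨C, fun ω => hC _⟩
  let M : Mean Ω :=
    { m := fun F => if h : Bd F then G ⟨F, h⟩ else 0
      one := by
        show (if h : Bd (fun _ : Ω => (1 : ℝ)) then G ⟨_, h⟩ else 0) = 1
        rw [hGm _ (hbd1 1), hGc]
      add := by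
        intro F F' hF hF'
        have h1 : Bd (fun ω => F ω + F' ω) := (em_E Ω).add_mem hF hF'
        show (if h : Bd (fun ω => F ω + F' ω) then G ⟨_, h⟩ else 0) =
          (if h : Bd F then G ⟨F, h⟩ else 0) + (if h : Bd F' then G ⟨F', h⟩ else 0)
        rw [hGm _ h1, hGm _ hF, hGm _ hF', ← map_add]
        rfl
      smul := by
        intro c F hF
        have h1 : Bd (fun ω => c * F ω) := (em_E Ω).smul_mem c hF
        show (if h : Bd (fun ω => c * F ω) then G ⟨_, h⟩ else 0) =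
          c * (if h : Bd F then G ⟨F, h⟩ else 0)
        rw [hGm _ h1, hGm _ hF, ← smul_eq_mul, ← map_smul]
        rfl
      nonneg := by
        intro F hF hF0
        show 0 ≤ (if h : Bd F then G ⟨F, h⟩ else 0)
        rw [hGm _ hF]
        exact hG2 _ (hpos _ hF0) }
  have hM : ∀ (F : Ω → ℝ) (h : Bd F), M.m F = G ⟨F, h⟩ := hGm
  -- invariance under letters
  have hlt : ∀ (s : Lt) (F : Ω → ℝ), Bd F → M.m (fun ω => F (φ (lt s) ω)) = M.m F := by
    intro s F hF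
    have hF' := hcomp (lt s) F hF
    rw [hM _ hF', hM _ hF]
    obtain ⟨C, hC⟩ := hF
    have hC0 : 0 ≤ C := by
      obtain ⟨ω⟩ := ‹Nonempty Ω›
      exact (abs_nonneg _).trans (hC ω)
    have hd1 : (⟨F, ⟨C, hC⟩⟩ - ⟨_, hF'⟩ : em_E Ω) ∈ em_cone φ α := by
      refine ⟨0, 0, C + 1, em_KC_zero φ, by linarith, fun N ε hε hg ω => ?_⟩
      have h1 := em_good_scale hC0 hC hg s ω
      have h2 := (abs_le.1 h1).1
      rw [map_zero]
      have e1 : ((⟨F, ⟨C, hC⟩⟩ - ⟨_, hF'⟩ : em_E Ω) : Ω → ℝ) =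
        fun ω' => F ω' - F (φ (lt s) ω') := rfl
      rw [e1]
      simp only [Pi.zero_apply]
      linarith
    have hd2 : (⟨_, hF'⟩ - ⟨F, ⟨C, hC⟩⟩ : em_E Ω) ∈ em_cone φ α := by
      refine ⟨0, 0, C + 1, em_KC_zero φ, by linarith, fun N ε hε hg ω => ?_⟩
      have h1 := em_good_scale hC0 hC hg s ω
      have h2 := (abs_le.1 h1).2
      rw [map_zero]
      have e1 : ((⟨_, hF'⟩ - ⟨F, ⟨C, hC⟩⟩ : em_E Ω) : Ω → ℝ) =
        -(fun ω' => F ω' - F (φ (lt s) ω')) := by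
        funext ω'
        show F (φ (lt s) ω') - F ω' = -(F ω' - F (φ (lt s) ω'))
        ring
      rw [e1, map_neg, Pi.neg_apply]
      simp only [Pi.zero_apply]
      linarith
    have h1 := hG2 _ hd1
    have h2 := hG2 _ hd2
    rw [map_sub] at h1 h2
    linarith
  have hinv : ∀ (g : F2) (F : Ω → ℝ), Bd F → M.m (fun ω => F (φ g ω)) = M.m F := by
    intro g
    induction g using FreeGroup.induction_on with
    | C1 =>
      intro F hF
      simp
    | of b =>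
      intro F hF
      exact hlt (some (b, true)) F hF
    | inv_of b _ =>
      intro F hF
      have e1 : (FreeGroup.of b : F2)⁻¹ = lt (some (b, false)) := by
        rfl
      rw [e1]
      exact hlt _ F hF
    | mul g h hg hh =>
      intro F hF
      have h1 := hh (fun ω => F (φ g ω)) (hcomp g F hF)
      have h2 := hg F hF
      rw [← h2, ← h1]
      congr 1
      funext ω
      rw [map_mul, Equiv.Perm.mul_apply]
  refine ⟨M, hinv, fun g hg => ?_⟩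
  have hbi : Bd (em_ind φ g) := ⟨1, fun ω => by
    rw [abs_of_nonneg (em_ind_nonneg _ _ _)]
    exact em_ind_le _ _ _⟩
  show α ≤ M.m (em_ind φ g)
  rw [hM _ hbi]
  have hmem : (⟨em_ind φ g, hbi⟩ - ⟨fun _ => α, hbd1 α⟩ : em_E Ω) ∈ em_cone φ α := by
    refine ⟨em_ind φ g, 1, 0, ⟨Unit, inferInstance, fun _ => 1, fun _ => g, fun _ => zero_le_one,
      fun _ => hg, by simp, fun ω => by simp⟩, le_rfl, fun N ε hε hgd ω => ?_⟩
    have e1 : ((⟨em_ind φ g, hbi⟩ - ⟨fun _ => α, hbd1 α⟩ : em_E Ω) : Ω → ℝ) =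
      em_ind φ g - fun _ => α := rfl
    rw [e1, map_sub, em_A_const φ hgd.1, Pi.sub_apply]
    linarith
  have h1 := hG2 _ hmem
  rw [map_sub, hGc] at h1
  linarith

end JC

end Pool.Agent.Helper894.FS
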