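import Pool.Agent.Helper894.FS.Defs

namespace Pool.Agent.Helper894.FS

namespace JD1

open scoped BigOperators



theorem avg_eq (π : F2 →* Equiv.Perm ℤ) (f : ℤ → ℝ) (n : ℤ) :
    avg π f n = (1 / 5) * (f n + f (π (FreeGroup.of true) n) + f ((π (FreeGroup.of true))⁻¹ n) +
      f (π (FreeGroup.of false) n) + f ((π (FreeGroup.of false))⁻¹ n)) := by
  unfold avg
  rw [Fintype.sum_option, Fintype.sum_prod_type]
  simp only [Fintype.sum_bool]
  have e0 : lt none = 1 := rfl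
  have e1 : lt (some (true, true)) = FreeGroup.of true := rfl
  have e2 : lt (some (true, false)) = (FreeGroup.of true)⁻¹ := rfl
  have e3 : lt (some (false, true)) = FreeGroup.of false := rfl
  have e4 : lt (some (false, false)) = (FreeGroup.of false)⁻¹ := rfl
  rw [e0, e1, e2, e3, e4, map_one, map_inv, map_inv, Equiv.Perm.one_apply]
  ring

theorem sum_fs {g : ℤ → ℝ} {T : Set ℤ} (hT : T.Finite) (h : ∀ n, g n ≠ 0 → n ∈ T) : Summable g :=
  summable_of_hasFiniteSupport (hT.subset fun n hn => h n hn)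

theorem fin_comp {f : ℤ → ℝ} (hf : (Function.support f).Finite) (σ : Equiv.Perm ℤ) :
    (Function.support (fun n => f (σ n))).Finite := by
  have : Function.support (fun n => f (σ n)) = σ ⁻¹' Function.support f := rfl
  rw [this]
  exact hf.preimage σ.injective.injOn

theorem five_ineq (a b c d e : ℝ) :
    (1 / 5 * (a + b + c + d + e)) ^ 2 + 1 / 25 * ((a - b) ^ 2 + (a - c) ^ 2 + (a - d) ^ 2 + (a - e) ^ 2) ≤
      1 / 5 * (a ^ 2 + b ^ 2 + c ^ 2 + d ^ 2 + e ^ 2) := by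
  nlinarith [sq_nonneg (b - c), sq_nonneg (b - d), sq_nonneg (b - e), sq_nonneg (c - d),
    sq_nonneg (c - e), sq_nonneg (d - e)]

theorem pw1 {w t δ a b : ℝ} (hw : 0 < w) (ht : 0 ≤ t) (htw : t ≤ δ * w) :
    t * (a * b) ≤ w * (2 / 5 * a ^ 2 + 5 / 8 * δ ^ 2 * b ^ 2) := by
  have h1 : 0 ≤ w * (4 * a - 5 * δ * b) ^ 2 := by positivity
  rcases le_total 0 (a * b) with h | h
  · have h2 := mul_le_mul_of_nonneg_right htw h
    nlinarith
  · have h2 : t * (a * b) ≤ 0 := mul_nonpos_of_nonneg_of_nonpos ht h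
    have h3 : 0 ≤ w * (2 / 5 * a ^ 2 + 5 / 8 * δ ^ 2 * b ^ 2) := by positivity
    linarith

theorem pw2 {W1 W2 δ u v : ℝ} (h1 : 0 < W1) (h2 : 0 < W2) (h12 : W1 - W2 ≤ δ * W2)
    (h21 : W2 - W1 ≤ δ * W1) :
    1 / 5 * (W1 * v ^ 2 + W2 * u ^ 2) - 1 / 25 * (W1 * (u - v) ^ 2 + W2 * (v - u) ^ 2) ≤
      1 / 5 * (W1 * u ^ 2 + W2 * v ^ 2) + 1 / 4 * δ ^ 2 * (W1 * u ^ 2 + W2 * v ^ 2) := by
  have hs : (v + u) ^ 2 ≤ 2 * (u ^ 2 + v ^ 2) := by nlinarith [sq_nonneg (u - v)]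
  have hd : 0 ≤ δ ^ 2 := sq_nonneg δ
  have hu : 0 ≤ u ^ 2 := sq_nonneg u
  have hv : 0 ≤ v ^ 2 := sq_nonneg v
  rcases le_total W2 W1 with h | h
  · have h3 := pw1 (a := v - u) (b := v + u) h2 (sub_nonneg.2 h) h12
    have h4 : 5 / 8 * δ ^ 2 * W2 * (v + u) ^ 2 ≤ 5 / 8 * δ ^ 2 * W2 * (2 * (u ^ 2 + v ^ 2)) :=
      mul_le_mul_of_nonneg_left hs (by positivity)
    have h5 : δ ^ 2 * u ^ 2 * W2 ≤ δ ^ 2 * u ^ 2 * W1 := mul_le_mul_of_nonneg_left h (by positivity)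
    have h6 : W2 * (v - u) ^ 2 ≤ W1 * (v - u) ^ 2 := mul_le_mul_of_nonneg_right h (sq_nonneg _)
    nlinarith
  · have h3 := pw1 (a := -(v - u)) (b := v + u) h1 (sub_nonneg.2 h) h21
    have h4 : 5 / 8 * δ ^ 2 * W1 * (v + u) ^ 2 ≤ 5 / 8 * δ ^ 2 * W1 * (2 * (u ^ 2 + v ^ 2)) :=
      mul_le_mul_of_nonneg_left hs (by positivity)
    have h5 : δ ^ 2 * v ^ 2 * W1 ≤ δ ^ 2 * v ^ 2 * W2 := mul_le_mul_of_nonneg_left h (by positivity)
    have h6 : W1 * (v - u) ^ 2 ≤ W2 * (v - u) ^ 2 := mul_le_mul_of_nonneg_right h (sq_nonneg _)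
    nlinarith

theorem disp_inv {π : F2 →* Equiv.Perm ℤ} {r : ℕ} (hπ : Disp r π) (x : Bool) (n : ℤ) :
    |n - π (FreeGroup.of x) n| ≤ r := by
  rw [abs_sub_comm]
  exact hπ x n

/-- the pair estimate -/
theorem pair_est (σ : Equiv.Perm ℤ) (r : ℕ) (hσ : ∀ n, |σ n - n| ≤ r) (W : ℤ → ℝ) (δ : ℝ)
    (hW : ∀ n, 0 < W n) (hδ : ∀ m n : ℤ, |m - n| ≤ r → W m - W n ≤ δ * W n)
    (f : ℤ → ℝ) (hf : (Function.support f).Finite) :
    ∑' n, (1 / 5 * (W n * f (σ n) ^ 2 + W n * f (σ⁻¹ n) ^ 2) -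
      1 / 25 * (W n * (f n - f (σ n)) ^ 2 + W n * (f n - f (σ⁻¹ n)) ^ 2)) ≤
      (2 / 5 + 1 / 2 * δ ^ 2) * ∑' n, W n * f n ^ 2 := by
  have hf1 := fin_comp hf σ
  have hf2 := fin_comp hf σ⁻¹
  have hT := (hf.union hf1).union hf2
  have hz : ∀ n, n ∉ (Function.support f ∪ Function.support (fun n => f (σ n))) ∪
      Function.support (fun n => f (σ⁻¹ n)) → f n = 0 ∧ f (σ n) = 0 ∧ f (σ⁻¹ n) = 0 := by
    intro n hn
    simp only [Set.mem_union, Function.mem_support, not_or, not_not] at hn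
    exact ⟨hn.1.1, hn.1.2, hn.2⟩
  have mk : ∀ g : ℤ → ℝ, (∀ n, f n = 0 → f (σ n) = 0 → f (σ⁻¹ n) = 0 → g n = 0) → Summable g := by
    intro g hg
    refine sum_fs hT fun n hn => ?_
    by_contra hcon
    obtain ⟨a, b, c⟩ := hz n hcon
    exact hn (hg n a b c)
  have sF : Summable fun n => W n * f n ^ 2 := mk _ (fun n a b c => by rw [a]; ring)
  have sX1 : Summable fun n => W n * f (σ n) ^ 2 := mk _ (fun n a b c => by rw [b]; ring)
  have sX2 : Summable fun n => W n * f (σ⁻¹ n) ^ 2 := mk _ (fun n a b c => by rw [c]; ring)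
  have sD1 : Summable fun n => W n * (f n - f (σ n)) ^ 2 := mk _ (fun n a b c => by rw [a, b]; ring)
  have sD2 : Summable fun n => W n * (f n - f (σ⁻¹ n)) ^ 2 := mk _ (fun n a b c => by rw [a, c]; ring)
  have sX2' : Summable fun n => W (σ n) * f n ^ 2 := mk _ (fun n a b c => by rw [a]; ring)
  have sD2' : Summable fun n => W (σ n) * (f (σ n) - f n) ^ 2 := mk _ (fun n a b c => by rw [a, b]; ring)
  have sF' : Summable fun n => W (σ n) * f (σ n) ^ 2 := mk _ (fun n a b c => by rw [b]; ring)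
  have eX2 : ∑' n, W n * f (σ⁻¹ n) ^ 2 = ∑' n, W (σ n) * f n ^ 2 := by
    rw [← Equiv.tsum_eq σ]
    simp
  have eD2 : ∑' n, W n * (f n - f (σ⁻¹ n)) ^ 2 = ∑' n, W (σ n) * (f (σ n) - f n) ^ 2 := by
    rw [← Equiv.tsum_eq σ]
    simp
  have eF : ∑' n, W (σ n) * f (σ n) ^ 2 = ∑' n, W n * f n ^ 2 :=
    Equiv.tsum_eq σ (fun n => W n * f n ^ 2)
  have h1 : ∑' n, (1 / 5 * (W n * f (σ n) ^ 2 + W n * f (σ⁻¹ n) ^ 2) -
      1 / 25 * (W n * (f n - f (σ n)) ^ 2 + W n * (f n - f (σ⁻¹ n)) ^ 2)) =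
      1 / 5 * (∑' n, W n * f (σ n) ^ 2 + ∑' n, W n * f (σ⁻¹ n) ^ 2) -
      1 / 25 * (∑' n, W n * (f n - f (σ n)) ^ 2 + ∑' n, W n * (f n - f (σ⁻¹ n)) ^ 2) :=
    (((sX1.hasSum.add sX2.hasSum).mul_left (1 / 5)).sub
      ((sD1.hasSum.add sD2.hasSum).mul_left (1 / 25))).tsum_eq
  rw [h1, eX2, eD2]
  have h2 := ((sX1.hasSum.add sX2'.hasSum).mul_left (1 / 5 : ℝ)).sub
      ((sD1.hasSum.add sD2'.hasSum).mul_left (1 / 25 : ℝ))
  have h3 := ((sF.hasSum.add sF'.hasSum).mul_left (1 / 5 : ℝ)).add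
    ((sF.hasSum.add sF'.hasSum).mul_left (1 / 4 * δ ^ 2))
  have h4 := hasSum_le (fun n => by
    exact pw2 (u := f n) (v := f (σ n)) (hW n) (hW (σ n))
      (hδ n (σ n) (by rw [abs_sub_comm]; exact hσ n)) (hδ (σ n) n (hσ n))) h2 h3
  rw [eF] at h4
  refine h4.trans (le_of_eq ?_)
  ring

/-- weighted L2 estimate for one step of the lazy walk -/
theorem weighted (π : F2 →* Equiv.Perm ℤ) (r : ℕ) (hπ : Disp r π) (W : ℤ → ℝ) (δ : ℝ)
    (hW : ∀ n, 0 < W n) (hδ : ∀ m n : ℤ, |m - n| ≤ r → W m - W n ≤ δ * W n)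
    (f : ℤ → ℝ) (hf : (Function.support f).Finite) :
    ∑' n, W n * (avg π f n) ^ 2 ≤ (1 + δ ^ 2) * ∑' n, W n * (f n) ^ 2 := by
  set p := π (FreeGroup.of true) with hp
  set q := π (FreeGroup.of false) with hq
  have h1 := pair_est p r (hπ true) W δ hW hδ f hf
  have h2 := pair_est q r (hπ false) W δ hW hδ f hf
  have hT := (((hf.union (fin_comp hf p)).union (fin_comp hf p⁻¹)).union (fin_comp hf q)).union
    (fin_comp hf q⁻¹)
  have mk : ∀ g : ℤ → ℝ, (∀ n, f n = 0 → f (p n) = 0 → f (p⁻¹ n) = 0 → f (q n) = 0 →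
      f (q⁻¹ n) = 0 → g n = 0) → Summable g := by
    intro g hg
    refine sum_fs hT fun n hn => ?_
    by_contra hcon
    simp only [Set.mem_union, Function.mem_support, not_or, not_not] at hcon
    exact hn (hg n hcon.1.1.1.1 hcon.1.1.1.2 hcon.1.1.2 hcon.1.2 hcon.2)
  have sA : Summable fun n => W n * (avg π f n) ^ 2 := mk _ (fun n a b c d e => by
    rw [avg_eq, ← hp, ← hq, a, b, c, d, e]; ring)
  have sF : Summable fun n => W n * f n ^ 2 := mk _ (fun n a b c d e => by rw [a]; ring)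
  have sP : Summable fun n => (1 / 5 * (W n * f (p n) ^ 2 + W n * f (p⁻¹ n) ^ 2) -
      1 / 25 * (W n * (f n - f (p n)) ^ 2 + W n * (f n - f (p⁻¹ n)) ^ 2)) :=
    mk _ (fun n a b c d e => by rw [a, b, c]; ring)
  have sQ : Summable fun n => (1 / 5 * (W n * f (q n) ^ 2 + W n * f (q⁻¹ n) ^ 2) -
      1 / 25 * (W n * (f n - f (q n)) ^ 2 + W n * (f n - f (q⁻¹ n)) ^ 2)) :=
    mk _ (fun n a b c d e => by rw [a, d, e]; ring)
  have h3 := ((sF.hasSum.mul_left (1 / 5 : ℝ)).add sP.hasSum).add sQ.hasSum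
  have h4 := hasSum_le (fun n => by
    have h5 := mul_le_mul_of_nonneg_left (five_ineq (f n) (f (p n)) (f (p⁻¹ n)) (f (q n)) (f (q⁻¹ n)))
      (hW n).le
    show W n * (avg π f n) ^ 2 ≤ 1 / 5 * (W n * f n ^ 2) +
      (1 / 5 * (W n * f (p n) ^ 2 + W n * f (p⁻¹ n) ^ 2) -
        1 / 25 * (W n * (f n - f (p n)) ^ 2 + W n * (f n - f (p⁻¹ n)) ^ 2)) +
      (1 / 5 * (W n * f (q n) ^ 2 + W n * f (q⁻¹ n) ^ 2) -
        1 / 25 * (W n * (f n - f (q n)) ^ 2 + W n * (f n - f (q⁻¹ n)) ^ 2))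
    rw [avg_eq, ← hp, ← hq]
    linarith) sA.hasSum h3
  have h6 : 0 ≤ ∑' n, W n * f n ^ 2 := tsum_nonneg fun n => mul_nonneg (hW n).le (sq_nonneg _)
  linarith

/-- energy estimate -/
theorem energy (π : F2 →* Equiv.Perm ℤ) (f : ℤ → ℝ) (hf : (Function.support f).Finite) :
    ∑' n, (avg π f n) ^ 2 + (1 / 25) * ∑ s : Lt, ∑' n, (f n - f (π (lt s) n)) ^ 2
      ≤ ∑' n, (f n) ^ 2 := by
  set p := π (FreeGroup.of true) with hp
  set q := π (FreeGroup.of false) with hq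
  have hT := (((hf.union (fin_comp hf p)).union (fin_comp hf p⁻¹)).union (fin_comp hf q)).union
    (fin_comp hf q⁻¹)
  have mk : ∀ g : ℤ → ℝ, (∀ n, f n = 0 → f (p n) = 0 → f (p⁻¹ n) = 0 → f (q n) = 0 →
      f (q⁻¹ n) = 0 → g n = 0) → Summable g := by
    intro g hg
    refine sum_fs hT fun n hn => ?_
    by_contra hcon
    simp only [Set.mem_union, Function.mem_support, not_or, not_not] at hcon
    exact hn (hg n hcon.1.1.1.1 hcon.1.1.1.2 hcon.1.1.2 hcon.1.2 hcon.2)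
  have sA : Summable fun n => (avg π f n) ^ 2 := mk _ (fun n a b c d e => by
    rw [avg_eq, ← hp, ← hq, a, b, c, d, e]; ring)
  have s0 : Summable fun n => f n ^ 2 := mk _ (fun n a b c d e => by rw [a]; ring)
  have s1 : Summable fun n => f (p n) ^ 2 := mk _ (fun n a b c d e => by rw [b]; ring)
  have s2 : Summable fun n => f (p⁻¹ n) ^ 2 := mk _ (fun n a b c d e => by rw [c]; ring)
  have s3 : Summable fun n => f (q n) ^ 2 := mk _ (fun n a b c d e => by rw [d]; ring)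
  have s4 : Summable fun n => f (q⁻¹ n) ^ 2 := mk _ (fun n a b c d e => by rw [e]; ring)
  have d1 : Summable fun n => (f n - f (p n)) ^ 2 := mk _ (fun n a b c d e => by rw [a, b]; ring)
  have d2 : Summable fun n => (f n - f (p⁻¹ n)) ^ 2 := mk _ (fun n a b c d e => by rw [a, c]; ring)
  have d3 : Summable fun n => (f n - f (q n)) ^ 2 := mk _ (fun n a b c d e => by rw [a, d]; ring)
  have d4 : Summable fun n => (f n - f (q⁻¹ n)) ^ 2 := mk _ (fun n a b c d e => by rw [a, e]; ring)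
  have e1 : ∑' n, f (p n) ^ 2 = ∑' n, f n ^ 2 := Equiv.tsum_eq p (fun n => f n ^ 2)
  have e2 : ∑' n, f (p⁻¹ n) ^ 2 = ∑' n, f n ^ 2 := Equiv.tsum_eq p⁻¹ (fun n => f n ^ 2)
  have e3 : ∑' n, f (q n) ^ 2 = ∑' n, f n ^ 2 := Equiv.tsum_eq q (fun n => f n ^ 2)
  have e4 : ∑' n, f (q⁻¹ n) ^ 2 = ∑' n, f n ^ 2 := Equiv.tsum_eq q⁻¹ (fun n => f n ^ 2)
  have hL := sA.hasSum.add ((((d1.hasSum.add d2.hasSum).add d3.hasSum).add d4.hasSum).mul_left
    (1 / 25 : ℝ))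
  have hR := ((((s0.hasSum.add s1.hasSum).add s2.hasSum).add s3.hasSum).add s4.hasSum).mul_left
    (1 / 5 : ℝ)
  have h := hasSum_le (fun n => by
    have h5 := five_ineq (f n) (f (p n)) (f (p⁻¹ n)) (f (q n)) (f (q⁻¹ n))
    show (avg π f n) ^ 2 + 1 / 25 * ((f n - f (p n)) ^ 2 + (f n - f (p⁻¹ n)) ^ 2 +
      (f n - f (q n)) ^ 2 + (f n - f (q⁻¹ n)) ^ 2) ≤
      1 / 5 * (f n ^ 2 + f (p n) ^ 2 + f (p⁻¹ n) ^ 2 + f (q n) ^ 2 + f (q⁻¹ n) ^ 2)
    rw [avg_eq, ← hp, ← hq]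
    exact h5) hL hR
  rw [e1, e2, e3, e4] at h
  have hsum : ∑ s : Lt, ∑' n, (f n - f (π (lt s) n)) ^ 2 =
      ∑' n, (f n - f (p n)) ^ 2 + ∑' n, (f n - f (p⁻¹ n)) ^ 2 + ∑' n, (f n - f (q n)) ^ 2 +
        ∑' n, (f n - f (q⁻¹ n)) ^ 2 := by
    rw [Fintype.sum_option, Fintype.sum_prod_type]
    simp only [Fintype.sum_bool]
    have e0 : lt none = 1 := rfl
    have e1 : lt (some (true, true)) = FreeGroup.of true := rfl
    have e2 : lt (some (true, false)) = (FreeGroup.of true)⁻¹ := rfl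
    have e3 : lt (some (false, true)) = FreeGroup.of false := rfl
    have e4 : lt (some (false, false)) = (FreeGroup.of false)⁻¹ := rfl
    rw [e0, e1, e2, e3, e4, map_one, map_inv, map_inv, ← hp, ← hq]
    have z : ∑' n, (f n - f ((1 : Equiv.Perm ℤ) n)) ^ 2 = 0 := by
      simp
    rw [z]
    ring
  rw [hsum]
  linarith

end JD1

end Pool.Agent.Helper894.FS
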