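import Pool.Agent.Helper894.FS.Defs

namespace Pool.Agent.Helper894.FS

namespace JD2

open scoped BigOperators


/-- the inverse letter -/
def tail_iv : Lt → Lt
  | none => none
  | some (x, b) => some (x, !b)

theorem tail_iv_iv (s : Lt) : tail_iv (tail_iv s) = s := by
  rcases s with _ | ⟨x, b⟩
  · rfl
  · cases b <;> rfl

theorem tail_lt_iv (s : Lt) : lt (tail_iv s) = (lt s)⁻¹ := by
  rcases s with _ | ⟨x, b⟩
  · show (1 : F2) = 1⁻¹
    rw [inv_one]
  · show FreeGroup.mk [(x, !b)] = (FreeGroup.mk [(x, b)])⁻¹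
    rw [FreeGroup.inv_mk]
    rfl

/-- the inversion of letters as an equivalence -/
def tail_ivE : Lt ≃ Lt := ⟨tail_iv, tail_iv, tail_iv_iv, tail_iv_iv⟩

theorem tail_disp {r : ℕ} {π : F2 →* Equiv.Perm ℤ} (hπ : Disp r π) (s : Lt) (n : ℤ) :
    |π (lt s) n - n| ≤ r := by
  rcases s with _ | ⟨x, b⟩
  · show |π 1 n - n| ≤ r
    rw [map_one]
    simp
  · cases b
    · have h1 : lt (some (x, false)) = (FreeGroup.of x)⁻¹ := by
        show FreeGroup.mk [(x, false)] = (FreeGroup.mk [(x, true)])⁻¹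
        rw [FreeGroup.inv_mk]
        rfl
      rw [h1, map_inv]
      have h2 := hπ x ((π (FreeGroup.of x))⁻¹ n)
      have h3 : π (FreeGroup.of x) ((π (FreeGroup.of x))⁻¹ n) = n :=
        (π (FreeGroup.of x)).apply_symm_apply n
      rw [h3] at h2
      rw [abs_sub_comm]
      exact h2
    · exact hπ x n

theorem tail_supp {r : ℕ} {π : F2 →* Equiv.Perm ℤ} (hπ : Disp r π) {z a : ℤ} {f : ℤ → ℝ}
    (hf : ∀ y, f y ≠ 0 → |y - z| ≤ a) : ∀ y, avg π f y ≠ 0 → |y - z| ≤ a + r := by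
  intro y hy
  by_contra hcon
  apply hy
  unfold avg
  rw [Finset.sum_eq_zero, mul_zero]
  intro s _
  by_contra hs
  apply hcon
  have h1 := hf _ hs
  have h2 := tail_disp hπ s y
  rw [abs_le] at h1 h2 ⊢
  constructor <;> linarith [h1.1, h1.2, h2.1, h2.2]

theorem tail_fin (π : F2 →* Equiv.Perm ℤ) {f : ℤ → ℝ} (hf : (Function.support f).Finite) :
    (Function.support (avg π f)).Finite := by
  have h1 : (⋃ s : Lt, (π (lt s)) ⁻¹' Function.support f).Finite :=
    Set.finite_iUnion fun s => hf.preimage (π (lt s)).injective.injOn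
  refine h1.subset ?_
  intro y hy
  by_contra hcon
  apply hy
  unfold avg
  rw [Finset.sum_eq_zero, mul_zero]
  intro s _
  by_contra hs
  exact hcon (Set.mem_iUnion.2 ⟨s, hs⟩)

theorem tail_fin_iter (π : F2 →* Equiv.Perm ℤ) (n : ℕ) {f : ℤ → ℝ}
    (hf : (Function.support f).Finite) : (Function.support ((avg π)^[n] f)).Finite := by
  induction n with
  | zero => exact hf
  | succ n ih =>
    rw [Function.iterate_succ_apply']
    exact tail_fin π ih

theorem tail_adj (π : F2 →* Equiv.Perm ℤ) {f g : ℤ → ℝ} (hf : (Function.support f).Finite) :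
    ∑' y, avg π f y * g y = ∑' y, f y * avg π g y := by
  have hsum : ∀ s : Lt, Summable (fun y => f (π (lt s) y) * g y) := by
    intro s
    apply summable_of_hasFiniteSupport
    apply (hf.preimage (π (lt s)).injective.injOn).subset
    intro y hy
    exact left_ne_zero_of_mul hy
  have hsum2 : ∀ s : Lt, Summable (fun y => f y * g (π (lt s) y)) := by
    intro s
    apply summable_of_hasFiniteSupport
    apply hf.subset
    intro y hy
    exact left_ne_zero_of_mul hy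
  have h1 : ∀ y, avg π f y * g y = (1 / 5) * ∑ s : Lt, f (π (lt s) y) * g y := by
    intro y
    unfold avg
    rw [mul_assoc, Finset.sum_mul]
  have h2 : ∀ y, f y * avg π g y = (1 / 5) * ∑ s : Lt, f y * g (π (lt s) y) := by
    intro y
    unfold avg
    rw [← Finset.mul_sum]
    ring
  rw [tsum_congr h1, tsum_congr h2, tsum_mul_left, tsum_mul_left]
  congr 1
  rw [Summable.tsum_finsetSum (fun s _ => hsum s), Summable.tsum_finsetSum (fun s _ => hsum2 s)]
  rw [← Equiv.sum_comp tail_ivE]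
  apply Finset.sum_congr rfl
  intro s _
  rw [← Equiv.tsum_eq (π (lt s))]
  apply tsum_congr
  intro y
  show f (π (lt (tail_iv s)) (π (lt s) y)) * g (π (lt s) y) = _
  have h3 : (π (lt s))⁻¹ (π (lt s) y) = y := (π (lt s)).symm_apply_apply y
  rw [tail_lt_iv, map_inv, h3]

theorem tail_adj_iter (π : F2 →* Equiv.Perm ℤ) (n : ℕ) : ∀ {f g : ℤ → ℝ},
    (Function.support f).Finite →
    ∑' y, (avg π)^[n] f y * g y = ∑' y, f y * (avg π)^[n] g y := by
  induction n with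
  | zero =>
    intro f g _
    rfl
  | succ n ih =>
    intro f g hf
    rw [Function.iterate_succ_apply, Function.iterate_succ_apply', ih (tail_fin π hf),
      tail_adj π hf]

theorem tail_words (π : F2 →* Equiv.Perm ℤ) (F : ℤ → ℝ) (n : ℕ) :
    ∀ z, ∑ l ∈ words n, F (π (ev l) z) = 5 ^ n * (avg π)^[n] F z := by
  induction n with
  | zero =>
    intro z
    simp [words, ev]
  | succ n ih =>
    intro z
    have h1 : ∀ s : Lt, ∑ l ∈ words n, F (π (ev (s :: l)) z)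
        = 5 ^ n * (avg π)^[n] F (π (lt s) z) := by
      intro s
      rw [← ih]
      apply Finset.sum_congr rfl
      intro l _
      show F (π (ev l * lt s) z) = _
      rw [map_mul]
      rfl
    rw [words, Finset.sum_map, Finset.sum_product, Function.iterate_succ_apply']
    show ∑ s : Lt, ∑ l ∈ words n, F (π (ev (s :: l)) z)
      = 5 ^ (n + 1) * ((1 / 5) * ∑ s : Lt, (avg π)^[n] F (π (lt s) z))
    rw [Finset.sum_congr rfl (fun s _ => h1 s), ← Finset.mul_sum]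
    ring

theorem tail_supp_iter {r : ℕ} {π : F2 →* Equiv.Perm ℤ} (hπ : Disp r π) (z : ℤ) (n : ℕ) :
    ∀ y, (avg π)^[n] (Pi.single z 1) y ≠ 0 → |y - z| ≤ (n * r : ℤ) := by
  induction n with
  | zero =>
    intro y hy
    by_cases h : y = z
    · rw [h]
      simp
    · exact absurd (Pi.single_eq_of_ne h _) hy
  | succ n ih =>
    rw [Function.iterate_succ_apply']
    intro y hy
    have h1 := tail_supp hπ ih y hy
    refine h1.trans (le_of_eq ?_)
    push_cast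
    ring

theorem tail_single_fin (z : ℤ) : (Function.support (Pi.single z (1 : ℝ) : ℤ → ℝ)).Finite := by
  apply (Set.finite_singleton z).subset
  intro y hy
  by_contra hne
  exact hy (Pi.single_eq_of_ne hne _)

theorem tail_weight (r : ℕ) (π : F2 →* Equiv.Perm ℤ)
    (hweighted : ∀ (W : ℤ → ℝ) (δ : ℝ), (∀ n, 0 < W n) →
      (∀ m n : ℤ, |m - n| ≤ r → W m - W n ≤ δ * W n) →
      ∀ f : ℤ → ℝ, (Function.support f).Finite →
        ∑' n, W n * (avg π f n) ^ 2 ≤ (1 + δ ^ 2) * ∑' n, W n * (f n) ^ 2)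
    (W : ℤ → ℝ) (δ : ℝ) (hW : ∀ n, 0 < W n)
    (hWd : ∀ m n : ℤ, |m - n| ≤ r → W m - W n ≤ δ * W n) (z : ℤ) (n : ℕ) :
    ∑' y, W y * ((avg π)^[n] (Pi.single z 1) y) ^ 2 ≤ (1 + δ ^ 2) ^ n * W z := by
  induction n with
  | zero =>
    rw [tsum_eq_single z]
    · show W z * ((Pi.single z (1 : ℝ) : ℤ → ℝ) z) ^ 2 ≤ _
      rw [Pi.single_eq_same]
      simp
    · intro y hy
      show W y * ((Pi.single z (1 : ℝ) : ℤ → ℝ) y) ^ 2 = 0
      rw [Pi.single_eq_of_ne hy]
      simp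
  | succ n ih =>
    rw [Function.iterate_succ_apply']
    have h1 := hweighted W δ hW hWd _ (tail_fin_iter π n (tail_single_fin z))
    have h2 : (0 : ℝ) ≤ 1 + δ ^ 2 := by positivity
    calc _ ≤ _ := h1
      _ ≤ (1 + δ ^ 2) * ((1 + δ ^ 2) ^ n * W z) := mul_le_mul_of_nonneg_left ih h2
      _ = _ := by ring

/-- tail estimate for the walk (the weighted L2 estimate is given as a hypothesis) -/
theorem tail (r : ℕ) (π : F2 →* Equiv.Perm ℤ) (hπ : Disp r π)
    (hweighted : ∀ (W : ℤ → ℝ) (δ : ℝ), (∀ n, 0 < W n) →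
      (∀ m n : ℤ, |m - n| ≤ r → W m - W n ≤ δ * W n) →
      ∀ f : ℤ → ℝ, (Function.support f).Finite →
        ∑' n, W n * (avg π f n) ^ 2 ≤ (1 + δ ^ 2) * ∑' n, W n * (f n) ^ 2)
    (lam : ℝ) (h0 : 0 ≤ lam) (h1 : lam * r ≤ 1) (n D : ℕ) (z : ℤ) :
    ((((words n).filter (fun l => (D : ℤ) ≤ |π (ev l) z - z|)).card : ℝ) / 5 ^ n) ^ 2 ≤
      (2 * n * r + 1) * Real.exp (-lam * D + 4 * lam ^ 2 * r ^ 2 * n) := by
  classical
  set p : ℤ → ℝ := (avg π)^[n] (Pi.single z 1) with hp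
  set F : ℤ → ℝ := fun y => if (D : ℤ) ≤ |y - z| then 1 else 0 with hF
  set I : Finset ℤ := Finset.Icc (z - n * r) (z + n * r) with hI
  -- the count as a sum
  have hcount : ((((words n).filter (fun l => (D : ℤ) ≤ |π (ev l) z - z|)).card : ℝ) / 5 ^ n)
      = ∑ y ∈ I, p y * F y := by
    have h2 : (((words n).filter (fun l => (D : ℤ) ≤ |π (ev l) z - z|)).card : ℝ)
        = ∑ l ∈ words n, F (π (ev l) z) := by
      rw [Finset.card_filter]
      push_cast
      rfl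
    have h3 := tail_words π F n z
    have h4 := tail_adj_iter π n (f := Pi.single z 1) (g := F) (tail_single_fin z)
    have h5 : ∑' y, (Pi.single z (1 : ℝ) : ℤ → ℝ) y * (avg π)^[n] F y = (avg π)^[n] F z := by
      rw [tsum_eq_single z]
      · rw [Pi.single_eq_same, one_mul]
      · intro y hy
        rw [Pi.single_eq_of_ne hy, zero_mul]
    have h6 : ∑' y, p y * F y = ∑ y ∈ I, p y * F y := by
      apply tsum_eq_sum
      intro y hy
      have : p y = 0 := by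
        by_contra hne
        apply hy
        have h7 := tail_supp_iter hπ z n y hne
        rw [abs_le] at h7
        rw [hI, Finset.mem_Icc]
        constructor <;> linarith [h7.1, h7.2]
      rw [this, zero_mul]
    rw [h2, h3, ← h6, h4, h5]
    field_simp
  have hcard : (I.card : ℝ) = 2 * n * r + 1 := by
    rw [hI, Int.card_Icc]
    have h1 : (z + n * r + 1 - (z - n * r)) = ((2 * n * r + 1 : ℕ) : ℤ) := by
      push_cast
      ring
    rw [h1, Int.toNat_natCast]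
    push_cast
    ring
  -- weights
  set W : ℤ → ℝ := fun y => Real.exp (lam * |((y - z : ℤ) : ℝ)|) with hW
  set δ : ℝ := Real.exp (lam * r) - 1 with hδ
  have hWpos : ∀ y, 0 < W y := fun y => Real.exp_pos _
  have hWd : ∀ m k : ℤ, |m - k| ≤ r → W m - W k ≤ δ * W k := by
    intro m k hmk
    have h2 : W m ≤ Real.exp (lam * r) * W k := by
      rw [hW]
      simp only
      rw [← Real.exp_add]
      apply Real.exp_le_exp.2
      rw [← mul_add]
      apply mul_le_mul_of_nonneg_left _ h0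
      have h3 : (|m - k| : ℝ) ≤ r := by exact_mod_cast hmk
      have h4 : ((m - z : ℤ) : ℝ) = ((m : ℝ) - k) + ((k - z : ℤ) : ℝ) := by
        push_cast
        ring
      rw [h4]
      exact (abs_add_le _ _).trans (add_le_add h3 le_rfl)
    rw [hδ]
    linarith
  have hw := tail_weight r π hweighted W δ hWpos hWd z n
  have hWz : W z = 1 := by
    rw [hW]
    simp
  rw [hWz, mul_one] at hw
  have hw2 : ∑' y, W y * (p y) ^ 2 = ∑ y ∈ I, W y * (p y) ^ 2 := by
    apply tsum_eq_sum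
    intro y hy
    have : p y = 0 := by
      by_contra hne
      apply hy
      have h7 := tail_supp_iter hπ z n y hne
      rw [abs_le] at h7
      rw [hI, Finset.mem_Icc]
      constructor <;> linarith [h7.1, h7.2]
    rw [this]
    simp
  have hw3 : ∑ y ∈ I, W y * (p y) ^ 2 ≤ (1 + δ ^ 2) ^ n := by
    rw [← hw2]
    exact hw
  have hlr : 0 ≤ lam * r := by positivity
  have hδ0 : 0 ≤ δ := by
    rw [hδ]
    have := Real.one_le_exp hlr
    linarith
  have hδ1 : δ ≤ 2 * (lam * r) := by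
    have h2 := Real.abs_exp_sub_one_le (x := lam * r) (by rw [abs_of_nonneg hlr]; exact h1)
    rw [abs_of_nonneg hlr] at h2
    exact (le_abs_self _).trans h2
  have hδ2 : (1 + δ ^ 2) ^ n ≤ Real.exp (4 * lam ^ 2 * r ^ 2 * n) := by
    have h2 : 1 + δ ^ 2 ≤ Real.exp (δ ^ 2) := by
      have := Real.add_one_le_exp (δ ^ 2)
      linarith
    have h3 : δ ^ 2 ≤ 4 * lam ^ 2 * r ^ 2 := by
      calc δ ^ 2 ≤ (2 * (lam * r)) ^ 2 := pow_le_pow_left₀ hδ0 hδ1 2
        _ = _ := by ring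
    calc (1 + δ ^ 2) ^ n ≤ (Real.exp (δ ^ 2)) ^ n := pow_le_pow_left₀ (by positivity) h2 n
      _ = Real.exp (n * δ ^ 2) := (Real.exp_nat_mul _ _).symm
      _ ≤ Real.exp (4 * lam ^ 2 * r ^ 2 * n) := by
        apply Real.exp_le_exp.2
        rw [mul_comm]
        exact mul_le_mul_of_nonneg_right h3 (Nat.cast_nonneg n)
  rw [hcount]
  have hstep : ∀ y ∈ I, (p y * F y) ^ 2 ≤ Real.exp (-lam * D) * (W y * (p y) ^ 2) := by
    intro y _
    by_cases hy : (D : ℤ) ≤ |y - z|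
    · have h2 : F y = 1 := by
        rw [hF]
        simp only
        rw [if_pos hy]
      rw [h2, mul_one, ← mul_assoc]
      have h3 : 1 ≤ Real.exp (-lam * D) * W y := by
        rw [hW]
        simp only
        rw [← Real.exp_add]
        apply Real.one_le_exp
        have h4 : (D : ℝ) ≤ |((y - z : ℤ) : ℝ)| := by exact_mod_cast hy
        have h5 := mul_le_mul_of_nonneg_left h4 h0
        linarith
      calc (p y) ^ 2 = 1 * (p y) ^ 2 := (one_mul _).symm
        _ ≤ _ := mul_le_mul_of_nonneg_right h3 (sq_nonneg _)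
    · have h2 : F y = 0 := by
        rw [hF]
        simp only
        rw [if_neg hy]
      rw [h2, mul_zero]
      have h3 : 0 ≤ Real.exp (-lam * D) * (W y * (p y) ^ 2) := by positivity
      simpa using h3
  calc (∑ y ∈ I, p y * F y) ^ 2 ≤ (I.card : ℝ) * ∑ y ∈ I, (p y * F y) ^ 2 :=
        sq_sum_le_card_mul_sum_sq
    _ ≤ (I.card : ℝ) * ∑ y ∈ I, Real.exp (-lam * D) * (W y * (p y) ^ 2) :=
        mul_le_mul_of_nonneg_left (Finset.sum_le_sum hstep) (Nat.cast_nonneg _)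
    _ = (2 * n * r + 1) * (Real.exp (-lam * D) * ∑ y ∈ I, W y * (p y) ^ 2) := by
        rw [← Finset.mul_sum, hcard]
    _ ≤ (2 * n * r + 1) * (Real.exp (-lam * D) * Real.exp (4 * lam ^ 2 * r ^ 2 * n)) := by
        apply mul_le_mul_of_nonneg_left _ (by positivity)
        exact mul_le_mul_of_nonneg_left (hw3.trans hδ2) (Real.exp_pos _).le
    _ = _ := by rw [← Real.exp_add]

/-- the same with parameters chosen -/
theorem tail_eventually (r : ℕ)
    (htail : ∀ (π : F2 →* Equiv.Perm ℤ), Disp r π → ∀ (lam : ℝ), 0 ≤ lam → lam * r ≤ 1 →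
      ∀ (n D : ℕ) (z : ℤ),
      ((((words n).filter (fun l => (D : ℤ) ≤ |π (ev l) z - z|)).card : ℝ) / 5 ^ n) ^ 2 ≤
      (2 * n * r + 1) * Real.exp (-lam * D + 4 * lam ^ 2 * r ^ 2 * n))
    (ε : ℝ) (hε : 0 < ε) :
    ∀ᶠ j : ℕ in Filter.atTop, ∀ n ≤ j ^ 4, ∀ (π : F2 →* Equiv.Perm ℤ), Disp r π → ∀ z : ℤ,
      (((words n).filter (fun l => ((j ^ 3 : ℕ) : ℤ) ≤ |π (ev l) z - z|)).card : ℝ) ≤
        ε / ((j : ℝ) ^ 4 + 1) ^ 2 * 5 ^ n := by
  set c : ℝ := 1 / (16 * ((r : ℝ) + 1) ^ 2) with hc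
  have hcpos : 0 < c := by rw [hc]; positivity
  set B : ℝ := 32 * (2 * r + 1) / c ^ 10 with hB
  have hBpos : 0 < B := by rw [hB]; positivity
  have hx : Filter.Tendsto (fun j : ℕ => c * (j : ℝ) ^ 2) Filter.atTop Filter.atTop :=
    Filter.Tendsto.const_mul_atTop hcpos
      ((Filter.tendsto_pow_atTop two_ne_zero).comp tendsto_natCast_atTop_atTop)
  have h1 := (Real.tendsto_pow_mul_exp_neg_atTop_nhds_zero 10).comp hx
  have h2 : ∀ᶠ j : ℕ in Filter.atTop,
      ((fun x : ℝ => x ^ 10 * Real.exp (-x)) ∘ fun j : ℕ => c * (j : ℝ) ^ 2) j < ε ^ 2 / B :=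
    h1.eventually (gt_mem_nhds (by positivity))
  filter_upwards [h2, Filter.eventually_ge_atTop 1] with j hj hj1 n hn π hπ z
  have hj' : (c * (j : ℝ) ^ 2) ^ 10 * Real.exp (-(c * (j : ℝ) ^ 2)) < ε ^ 2 / B := hj
  have hjR : (1 : ℝ) ≤ j := by exact_mod_cast hj1
  have hjpos : (0 : ℝ) < j := by linarith
  have hnR : (n : ℝ) ≤ (j : ℝ) ^ 4 := by exact_mod_cast hn
  obtain ⟨lam, hlam⟩ : ∃ lam : ℝ, lam = 1 / (8 * ((r : ℝ) + 1) ^ 2 * j) := ⟨_, rfl⟩
  have hr0 : (0 : ℝ) ≤ r := Nat.cast_nonneg r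
  have hlam0 : 0 ≤ lam := by rw [hlam]; positivity
  have hlam1 : lam * r ≤ 1 := by
    rw [hlam, one_div, inv_mul_le_iff₀ (by positivity)]
    nlinarith [mul_nonneg hr0 hjpos.le, mul_nonneg (mul_nonneg hr0 hr0) hjpos.le,
      mul_le_mul_of_nonneg_left hjR hr0]
  have hmain := htail π hπ lam hlam0 hlam1 n (j ^ 3) z
  -- the exponent
  have hexp : -lam * ((j ^ 3 : ℕ) : ℝ) + 4 * lam ^ 2 * r ^ 2 * n ≤ -(c * (j : ℝ) ^ 2) := by
    have h3 : 4 * lam ^ 2 * r ^ 2 * n ≤ 4 * lam ^ 2 * r ^ 2 * (j : ℝ) ^ 4 :=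
      mul_le_mul_of_nonneg_left hnR (by positivity)
    have h4 : -lam * ((j ^ 3 : ℕ) : ℝ) = -(2 * (c * (j : ℝ) ^ 2)) := by
      rw [hlam, hc]
      push_cast
      field_simp
      ring
    have h5 : 4 * lam ^ 2 * r ^ 2 * (j : ℝ) ^ 4 ≤ c * (j : ℝ) ^ 2 := by
      have h6 : 4 * lam ^ 2 * r ^ 2 * (j : ℝ) ^ 4
          = (c * (j : ℝ) ^ 2) * ((r : ℝ) ^ 2 / ((r : ℝ) + 1) ^ 2) := by
        rw [hlam, hc]
        field_simp
        ring
      rw [h6]
      have h7 : (r : ℝ) ^ 2 / ((r : ℝ) + 1) ^ 2 ≤ 1 := by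
        rw [div_le_one (by positivity)]
        nlinarith
      calc (c * (j : ℝ) ^ 2) * ((r : ℝ) ^ 2 / ((r : ℝ) + 1) ^ 2)
          ≤ (c * (j : ℝ) ^ 2) * 1 := mul_le_mul_of_nonneg_left h7 (by positivity)
        _ = _ := mul_one _
    rw [h4]
    linarith
  -- the polynomial factor
  have hpoly : (2 * n * r + 1 : ℝ) * ((j : ℝ) ^ 4 + 1) ^ 4 ≤ B * (c * (j : ℝ) ^ 2) ^ 10 := by
    have h3 : (2 * n * r + 1 : ℝ) ≤ (2 * r + 1) * (j : ℝ) ^ 4 := by
      have h4 : (1 : ℝ) ≤ (j : ℝ) ^ 4 := one_le_pow₀ hjR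
      nlinarith [mul_le_mul_of_nonneg_right hnR hr0]
    have h4 : (j : ℝ) ^ 4 + 1 ≤ 2 * (j : ℝ) ^ 4 := by
      have h4 : (1 : ℝ) ≤ (j : ℝ) ^ 4 := one_le_pow₀ hjR
      linarith
    have h5 : ((j : ℝ) ^ 4 + 1) ^ 4 ≤ (2 * (j : ℝ) ^ 4) ^ 4 :=
      pow_le_pow_left₀ (by positivity) h4 4
    calc (2 * n * r + 1 : ℝ) * ((j : ℝ) ^ 4 + 1) ^ 4
        ≤ ((2 * r + 1) * (j : ℝ) ^ 4) * (2 * (j : ℝ) ^ 4) ^ 4 :=
          mul_le_mul h3 h5 (by positivity) (by positivity)
      _ = 16 * (2 * r + 1) * (j : ℝ) ^ 20 := by ring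
      _ ≤ 32 * (2 * r + 1) * (j : ℝ) ^ 20 := by
          apply mul_le_mul_of_nonneg_right _ (by positivity)
          linarith
      _ = B * (c * (j : ℝ) ^ 2) ^ 10 := by
          rw [hB]
          field_simp
  have hsq : ((((words n).filter (fun l => ((j ^ 3 : ℕ) : ℤ) ≤ |π (ev l) z - z|)).card : ℝ)
      / 5 ^ n) ^ 2 ≤ (ε / ((j : ℝ) ^ 4 + 1) ^ 2) ^ 2 := by
    refine hmain.trans ?_
    rw [div_pow, le_div_iff₀ (by positivity)]
    calc (2 * n * r + 1 : ℝ) * Real.exp (-lam * ((j ^ 3 : ℕ) : ℝ) + 4 * lam ^ 2 * r ^ 2 * n)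
          * (((j : ℝ) ^ 4 + 1) ^ 2) ^ 2
        = ((2 * n * r + 1 : ℝ) * ((j : ℝ) ^ 4 + 1) ^ 4)
          * Real.exp (-lam * ((j ^ 3 : ℕ) : ℝ) + 4 * lam ^ 2 * r ^ 2 * n) := by ring
      _ ≤ (B * (c * (j : ℝ) ^ 2) ^ 10) * Real.exp (-(c * (j : ℝ) ^ 2)) :=
          mul_le_mul hpoly (Real.exp_le_exp.2 hexp) (Real.exp_pos _).le (by positivity)
      _ = B * ((c * (j : ℝ) ^ 2) ^ 10 * Real.exp (-(c * (j : ℝ) ^ 2))) := by ring
      _ ≤ B * (ε ^ 2 / B) := mul_le_mul_of_nonneg_left hj'.le hBpos.le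
      _ = ε ^ 2 := by field_simp
  have hle := (pow_le_pow_iff_left₀ (by positivity) (by positivity) two_ne_zero).1 hsq
  rw [div_le_iff₀ (by positivity)] at hle
  exact hle

end JD2

end Pool.Agent.Helper894.FS
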