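import Pool.Agent.Helper894.FS.Defs

namespace Pool.Agent.Helper894.FS

namespace JD3

open scoped BigOperators



/-! auxiliary lemmas for `tv` -/

def tvInv : Lt → Lt := Option.map (fun p => (p.1, !p.2))

theorem tv_lt_inv (s : Lt) : lt (tvInv s) = (lt s)⁻¹ := by
  rcases s with _ | ⟨x, b⟩
  · simp [tvInv, lt]
  · simp [tvInv, lt, FreeGroup.inv_mk, FreeGroup.invRev]

theorem tv_inv_inv (s : Lt) : tvInv (tvInv s) = s := by
  rcases s with _ | ⟨x, b⟩ <;> simp [tvInv]

def tvInvEquiv : Lt ≃ Lt := ⟨tvInv, tvInv, tv_inv_inv, tv_inv_inv⟩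

theorem tv_pi_inv (π : F2 →* Equiv.Perm ℤ) (s : Lt) (y : ℤ) :
    π (lt s) (π (lt (tvInv s)) y) = y := by
  rw [tv_lt_inv, ← Equiv.Perm.mul_apply, ← map_mul]; simp

theorem tv_pi_inv' (π : F2 →* Equiv.Perm ℤ) (s : Lt) (y : ℤ) :
    π (lt (tvInv s)) (π (lt s) y) = y := by
  rw [tv_lt_inv, ← Equiv.Perm.mul_apply, ← map_mul]; simp

theorem tv_comp_supp {f : ℤ → ℝ} (e : Equiv.Perm ℤ) (hf : (Function.support f).Finite) :
    (Function.support (fun y => f (e y))).Finite := by
  have : Function.support (fun y => f (e y)) = e ⁻¹' (Function.support f) := rfl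
  rw [this]
  exact hf.preimage (e.injective.injOn)

theorem tv_avg_supp (π : F2 →* Equiv.Perm ℤ) {f : ℤ → ℝ} (hf : (Function.support f).Finite) :
    (Function.support (avg π f)).Finite := by
  have : Function.support (avg π f) ⊆ ⋃ s : Lt, Function.support (fun y => f (π (lt s) y)) := by
    intro y hy
    by_contra hc
    simp only [Set.mem_iUnion, Function.mem_support, not_exists, not_not] at hc
    exact hy (by simp [avg, hc])
  exact (Set.finite_iUnion fun s => tv_comp_supp _ hf).subset this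

theorem tv_summable {f : ℤ → ℝ} (hf : (Function.support f).Finite) (g : ℤ → ℝ) :
    Summable (fun y => f y * g y) :=
  summable_of_hasFiniteSupport (hf.subset fun y hy => by
    simp only [Function.mem_support, ne_eq, mul_eq_zero, not_or] at hy ⊢
    exact hy.1)

theorem tv_avg_adj (π : F2 →* Equiv.Perm ℤ) {f : ℤ → ℝ} (hf : (Function.support f).Finite)
    (g : ℤ → ℝ) : ∑' y, avg π f y * g y = ∑' y, f y * avg π g y := by
  have h1 : ∀ y, avg π f y * g y = (1 / 5) * ∑ s : Lt, f (π (lt s) y) * g y := by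
    intro y; simp only [avg, Finset.sum_mul, mul_assoc]
  have h2 : ∀ y, f y * avg π g y = (1 / 5) * ∑ s : Lt, f y * g (π (lt s) y) := by
    intro y; simp only [avg, Finset.mul_sum]
    exact Finset.sum_congr rfl fun s _ => by ring
  simp_rw [h1, h2]
  rw [tsum_mul_left, tsum_mul_left]
  congr 1
  rw [Summable.tsum_finsetSum (fun s _ => tv_summable (tv_comp_supp (π (lt s)) hf) g),
    Summable.tsum_finsetSum (fun s _ => tv_summable hf (fun y => g (π (lt s) y)))]
  rw [← Equiv.sum_comp tvInvEquiv]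
  refine Finset.sum_congr rfl fun s _ => ?_
  rw [← Equiv.tsum_eq (π (lt s))]
  refine tsum_congr fun y => ?_
  simp only [tvInvEquiv, Equiv.coe_fn_mk, tv_pi_inv']

theorem tv_words (π : F2 →* Equiv.Perm ℤ) (G : ℤ → ℝ) (n : ℕ) : ∀ z : ℤ,
    ∑ l ∈ words n, G (π (ev l) z) = 5 ^ n * ((avg π)^[n] G) z := by
  induction n with
  | zero => intro z; simp [words, ev]
  | succ n ih =>
    intro z
    rw [words, Finset.sum_map, Finset.sum_product, Function.iterate_succ_apply']
    simp only [Function.Embedding.coeFn_mk, ev, map_mul, Equiv.Perm.mul_apply]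
    simp_rw [ih]
    rw [avg, ← Finset.mul_sum]
    ring


noncomputable def tvp (π : F2 →* Equiv.Perm ℤ) (z : ℤ) (n : ℕ) : ℤ → ℝ :=
  (avg π)^[n] (Pi.single z 1)

theorem tvp_succ (π : F2 →* Equiv.Perm ℤ) (z : ℤ) (n : ℕ) :
    tvp π z (n + 1) = avg π (tvp π z n) := Function.iterate_succ_apply' _ _ _

theorem tvp_supp (π : F2 →* Equiv.Perm ℤ) (z : ℤ) (n : ℕ) :
    (Function.support (tvp π z n)).Finite := by
  induction n with
  | zero =>
    refine (Set.finite_singleton z).subset fun y hy => ?_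
    by_contra hc
    exact hy (by simp [tvp, Pi.single_apply, Set.mem_singleton_iff.not.1 hc])
  | succ n ih => rw [tvp_succ]; exact tv_avg_supp π ih

theorem tvp_nonneg (π : F2 →* Equiv.Perm ℤ) (z : ℤ) (n : ℕ) : ∀ y, 0 ≤ tvp π z n y := by
  induction n with
  | zero =>
    intro y
    simp only [tvp, Function.iterate_zero, id, Pi.single_apply]
    split_ifs <;> norm_num
  | succ n ih =>
    intro y
    rw [tvp_succ, avg]
    exact mul_nonneg (by norm_num) (Finset.sum_nonneg fun s _ => ih _)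

theorem tvp_dual (π : F2 →* Equiv.Perm ℤ) (z : ℤ) (n : ℕ) : ∀ G : ℤ → ℝ,
    ((avg π)^[n] G) z = ∑' y, tvp π z n y * G y := by
  induction n with
  | zero =>
    intro G
    rw [tsum_eq_single z]
    · simp [tvp]
    · intro y hy; simp [tvp, Pi.single_apply, hy]
  | succ n ih =>
    intro G
    rw [Function.iterate_succ_apply, ih, tvp_succ, tv_avg_adj π (tvp_supp π z n)]

theorem tvp_diff (π : F2 →* Equiv.Perm ℤ) (z : ℤ) (n : ℕ) (F : ℤ → ℝ) (s : Lt) :
    ((avg π)^[n] (fun y => F y - F (π (lt s) y))) z =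
      ∑' y, (tvp π z n y - tvp π z n (π (lt (tvInv s)) y)) * F y := by
  rw [tvp_dual]
  have hs := tvp_supp π z n
  have e1 : ∀ y, tvp π z n y * (F y - F (π (lt s) y)) =
      tvp π z n y * F y - tvp π z n y * F (π (lt s) y) := fun y => by ring
  have e2 : ∀ y, (tvp π z n y - tvp π z n (π (lt (tvInv s)) y)) * F y =
      tvp π z n y * F y - tvp π z n (π (lt (tvInv s)) y) * F y := fun y => by ring
  simp_rw [e1, e2]
  rw [Summable.tsum_sub (tv_summable hs _) (tv_summable hs _),
    Summable.tsum_sub (tv_summable hs _) (tv_summable (tv_comp_supp (π (lt (tvInv s))) hs) _)]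
  congr 1
  rw [← Equiv.tsum_eq (π (lt s)) (fun y => tvp π z n (π (lt (tvInv s)) y) * F y)]
  simp only [tv_pi_inv']

theorem tvp_far (π : F2 →* Equiv.Perm ℤ) (z : ℤ) (n : ℕ) (R : ℤ) :
    (((words n).filter (fun l => R ≤ |π (ev l) z - z|)).card : ℝ) =
      5 ^ n * ∑' y, tvp π z n y * (if R ≤ |y - z| then 1 else 0) := by
  rw [← tvp_dual, ← tv_words]
  simp

theorem tv_supp_sub {f : ℤ → ℝ} (hf : (Function.support f).Finite) (e : Equiv.Perm ℤ) :
    (Function.support (fun y => f y - f (e y))).Finite := by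
  refine (hf.union (tv_comp_supp e hf)).subset fun y hy => ?_
  by_contra hc
  simp only [Set.mem_union, Function.mem_support, not_or, not_not] at hc
  exact hy (by simp [hc.1, hc.2])

theorem tv_summable' {f : ℤ → ℝ} (hf : (Function.support f).Finite) : Summable f :=
  summable_of_hasFiniteSupport hf

/-- the one-step bound -/
theorem tv_step (r : ℕ) (π : F2 →* Equiv.Perm ℤ) (hπ : Disp r π) (F : ℤ → ℝ)
    (hF : ∀ y, |F y| ≤ 1) (s : Lt) (z : ℤ) (n : ℕ) (R : ℤ) (δ : ℝ)
    (hfar : ∑' y, tvp π z n y * (if R ≤ |y - z| then 1 else 0) ≤ δ) :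
    |((avg π)^[n] (fun y => F y - F (π (lt s) y))) z| ≤
      (∑ y ∈ Finset.Ioo (z - (R + r)) (z + (R + r)),
        |tvp π z n y - tvp π z n (π (lt (tvInv s)) y)|) + 2 * δ := by
  classical
  set e : Equiv.Perm ℤ := π (lt (tvInv s)) with he
  set p := tvp π z n with hp
  have hs : (Function.support p).Finite := tvp_supp π z n
  have hdisp : ∀ y, |e y - y| ≤ r := by
    intro y
    rcases s with _ | ⟨x, b⟩
    · have : e y = y := by simp [he, tvInv, lt]
      rw [this]; simp
    · have h1 : ∀ (x : Bool) (b : Bool) (y : ℤ), |π (FreeGroup.mk [(x, b)]) y - y| ≤ r := by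
        intro x b y
        cases b
        · have h2 : FreeGroup.mk [(x, false)] = (FreeGroup.of x)⁻¹ := by
            simp [FreeGroup.of, FreeGroup.inv_mk, FreeGroup.invRev]
          have h3 := hπ x (π (FreeGroup.of x)⁻¹ y)
          rw [← Equiv.Perm.mul_apply, ← map_mul, mul_inv_cancel, map_one, Equiv.Perm.one_apply,
            abs_sub_comm] at h3
          rw [h2]; exact h3
        · exact hπ x y
      exact h1 x (!b) y
  rw [tvp_diff]
  have hsd : (Function.support (fun y => p y - p (e y))).Finite := tv_supp_sub hs e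
  have hsabs : (Function.support (fun y => |p y - p (e y)|)).Finite := by
    refine hsd.subset fun y hy => ?_
    simpa using hy
  have h1 : |∑' y, (p y - p (e y)) * F y| ≤ ∑' y, |p y - p (e y)| := by
    have h0 : Summable (fun y => ‖(p y - p (e y)) * F y‖) := by
      refine tv_summable' (hsd.subset fun y hy => ?_)
      simp only [Function.mem_support, ne_eq, norm_eq_zero, mul_eq_zero, not_or] at hy ⊢
      exact hy.1
    have h2 := norm_tsum_le_tsum_norm h0
    rw [Real.norm_eq_abs] at h2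
    refine h2.trans (Summable.tsum_le_tsum (fun y => ?_) h0 (tv_summable' hsabs))
    rw [Real.norm_eq_abs, abs_mul]
    exact mul_le_of_le_one_right (abs_nonneg _) (hF y)
  refine h1.trans ?_
  set h : ℤ → ℝ := fun y => p y * (if R ≤ |y - z| then 1 else 0) with hh
  have hhs : (Function.support h).Finite := by
    refine hs.subset fun y hy => ?_
    simp only [hh, Function.mem_support, ne_eq, mul_eq_zero, not_or] at hy ⊢
    exact hy.1
  have hp0 : ∀ y, 0 ≤ p y := tvp_nonneg π z n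
  have hh0 : ∀ y, 0 ≤ h y := fun y => mul_nonneg (hp0 y) (by split_ifs <;> norm_num)
  set B : Finset ℤ := Finset.Ioo (z - (R + r)) (z + (R + r)) with hB
  have hpt : ∀ y, |p y - p (e y)| ≤ (if y ∈ B then |p y - p (e y)| else 0) + (h y + h (e y)) := by
    intro y
    by_cases hy : y ∈ B
    · simp only [hy, if_true]
      have := hh0 y; have := hh0 (e y); linarith
    · simp only [hy, if_false, zero_add]
      have hy' : R + r ≤ |y - z| := by
        by_contra hc
        push Not at hc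
        rw [abs_lt] at hc
        exact hy (by rw [hB, Finset.mem_Ioo]; constructor <;> linarith)
      have hy1 : R ≤ |y - z| := by
        have : (0 : ℤ) ≤ r := Int.natCast_nonneg r
        linarith
      have hy2 : R ≤ |e y - z| := by
        have h3 := abs_sub_abs_le_abs_sub (y - z) (e y - z)
        have h4 : |y - z - (e y - z)| = |e y - y| := by
          rw [abs_sub_comm]; congr 1; ring
        have := hdisp y
        linarith
      simp only [hh, hy1, hy2, if_true, mul_one]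
      rw [abs_le]
      constructor <;> linarith [hp0 y, hp0 (e y)]
  have hsB : (Function.support (fun y => if y ∈ B then |p y - p (e y)| else 0)).Finite := by
    refine hsabs.subset fun y hy => ?_
    by_contra hc
    simp only [Function.mem_support, not_not] at hc
    exact hy (by simp [hc])
  have hsum : ∑' y, |p y - p (e y)| ≤
      ∑' y, ((if y ∈ B then |p y - p (e y)| else 0) + (h y + h (e y))) :=
    Summable.tsum_le_tsum hpt (tv_summable' hsabs)
      ((tv_summable' hsB).add ((tv_summable' hhs).add (tv_summable' (tv_comp_supp e hhs))))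
  refine hsum.trans ?_
  rw [Summable.tsum_add (tv_summable' hsB)
      ((tv_summable' hhs).add (tv_summable' (tv_comp_supp e hhs))),
    Summable.tsum_add (tv_summable' hhs) (tv_summable' (tv_comp_supp e hhs)),
    Equiv.tsum_eq e h]
  have hB' : ∑' y, (if y ∈ B then |p y - p (e y)| else 0) = ∑ y ∈ B, |p y - p (e y)| := by
    rw [tsum_eq_sum (s := B)]
    · exact Finset.sum_congr rfl fun y hy => by simp [hy]
    · intro y hy; simp [hy]
  rw [hB']
  linarith

/-- energy telescoping -/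
theorem tv_energy
    (henergy : ∀ (π : F2 →* Equiv.Perm ℤ) (f : ℤ → ℝ), (Function.support f).Finite →
      ∑' n, (avg π f n) ^ 2 + (1 / 25) * ∑ s : Lt, ∑' n, (f n - f (π (lt s) n)) ^ 2
      ≤ ∑' n, (f n) ^ 2)
    (π : F2 →* Equiv.Perm ℤ) (z : ℤ) (s : Lt) (B : Finset ℤ) (N : ℕ) :
    ∑ n ∈ Finset.range N, ∑ y ∈ B, (tvp π z n y - tvp π z n (π (lt s) y)) ^ 2 ≤ 25 := by
  have key : ∀ N : ℕ, (1 / 25) * ∑ n ∈ Finset.range N, ∑ y ∈ B,
      (tvp π z n y - tvp π z n (π (lt s) y)) ^ 2 ≤ 1 - ∑' y, (tvp π z N y) ^ 2 := by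
    intro N
    induction N with
    | zero =>
      have : ∑' y, (tvp π z 0 y) ^ 2 = 1 := by
        rw [tsum_eq_single z]
        · simp [tvp]
        · intro y hy; simp [tvp, Pi.single_apply, hy]
      rw [this]; simp
    | succ N ih =>
      rw [Finset.sum_range_succ, mul_add]
      have h1 := henergy π (tvp π z N) (tvp_supp π z N)
      rw [← tvp_succ] at h1
      have h2 : ∑ y ∈ B, (tvp π z N y - tvp π z N (π (lt s) y)) ^ 2 ≤
          ∑ s : Lt, ∑' n, (tvp π z N n - tvp π z N (π (lt s) n)) ^ 2 := by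
        have hs2 : ∀ s : Lt, Summable (fun y => (tvp π z N y - tvp π z N (π (lt s) y)) ^ 2) := by
          intro s
          refine tv_summable' ((tv_supp_sub (tvp_supp π z N) (π (lt s))).subset fun y hy => ?_)
          simpa using hy
        have h3 : ∑ y ∈ B, (tvp π z N y - tvp π z N (π (lt s) y)) ^ 2 ≤
            ∑' n, (tvp π z N n - tvp π z N (π (lt s) n)) ^ 2 :=
          (hs2 s).sum_le_tsum _ (fun y _ => sq_nonneg _)
        refine h3.trans ?_
        exact Finset.single_le_sum (f := fun s : Lt =>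
          ∑' n, (tvp π z N n - tvp π z N (π (lt s) n)) ^ 2)
          (fun s _ => tsum_nonneg fun y => sq_nonneg _) (Finset.mem_univ s)
      linarith
  have h := key N
  have h0 : 0 ≤ ∑' y, (tvp π z N y) ^ 2 := tsum_nonneg fun y => sq_nonneg _
  linarith

/-- averages along the walk become invariant, uniformly (the energy and tail estimates are
given as hypotheses) -/
theorem tv (r : ℕ)
    (henergy : ∀ (π : F2 →* Equiv.Perm ℤ) (f : ℤ → ℝ), (Function.support f).Finite →
      ∑' n, (avg π f n) ^ 2 + (1 / 25) * ∑ s : Lt, ∑' n, (f n - f (π (lt s) n)) ^ 2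
      ≤ ∑' n, (f n) ^ 2)
    (htail : ∀ ε : ℝ, 0 < ε →
      ∀ᶠ j : ℕ in Filter.atTop, ∀ n ≤ j ^ 4, ∀ (π : F2 →* Equiv.Perm ℤ), Disp r π → ∀ z : ℤ,
      (((words n).filter (fun l => ((j ^ 3 : ℕ) : ℤ) ≤ |π (ev l) z - z|)).card : ℝ) ≤
        ε / ((j : ℝ) ^ 4 + 1) ^ 2 * 5 ^ n)
    (ε : ℝ) (hε : 0 < ε) :
    ∀ᶠ j : ℕ in Filter.atTop, ∀ (π : F2 →* Equiv.Perm ℤ), Disp r π →
      ∀ F : ℤ → ℝ, (∀ y, |F y| ≤ 1) → ∀ (s : Lt) (z : ℤ),
      |(1 / (j : ℝ) ^ 4) * ∑ n ∈ Finset.range (j ^ 4),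
        ((avg π)^[n] (fun y => F y - F (π (lt s) y))) z| ≤ ε := by
  have hε4 : 0 < ε / 4 := by positivity
  have hlarge : ∀ᶠ j : ℕ in Filter.atTop, 100 * (2 * (r : ℝ) + 3) / ε ^ 2 ≤ j :=
    tendsto_natCast_atTop_atTop.eventually_ge_atTop _
  filter_upwards [htail (ε / 4) hε4, hlarge, Filter.eventually_ge_atTop 1] with j hj hjl hj1
  intro π hπ F hF s z
  set N : ℕ := j ^ 4 with hN
  set R : ℤ := ((j ^ 3 : ℕ) : ℤ) with hR
  have hj1' : (1 : ℝ) ≤ j := by exact_mod_cast hj1
  have hN0 : (0 : ℝ) < (j : ℝ) ^ 4 := by positivity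
  have hfar : ∀ n ∈ Finset.range N,
      ∑' y, tvp π z n y * (if R ≤ |y - z| then 1 else 0) ≤ ε / 4 := by
    intro n hn
    have hn' : n ≤ j ^ 4 := (Finset.mem_range.1 hn).le
    have h1 := hj n hn' π hπ z
    rw [tvp_far] at h1
    have h5 : (0 : ℝ) < 5 ^ n := by positivity
    have h2 : ∑' y, tvp π z n y * (if R ≤ |y - z| then 1 else 0) ≤ ε / 4 / ((j : ℝ) ^ 4 + 1) ^ 2 := by
      have : 5 ^ n * ∑' y, tvp π z n y * (if R ≤ |y - z| then 1 else 0) ≤
          5 ^ n * (ε / 4 / ((j : ℝ) ^ 4 + 1) ^ 2) := by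
        rw [mul_comm (5 ^ n : ℝ) (ε / 4 / ((j : ℝ) ^ 4 + 1) ^ 2)]
        exact h1
      exact le_of_mul_le_mul_left this h5
    refine h2.trans (div_le_self hε4.le ?_)
    nlinarith
  set B : Finset ℤ := Finset.Ioo (z - (R + r)) (z + (R + r)) with hB
  set X : ℝ := ∑ n ∈ Finset.range N, ∑ y ∈ B,
    |tvp π z n y - tvp π z n (π (lt (tvInv s)) y)| with hX
  have hbound : |∑ n ∈ Finset.range N, ((avg π)^[n] (fun y => F y - F (π (lt s) y))) z| ≤
      X + 2 * (ε / 4) * N := by
    refine (Finset.abs_sum_le_sum_abs _ _).trans ?_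
    have : ∑ n ∈ Finset.range N, |((avg π)^[n] (fun y => F y - F (π (lt s) y))) z| ≤
        ∑ n ∈ Finset.range N, ((∑ y ∈ B,
          |tvp π z n y - tvp π z n (π (lt (tvInv s)) y)|) + 2 * (ε / 4)) :=
      Finset.sum_le_sum fun n hn => tv_step r π hπ F hF s z n R (ε / 4) (hfar n hn)
    refine this.trans (le_of_eq ?_)
    rw [Finset.sum_add_distrib, Finset.sum_const, Finset.card_range, nsmul_eq_mul]
    ring
  have hXsq : X ^ 2 ≤ (N * B.card) * 25 := by
    have h1 : X = ∑ q ∈ (Finset.range N) ×ˢ B,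
        |tvp π z q.1 q.2 - tvp π z q.1 (π (lt (tvInv s)) q.2)| := by
      rw [Finset.sum_product]
    have h2 := sq_sum_le_card_mul_sum_sq (s := (Finset.range N) ×ˢ B)
      (f := fun q => |tvp π z q.1 q.2 - tvp π z q.1 (π (lt (tvInv s)) q.2)|)
    rw [← h1, Finset.card_product, Finset.card_range] at h2
    refine h2.trans ?_
    push_cast
    refine mul_le_mul_of_nonneg_left ?_ (by positivity)
    simp only [sq_abs]
    rw [Finset.sum_product]
    exact tv_energy henergy π z (tvInv s) B N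
  have hBcard : (B.card : ℝ) ≤ 2 * ((j : ℝ) ^ 3 + r) := by
    have : B.card = (z + (R + r) - (z - (R + r)) - 1).toNat := by rw [hB, Int.card_Ioo]
    have h2 : (B.card : ℤ) ≤ 2 * (R + r) := by
      rw [this]
      have : (0 : ℤ) ≤ 2 * (R + r) := by positivity
      omega
    have h3 : (B.card : ℝ) ≤ ((2 * (R + r) : ℤ) : ℝ) := by exact_mod_cast h2
    refine h3.trans (le_of_eq ?_)
    rw [hR]; push_cast; ring
  have hNr : (N : ℝ) = (j : ℝ) ^ 4 := by rw [hN]; push_cast; ring
  have hBN : 100 * (B.card : ℝ) ≤ ε ^ 2 * (j : ℝ) ^ 4 := by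
    have h1 : 100 * (2 * (r : ℝ) + 3) ≤ ε ^ 2 * j := by
      rw [div_le_iff₀ (by positivity)] at hjl
      linarith
    have hj3 : (1 : ℝ) ≤ (j : ℝ) ^ 3 := one_le_pow₀ hj1'
    have h2 : 2 * ((j : ℝ) ^ 3 + r) ≤ (2 * (r : ℝ) + 3) * (j : ℝ) ^ 3 := by
      have : (r : ℝ) ≤ r * (j : ℝ) ^ 3 := le_mul_of_one_le_right (Nat.cast_nonneg r) hj3
      nlinarith
    calc 100 * (B.card : ℝ) ≤ 100 * ((2 * (r : ℝ) + 3) * (j : ℝ) ^ 3) := by linarith
      _ = (100 * (2 * (r : ℝ) + 3)) * (j : ℝ) ^ 3 := by ring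
      _ ≤ (ε ^ 2 * j) * (j : ℝ) ^ 3 := by gcongr
      _ = ε ^ 2 * (j : ℝ) ^ 4 := by ring
  have hX0 : 0 ≤ X := Finset.sum_nonneg fun n _ => Finset.sum_nonneg fun y _ => abs_nonneg _
  have hXle : X ≤ (j : ℝ) ^ 4 * (ε / 2) := by
    refine abs_le_of_sq_le_sq' ?_ (by positivity) |>.2
    calc X ^ 2 ≤ (N * B.card) * 25 := hXsq
      _ = (j : ℝ) ^ 4 * (100 * (B.card : ℝ)) / 4 := by rw [hNr]; ring
      _ ≤ (j : ℝ) ^ 4 * (ε ^ 2 * (j : ℝ) ^ 4) / 4 := by gcongr
      _ = ((j : ℝ) ^ 4 * (ε / 2)) ^ 2 := by ring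
  rw [abs_mul, abs_of_nonneg (by positivity : (0 : ℝ) ≤ 1 / (j : ℝ) ^ 4), one_div,
    inv_mul_le_iff₀ hN0]
  refine hbound.trans ?_
  rw [hNr]
  linarith

end JD3

end Pool.Agent.Helper894.FS
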