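import Pool.Agent.Helper894.FS.Defs

namespace Pool.Agent.Helper894.FS

namespace JE

open scoped BigOperators



theorem disp_lt8657 {r : ℕ} {π : F2 →* Equiv.Perm ℤ} (hπ : Disp r π) (s : Lt) (n : ℤ) :
    |π (lt s) n - n| ≤ r := by
  rcases s with _ | ⟨x, b⟩
  · simp [lt]
  · cases b
    · have h1 : lt (some (x, false)) = (FreeGroup.of x)⁻¹ := rfl
      rw [h1, map_inv]
      have h2 := hπ x ((π (FreeGroup.of x))⁻¹ n)
      rw [← Equiv.Perm.mul_apply, mul_inv_cancel, Equiv.Perm.one_apply, abs_sub_comm] at h2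
      exact h2
    · exact hπ x n

theorem ev_claim8657 (r D : ℕ) (π : F2 →* Equiv.Perm ℤ) (hπ : Disp r π) (c : ℤ) (l : List Lt)
    (hl : ∀ t, t <:+ l → ∀ z : ℤ, |z - c| ≤ D + r → |π (ev t) z - z| < D) :
    (∀ y, y < c - (D + r) → π (ev l) y < c) ∧ (∀ y, c + (D + r) < y → c < π (ev l) y) := by
  induction l with
  | nil =>
    simp only [ev, map_one, Equiv.Perm.one_apply]
    constructor <;> intro y hy <;> linarith [Int.natCast_nonneg D, Int.natCast_nonneg r]
  | cons s l ih =>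
    obtain ⟨ih1, ih2⟩ := ih fun t ht => hl t (ht.trans (List.suffix_cons s l))
    have hl2 := hl l (List.suffix_cons s l)
    have hr0 := Int.natCast_nonneg r
    have hD0 := Int.natCast_nonneg D
    constructor
    · intro y hy
      have h1 := disp_lt8657 hπ s y
      rw [abs_le] at h1
      simp only [ev, map_mul, Equiv.Perm.mul_apply]
      by_cases h2 : π (lt s) y < c - (D + r)
      · exact ih1 _ h2
      · push Not at h2
        have h3 := hl2 (π (lt s) y) (by rw [abs_le]; constructor <;> linarith)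
        rw [abs_lt] at h3
        linarith
    · intro y hy
      have h1 := disp_lt8657 hπ s y
      rw [abs_le] at h1
      simp only [ev, map_mul, Equiv.Perm.mul_apply]
      by_cases h2 : c + (D + r) < π (lt s) y
      · exact ih2 _ h2
      · push Not at h2
        have h3 := hl2 (π (lt s) y) (by rw [abs_le]; constructor <;> linarith)
        rw [abs_lt] at h3
        linarith

theorem card_words8657 (n : ℕ) : (words n).card = 5 ^ n := by
  induction n with
  | zero => simp [words]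
  | succ n ih =>
    rw [words, Finset.card_map, Finset.card_product, ih, Finset.card_univ]
    have : Fintype.card Lt = 5 := by decide
    rw [this, pow_succ, mul_comm]

open Classical in
noncomputable def bad8657 (π : F2 →* Equiv.Perm ℤ) (I : Finset ℤ) (D : ℤ) (n : ℕ) :
    Finset (List Lt) :=
  (words n).filter (fun l => ∃ t, t <:+ l ∧ ∃ z ∈ I, D ≤ |π (ev t) z - z|)

theorem mem_bad8657 (π : F2 →* Equiv.Perm ℤ) (I : Finset ℤ) (D : ℤ) (n : ℕ) (l : List Lt) :
    l ∈ bad8657 π I D n ↔ l ∈ words n ∧ ∃ t, t <:+ l ∧ ∃ z ∈ I, D ≤ |π (ev t) z - z| := by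
  classical
  unfold bad8657
  exact Finset.mem_filter

theorem bad_card8657 (π : F2 →* Equiv.Perm ℤ) (I : Finset ℤ) (D : ℤ) (N : ℕ) (β : ℝ)
    (hb : ∀ n ≤ N, ∀ z : ℤ,
      (((words n).filter (fun l => D ≤ |π (ev l) z - z|)).card : ℝ) ≤ β * 5 ^ n) (n : ℕ)
    (hn : n ≤ N) :
    ((bad8657 π I D n).card : ℝ) ≤ (n + 1) * I.card * β * 5 ^ n := by
  classical
  have htop : ∀ n ≤ N, ((I.biUnion
      (fun z => (words n).filter (fun l => D ≤ |π (ev l) z - z|))).card : ℝ) ≤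
      I.card * (β * 5 ^ n) := by
    intro n hn
    have h1 : (I.biUnion (fun z => (words n).filter (fun l => D ≤ |π (ev l) z - z|))).card ≤
      ∑ z ∈ I, ((words n).filter (fun l => D ≤ |π (ev l) z - z|)).card := Finset.card_biUnion_le
    calc ((I.biUnion (fun z => (words n).filter (fun l => D ≤ |π (ev l) z - z|))).card : ℝ)
        ≤ ((∑ z ∈ I, ((words n).filter (fun l => D ≤ |π (ev l) z - z|)).card : ℕ) : ℝ) := by
          exact_mod_cast h1
      _ = ∑ z ∈ I, (((words n).filter (fun l => D ≤ |π (ev l) z - z|)).card : ℝ) := by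
          push_cast; rfl
      _ ≤ ∑ z ∈ I, β * 5 ^ n := Finset.sum_le_sum fun z _ => hb n hn z
      _ = _ := by rw [Finset.sum_const, nsmul_eq_mul]
  induction n with
  | zero =>
    have h1 : bad8657 π I D 0 ⊆
        I.biUnion (fun z => (words 0).filter (fun l => D ≤ |π (ev l) z - z|)) := by
      intro l hl
      unfold bad8657 at hl
      rw [Finset.mem_filter] at hl
      obtain ⟨h1, t, ht, z, hz, h2⟩ := hl
      have h3 : l = [] := by simpa [words] using h1
      subst h3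
      have h4 : t = [] := List.suffix_nil.mp ht
      subst h4
      rw [Finset.mem_biUnion]
      exact ⟨z, hz, Finset.mem_filter.mpr ⟨h1, h2⟩⟩
    have h2 := htop 0 hn
    refine ((Nat.cast_le (α := ℝ)).mpr (Finset.card_le_card h1)).trans (h2.trans (le_of_eq ?_))
    push_cast
    ring
  | succ n ih =>
    have ih' := ih (by omega)
    have h1 : bad8657 π I D (n + 1) ⊆
        (Finset.univ ×ˢ bad8657 π I D n).image (fun p : Lt × List Lt => p.1 :: p.2) ∪
        I.biUnion (fun z => (words (n + 1)).filter (fun l => D ≤ |π (ev l) z - z|)) := by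
      intro l hl
      unfold bad8657 at hl
      rw [Finset.mem_filter] at hl
      obtain ⟨h1, t, ht, z, hz, h2⟩ := hl
      have h1' := h1
      rw [words, Finset.mem_map] at h1'
      obtain ⟨⟨s, l'⟩, h3, h4⟩ := h1'
      rw [Finset.mem_product] at h3
      have h5 : l = s :: l' := h4.symm
      rw [h5] at ht
      rcases List.suffix_cons_iff.mp ht with h6 | h6
      · rw [Finset.mem_union]
        right
        rw [Finset.mem_biUnion]
        refine ⟨z, hz, Finset.mem_filter.mpr ⟨h1, ?_⟩⟩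
        rw [h5, ← h6]
        exact h2
      · rw [Finset.mem_union]
        left
        rw [Finset.mem_image]
        refine ⟨(s, l'), Finset.mem_product.mpr ⟨Finset.mem_univ _, ?_⟩, h5.symm⟩
        unfold bad8657
        rw [Finset.mem_filter]
        exact ⟨h3.2, t, h6, z, hz, h2⟩
    have h2 := htop (n + 1) hn
    have h3 : (bad8657 π I D (n + 1)).card ≤ 5 * (bad8657 π I D n).card +
        (I.biUnion (fun z => (words (n + 1)).filter (fun l => D ≤ |π (ev l) z - z|))).card := by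
      refine (Finset.card_le_card h1).trans ((Finset.card_union_le _ _).trans ?_)
      refine Nat.add_le_add_right ?_ _
      refine Finset.card_image_le.trans ?_
      rw [Finset.card_product, Finset.card_univ]
      have : Fintype.card Lt = 5 := by decide
      rw [this]
    calc ((bad8657 π I D (n + 1)).card : ℝ) ≤ 5 * ((bad8657 π I D n).card : ℝ) +
        ((I.biUnion (fun z => (words (n + 1)).filter
          (fun l => D ≤ |π (ev l) z - z|))).card : ℝ) := by exact_mod_cast h3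
      _ ≤ 5 * ((n + 1) * I.card * β * 5 ^ n) + I.card * (β * 5 ^ (n + 1)) := by
          linarith
      _ = _ := by push_cast; ring

theorem growth8657 (r : ℕ) : ∀ᶠ j : ℕ in Filter.atTop,
    2 * (j ^ 3 + r) + 1 ≤ j ^ 4 + 1 ∧
    4 * (((2 * (2 * j ^ 3 + r) + 1 : ℕ) : ℝ) ^ (2 * (j ^ 3 + r) + 1)) ^ 2 * 20 ^ (j ^ 4) <
      25 ^ (j ^ 4) := by
  have h0 : Filter.Tendsto (fun n : ℕ => (n : ℝ) ^ 25 / (5 / 4 : ℝ) ^ n) Filter.atTop (nhds 0) :=
    tendsto_pow_const_div_const_pow_of_one_lt 25 (by norm_num)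
  have h1 : ∀ᶠ n : ℕ in Filter.atTop, (n : ℝ) ^ 25 / (5 / 4 : ℝ) ^ n < 1 :=
    h0.eventually_lt_const (by norm_num)
  filter_upwards [h1, Filter.eventually_ge_atTop (2 * r + 5)] with j hj1 hj2
  have hj3 : 1 ≤ j := by omega
  have hj33 : 1 ≤ j ^ 3 := Nat.one_le_pow _ _ hj3
  have hjj : j ≤ j ^ 3 := by
    calc j = j ^ 1 := (pow_one j).symm
      _ ≤ j ^ 3 := Nat.pow_le_pow_right hj3 (by norm_num)
  have h4 : j ^ 4 = j * j ^ 3 := by ring
  have h5 : (2 * r + 5) * j ^ 3 ≤ j ^ 4 := by rw [h4]; exact Nat.mul_le_mul_right _ hj2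
  have h6 : 2 * r ≤ 2 * r * j ^ 3 := Nat.le_mul_of_pos_right _ hj33
  have h7 : (2 * r + 5) * j ^ 3 = 2 * r * j ^ 3 + 5 * j ^ 3 := by ring
  constructor
  · omega
  · have hA : 2 * (2 * j ^ 3 + r) + 1 ≤ j ^ 4 := by omega
    have hB : 2 * (j ^ 3 + r) + 1 ≤ 3 * j ^ 3 := by omega
    have hjR : (1 : ℝ) ≤ (j : ℝ) := by exact_mod_cast hj3
    have hC : ((2 * (2 * j ^ 3 + r) + 1 : ℕ) : ℝ) ≤ (j : ℝ) ^ 4 := by exact_mod_cast hA
    have hD : (((2 * (2 * j ^ 3 + r) + 1 : ℕ) : ℝ) ^ (2 * (j ^ 3 + r) + 1)) ≤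
        (j : ℝ) ^ (12 * j ^ 3) := by
      calc (((2 * (2 * j ^ 3 + r) + 1 : ℕ) : ℝ) ^ (2 * (j ^ 3 + r) + 1))
          ≤ ((j : ℝ) ^ 4) ^ (2 * (j ^ 3 + r) + 1) := pow_le_pow_left₀ (Nat.cast_nonneg _) hC _
        _ ≤ ((j : ℝ) ^ 4) ^ (3 * j ^ 3) := pow_le_pow_right₀ (one_le_pow₀ hjR) hB
        _ = _ := by rw [← pow_mul]; ring_nf
    have hE : (4 : ℝ) ≤ (j : ℝ) ^ (j ^ 3) := by
      have h8 : (4 : ℝ) ≤ (j : ℝ) := by
        have : 4 ≤ j := by omega
        exact_mod_cast this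
      calc (4 : ℝ) ≤ (j : ℝ) := h8
        _ = (j : ℝ) ^ 1 := (pow_one _).symm
        _ ≤ (j : ℝ) ^ (j ^ 3) := pow_le_pow_right₀ hjR hj33
    have hF : 4 * (((2 * (2 * j ^ 3 + r) + 1 : ℕ) : ℝ) ^ (2 * (j ^ 3 + r) + 1)) ^ 2 ≤
        ((j : ℝ) ^ 25) ^ (j ^ 3) := by
      calc 4 * (((2 * (2 * j ^ 3 + r) + 1 : ℕ) : ℝ) ^ (2 * (j ^ 3 + r) + 1)) ^ 2
          ≤ (j : ℝ) ^ (j ^ 3) * ((j : ℝ) ^ (12 * j ^ 3)) ^ 2 := by
            refine mul_le_mul hE (pow_le_pow_left₀ (by positivity) hD 2) (by positivity)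
              (by positivity)
        _ = ((j : ℝ) ^ 25) ^ (j ^ 3) := by
            rw [← pow_mul, ← pow_mul, ← pow_add]
            congr 1
            ring
    have hG : (j : ℝ) ^ 25 < (5 / 4 : ℝ) ^ j := by
      rwa [div_lt_one (by positivity)] at hj1
    have hH : ((j : ℝ) ^ 25) ^ (j ^ 3) < ((5 / 4 : ℝ) ^ j) ^ (j ^ 3) :=
      pow_lt_pow_left₀ hG (by positivity) (by omega)
    calc 4 * (((2 * (2 * j ^ 3 + r) + 1 : ℕ) : ℝ) ^ (2 * (j ^ 3 + r) + 1)) ^ 2 * 20 ^ (j ^ 4)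
        < ((5 / 4 : ℝ) ^ j) ^ (j ^ 3) * 20 ^ (j ^ 4) := by
          refine mul_lt_mul_of_pos_right (lt_of_le_of_lt hF hH) (by positivity)
      _ = 25 ^ (j ^ 4) := by
          rw [← pow_mul, ← h4, ← mul_pow]
          norm_num

/-- two good words that agree near c give a barrier at c -/
theorem bar_of_good (r D : ℕ) (π : F2 →* Equiv.Perm ℤ) (hπ : Disp r π) (c : ℤ)
    (l l' : List Lt)
    (hl : ∀ t, t <:+ l → ∀ z : ℤ, |z - c| ≤ D + r → |π (ev t) z - z| < D)
    (hl' : ∀ t, t <:+ l' → ∀ z : ℤ, |z - c| ≤ D + r → |π (ev t) z - z| < D)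
    (hag : ∀ z : ℤ, |z - c| ≤ D + r → π (ev l) z = π (ev l') z) :
    Bar π ((ev l)⁻¹ * ev l') c := by
  obtain ⟨h1, h2⟩ := ev_claim8657 r D π hπ c l hl
  obtain ⟨h1', h2'⟩ := ev_claim8657 r D π hπ c l' hl'
  have hr0 := Int.natCast_nonneg r
  have hD0 := Int.natCast_nonneg D
  have hfix : ∀ z : ℤ, |z - c| ≤ D + r → π ((ev l)⁻¹ * ev l') z = z := by
    intro z hz
    rw [map_mul, map_inv, Equiv.Perm.mul_apply, ← hag z hz, ← Equiv.Perm.mul_apply,
      inv_mul_cancel, Equiv.Perm.one_apply]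
  have hw : ∀ y, π (ev l) (π ((ev l)⁻¹ * ev l') y) = π (ev l') y := by
    intro y
    rw [← Equiv.Perm.mul_apply, ← map_mul, mul_inv_cancel_left]
  refine ⟨hfix c (by rw [sub_self, abs_zero]; linarith), ?_, ?_⟩
  · intro y hy
    by_cases hI : |y - c| ≤ D + r
    · rw [hfix y hI]; exact hy
    · have hy2 : y < c - (D + r) := by
        by_contra hcon
        push Not at hcon
        exact hI (by rw [abs_le]; constructor <;> linarith)
      by_contra hcon
      push Not at hcon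
      have h3 := hw y
      have h4 := h1' y hy2
      by_cases h5 : c + (D + r) < π ((ev l)⁻¹ * ev l') y
      · have := h2 _ h5
        rw [h3] at this
        linarith
      · push Not at h5
        have h6 : |π ((ev l)⁻¹ * ev l') y - c| ≤ D + r := by
          rw [abs_le]; constructor <;> linarith
        rw [hag _ h6] at h3
        have h7 := (π (ev l')).injective h3
        rw [h7] at h6
        exact hI h6
  · intro y hy
    by_cases hI : |y - c| ≤ D + r
    · rw [hfix y hI]; exact hy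
    · have hy2 : c + (D + r) < y := by
        by_contra hcon
        push Not at hcon
        exact hI (by rw [abs_le]; constructor <;> linarith)
      by_contra hcon
      push Not at hcon
      have h3 := hw y
      have h4 := h2' y hy2
      by_cases h5 : π ((ev l)⁻¹ * ev l') y < c - (D + r)
      · have := h1 _ h5
        rw [h3] at this
        linarith
      · push Not at h5
        have h6 : |π ((ev l)⁻¹ * ev l') y - c| ≤ D + r := by
          rw [abs_le]; constructor <;> linarith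
        rw [hag _ h6] at h3
        have h7 := (π (ev l')).injective h3
        rw [h7] at h6
        exact hI h6

/-- barriers exist everywhere (counting and tail estimates are given as hypotheses) -/
theorem barriers (r : ℕ)
    (hK : ∀ n : ℕ, (((words n ×ˢ words n).filter (fun p => ev p.1 = ev p.2)).card : ℝ) ≤ 20 ^ n)
    (htail : ∀ ε : ℝ, 0 < ε →
      ∀ᶠ j : ℕ in Filter.atTop, ∀ n ≤ j ^ 4, ∀ (π : F2 →* Equiv.Perm ℤ), Disp r π → ∀ z : ℤ,
      (((words n).filter (fun l => ((j ^ 3 : ℕ) : ℤ) ≤ |π (ev l) z - z|)).card : ℝ) ≤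
        ε / ((j : ℝ) ^ 4 + 1) ^ 2 * 5 ^ n) :
    ∃ G₀ : Finset F2, (∀ g ∈ G₀, g ≠ 1) ∧
      ∀ π : F2 →* Equiv.Perm ℤ, Disp r π → ∀ c : ℤ, ∃ g ∈ G₀, Bar π g c := by
  obtain ⟨j, hj1, hj2, hj3⟩ := ((htail (1 / 2) (by norm_num)).and (growth8657 r)).exists
  refine ⟨((words (j ^ 4) ×ˢ words (j ^ 4)).image (fun p => (ev p.1)⁻¹ * ev p.2)).filter (· ≠ 1),
    fun g hg => (Finset.mem_filter.mp hg).2, fun π hπ c => ?_⟩
  by_contra hno
  set D : ℕ := j ^ 3 with hD
  set I : Finset ℤ := Finset.Icc (c - (D + r)) (c + (D + r)) with hI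
  have hmemI : ∀ z : ℤ, z ∈ I ↔ |z - c| ≤ D + r := by
    intro z
    rw [hI, Finset.mem_Icc, abs_le]
    constructor
    · rintro ⟨h1, h2⟩; constructor <;> linarith
    · rintro ⟨h1, h2⟩; constructor <;> linarith
  have hIcard : I.card = 2 * (D + r) + 1 := by
    rw [hI, Int.card_Icc]
    omega
  have hbad := bad_card8657 π I (D : ℤ) (j ^ 4) ((1 / 2) / ((j : ℝ) ^ 4 + 1) ^ 2)
    (fun n hn z => hj1 n hn π hπ z) (j ^ 4) le_rfl
  have hpos : (0 : ℝ) < (j : ℝ) ^ 4 + 1 := by positivity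
  have hbad2 : ((bad8657 π I (D : ℤ) (j ^ 4)).card : ℝ) ≤ 5 ^ (j ^ 4) / 2 := by
    refine hbad.trans ?_
    rw [hIcard]
    have h1 : ((2 * (D + r) + 1 : ℕ) : ℝ) ≤ (j : ℝ) ^ 4 + 1 := by exact_mod_cast hj2
    have h2 : ((((j ^ 4 : ℕ) : ℝ) + 1) * ((2 * (D + r) + 1 : ℕ) : ℝ) *
        ((1 / 2) / ((j : ℝ) ^ 4 + 1) ^ 2)) ≤ 1 / 2 := by
      rw [Nat.cast_pow]
      rw [mul_div_assoc', div_le_iff₀ (by positivity)]
      nlinarith [mul_le_mul_of_nonneg_left h1 hpos.le]
    calc (((j ^ 4 : ℕ) : ℝ) + 1) * ((2 * (D + r) + 1 : ℕ) : ℝ) *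
        ((1 / 2) / ((j : ℝ) ^ 4 + 1) ^ 2) * 5 ^ (j ^ 4)
        ≤ 1 / 2 * 5 ^ (j ^ 4) := mul_le_mul_of_nonneg_right h2 (by positivity)
      _ = _ := by ring
  set Good : Finset (List Lt) := words (j ^ 4) \ bad8657 π I (D : ℤ) (j ^ 4) with hGood
  have hGoodmem : ∀ l ∈ Good, ∀ t, t <:+ l → ∀ z : ℤ, |z - c| ≤ D + r →
      |π (ev t) z - z| < D := by
    intro l hl t ht z hz
    rw [hGood, Finset.mem_sdiff] at hl
    by_contra hcon
    push Not at hcon
    apply hl.2
    rw [mem_bad8657]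
    exact ⟨hl.1, t, ht, z, (hmemI z).mpr hz, hcon⟩
  have hGoodcard : (5 : ℝ) ^ (j ^ 4) / 2 ≤ (Good.card : ℝ) := by
    have h1 : (words (j ^ 4)).card ≤ Good.card + (bad8657 π I (D : ℤ) (j ^ 4)).card := by
      have := Finset.card_le_card_sdiff_add_card (s := words (j ^ 4))
        (t := bad8657 π I (D : ℤ) (j ^ 4))
      exact this
    rw [card_words8657] at h1
    have h2 : ((5 : ℝ) ^ (j ^ 4)) ≤ (Good.card : ℝ) +
        ((bad8657 π I (D : ℤ) (j ^ 4)).card : ℝ) := by exact_mod_cast h1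
    linarith
  have hsame : ∀ l ∈ Good, ∀ l' ∈ Good, (∀ z : ℤ, z ∈ I → π (ev l) z = π (ev l') z) →
      ev l = ev l' := by
    intro l hl l' hl' h
    by_contra hne
    apply hno
    refine ⟨(ev l)⁻¹ * ev l', ?_, ?_⟩
    · rw [Finset.mem_filter, Finset.mem_image]
      refine ⟨⟨(l, l'), Finset.mem_product.mpr ⟨?_, ?_⟩, rfl⟩, ?_⟩
      · exact (Finset.mem_sdiff.mp hl).1
      · exact (Finset.mem_sdiff.mp hl').1
      · intro h1
        exact hne (inv_mul_eq_one.mp h1)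
    · exact bar_of_good r D π hπ c l l' (hGoodmem l hl) (hGoodmem l' hl')
        (fun z hz => h z ((hmemI z).mpr hz))
  -- pigeonhole
  set T : Finset (↥I → ℤ) :=
    Fintype.piFinset (fun _ : ↥I => Finset.Icc (c - (D + r) - D) (c + (D + r) + D)) with hT
  have hTcard : T.card = (2 * (2 * D + r) + 1) ^ (2 * (D + r) + 1) := by
    rw [hT, Fintype.card_piFinset, Finset.prod_const, Int.card_Icc, Finset.card_univ,
      Fintype.card_coe, hIcard]
    congr 1
    omega
  have hTpos : 0 < T.card := by rw [hTcard]; positivity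
  have hmaps : ∀ l ∈ Good, (fun z : ↥I => π (ev l) (z : ℤ)) ∈ T := by
    intro l hl
    rw [hT, Fintype.mem_piFinset]
    intro z
    have h1 := (hmemI z).mp z.2
    have h2 := hGoodmem l hl l List.suffix_rfl z h1
    rw [abs_le] at h1
    rw [abs_lt] at h2
    rw [Finset.mem_Icc]
    constructor <;> linarith [h1.1, h1.2, h2.1, h2.2]
  obtain ⟨f, -, hf⟩ := Finset.exists_le_card_fiber_of_nsmul_le_card_of_maps_to
    (s := Good) (t := T) (f := fun l => (fun z : ↥I => π (ev l) (z : ℤ)))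
    (b := (Good.card : ℝ) / T.card) hmaps (Finset.card_pos.mp hTpos) (by
      rw [nsmul_eq_mul, mul_div_cancel₀ _ (by exact_mod_cast hTpos.ne')])
  set Fb : Finset (List Lt) := Good.filter (fun l => (fun z : ↥I => π (ev l) (z : ℤ)) = f) with hFb
  have hsub : Fb ×ˢ Fb ⊆ (words (j ^ 4) ×ˢ words (j ^ 4)).filter (fun p => ev p.1 = ev p.2) := by
    rintro ⟨l, l'⟩ hp
    rw [Finset.mem_product, hFb, Finset.mem_filter, Finset.mem_filter] at hp
    obtain ⟨⟨h1, h2⟩, h3, h4⟩ := hp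
    rw [Finset.mem_filter, Finset.mem_product]
    refine ⟨⟨(Finset.mem_sdiff.mp h1).1, (Finset.mem_sdiff.mp h3).1⟩, ?_⟩
    refine hsame l h1 l' h3 fun z hz => ?_
    have h5 := congrFun (h2.trans h4.symm) ⟨z, hz⟩
    exact h5
  have h20 : ((Fb.card : ℝ)) ^ 2 ≤ 20 ^ (j ^ 4) := by
    have h1 := Finset.card_le_card hsub
    rw [Finset.card_product] at h1
    have h2 : ((Fb.card : ℝ)) ^ 2 ≤ (((words (j ^ 4) ×ˢ words (j ^ 4)).filter
        (fun p => ev p.1 = ev p.2)).card : ℝ) := by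
      rw [sq]; exact_mod_cast h1
    exact h2.trans (hK _)
  have hTc : ((T.card : ℕ) : ℝ) = ((2 * (2 * D + r) + 1 : ℕ) : ℝ) ^ (2 * (D + r) + 1) := by
    rw [hTcard]; push_cast; rfl
  rw [← hTc] at hj3
  have hTR : (0 : ℝ) < (T.card : ℝ) := by exact_mod_cast hTpos
  have h30 : (5 : ℝ) ^ (j ^ 4) / 2 / T.card ≤ Fb.card :=
    (div_le_div_of_nonneg_right hGoodcard hTR.le).trans hf
  have h40 : ((5 : ℝ) ^ (j ^ 4) / 2 / T.card) ^ 2 ≤ 20 ^ (j ^ 4) :=
    (pow_le_pow_left₀ (by positivity) h30 2).trans h20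
  rw [div_div, div_pow, div_le_iff₀ (by positivity), ← pow_mul, mul_comm (j ^ 4) 2, pow_mul] at h40
  have h50 : ((5 : ℝ) ^ 2) ^ (j ^ 4) = 25 ^ (j ^ 4) := by norm_num
  rw [h50] at h40
  nlinarith [h40, hj3]

end JE

end Pool.Agent.Helper894.FS
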