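import Pool.Agent.Helper894.FS.Defs

namespace Pool.Agent.Helper894.FS

namespace JF

open scoped BigOperators


section ss_basic

theorem ss_apply_inv_self {Ω : Type*} (f : Equiv.Perm Ω) (x : Ω) : f (f⁻¹ x) = x :=
  f.apply_symm_apply x

variable {Ω : Type*}

theorem ss_Bd_const (c : ℝ) : Bd (fun _ : Ω => c) := ⟨|c|, fun _ => le_rfl⟩

theorem ss_Bd_add {F G : Ω → ℝ} (hF : Bd F) (hG : Bd G) : Bd (fun ω => F ω + G ω) := by
  obtain ⟨C, hC⟩ := hF
  obtain ⟨D, hD⟩ := hG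
  exact ⟨C + D, fun ω => (abs_add_le _ _).trans (add_le_add (hC ω) (hD ω))⟩

theorem ss_Bd_smul (c : ℝ) {F : Ω → ℝ} (hF : Bd F) : Bd (fun ω => c * F ω) := by
  obtain ⟨C, hC⟩ := hF
  refine ⟨|c| * C, fun ω => ?_⟩
  rw [abs_mul]
  exact mul_le_mul_of_nonneg_left (hC ω) (abs_nonneg _)

theorem ss_Bd_ind (A : Set Ω) : Bd (Set.indicator A (fun _ => (1 : ℝ))) := by
  refine ⟨1, fun ω => ?_⟩
  by_cases h : ω ∈ A
  · simp [h]
  · simp [h]

theorem ss_Bd_sum {ι : Type*} (s : Finset ι) (F : ι → Ω → ℝ) (h : ∀ i ∈ s, Bd (F i)) :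
    Bd (fun ω => ∑ i ∈ s, F i ω) := by
  classical
  induction s using Finset.induction_on with
  | empty => simpa using ss_Bd_const (Ω := Ω) 0
  | insert a s ha ih =>
    simp only [Finset.sum_insert ha]
    exact ss_Bd_add (h a (Finset.mem_insert_self _ _))
      (ih fun i hi => h i (Finset.mem_insert_of_mem hi))

theorem ss_mono (M : Mean Ω) {F G : Ω → ℝ} (hF : Bd F) (hG : Bd G) (h : ∀ ω, F ω ≤ G ω) :
    M.m F ≤ M.m G := by
  have h1 : Bd (fun ω => -1 * F ω) := ss_Bd_smul _ hF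
  have h2 : Bd (fun ω => G ω + -1 * F ω) := ss_Bd_add hG h1
  have h3 := M.nonneg _ h2 (fun ω => by have := h ω; linarith)
  rw [M.add _ _ hG h1, M.smul _ _ hF] at h3
  linarith

theorem ss_const (M : Mean Ω) (c : ℝ) : M.m (fun _ => c) = c := by
  have := M.smul c (fun _ => 1) (ss_Bd_const 1)
  rw [M.one] at this
  simpa using this

theorem ss_sum (M : Mean Ω) {ι : Type*} (s : Finset ι) (F : ι → Ω → ℝ) (h : ∀ i ∈ s, Bd (F i)) :
    M.m (fun ω => ∑ i ∈ s, F i ω) = ∑ i ∈ s, M.m (F i) := by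
  classical
  induction s using Finset.induction_on with
  | empty => simpa using ss_const M 0
  | insert a s ha ih =>
    simp only [Finset.sum_insert ha]
    rw [M.add _ _ (h a (Finset.mem_insert_self _ _))
      (ss_Bd_sum s F fun i hi => h i (Finset.mem_insert_of_mem hi)),
      ih fun i hi => h i (Finset.mem_insert_of_mem hi)]

/-- mass of a set -/
noncomputable def ssmu (M : Mean Ω) (A : Set Ω) : ℝ := M.m (Set.indicator A (fun _ => (1 : ℝ)))

theorem ssmu_mono (M : Mean Ω) {A B : Set Ω} (h : A ⊆ B) : ssmu M A ≤ ssmu M B := by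
  refine ss_mono M (ss_Bd_ind A) (ss_Bd_ind B) fun ω => ?_
  exact Set.indicator_le_indicator_of_subset h (fun _ => zero_le_one) ω

theorem ssmu_le_one (M : Mean Ω) (A : Set Ω) : ssmu M A ≤ 1 := by
  have := ss_mono M (ss_Bd_ind A) (ss_Bd_const 1) (fun ω => by
    by_cases h : ω ∈ A
    · simp [h]
    · simp [h])
  rwa [ss_const] at this

theorem ssmu_union (M : Mean Ω) (A B : Set Ω) : ssmu M (A ∪ B) ≤ ssmu M A + ssmu M B := by
  unfold ssmu
  rw [← M.add _ _ (ss_Bd_ind A) (ss_Bd_ind B)]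
  refine ss_mono M (ss_Bd_ind _) (ss_Bd_add (ss_Bd_ind A) (ss_Bd_ind B)) fun ω => ?_
  by_cases h : ω ∈ A
  · by_cases h' : ω ∈ B
    · simp [h, h']
    · simp [h, h']
  · by_cases h' : ω ∈ B
    · simp [h, h']
    · simp [h, h']

theorem ssmu_diff (M : Mean Ω) {A B : Set Ω} (h : A ⊆ B) :
    ssmu M (B \ A) = ssmu M B - ssmu M A := by
  have e : (Set.indicator B (fun _ => (1 : ℝ))) = fun ω =>
      Set.indicator (B \ A) (fun _ => (1 : ℝ)) ω + Set.indicator A (fun _ => (1 : ℝ)) ω := by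
    funext ω
    by_cases h1 : ω ∈ A
    · have := h h1
      simp [h1, this]
    · by_cases h2 : ω ∈ B
      · simp [h1, h2]
      · simp [h1, h2]
  have : ssmu M B = ssmu M (B \ A) + ssmu M A := by
    unfold ssmu
    rw [← M.add _ _ (ss_Bd_ind _) (ss_Bd_ind _), ← e]
  linarith

theorem ssmu_sum (M : Mean Ω) {ι : Type*} (s : Finset ι) (A : Set Ω) (B : ι → Set Ω)
    (h : ∀ ω ∈ A, ∃ i ∈ s, ω ∈ B i) : ssmu M A ≤ ∑ i ∈ s, ssmu M (B i) := by
  unfold ssmu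
  rw [← ss_sum M s (fun i => Set.indicator (B i) (fun _ => (1 : ℝ))) fun i _ => ss_Bd_ind _]
  refine ss_mono M (ss_Bd_ind _) (ss_Bd_sum _ _ fun i _ => ss_Bd_ind _) fun ω => ?_
  have hnn : ∀ i ∈ s, 0 ≤ Set.indicator (B i) (fun _ => (1 : ℝ)) ω := fun i _ =>
    Set.indicator_nonneg (fun _ _ => zero_le_one) ω
  by_cases hω : ω ∈ A
  · obtain ⟨i, hi, hiB⟩ := h ω hω
    have := Finset.single_le_sum hnn hi
    simpa [hω, hiB] using this
  · have := Finset.sum_nonneg hnn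
    simpa [hω] using this

theorem ssmu_inv (M : Mean Ω) (φ : F2 →* Equiv.Perm Ω)
    (hinv : ∀ (g : F2) (F : Ω → ℝ), Bd F → M.m (fun ω => F (φ g ω)) = M.m F) (g : F2)
    (A : Set Ω) : ssmu M {ω | φ g ω ∈ A} = ssmu M A := by
  unfold ssmu
  rw [← hinv g _ (ss_Bd_ind A)]
  rfl

end ss_basic

theorem ss_disp {I : Type*} (π : I → (F2 →* Equiv.Perm ℤ)) (r : ℕ)
    (hπ : ∀ i, Disp r (π i)) (h : F2) : ∃ D : ℕ, ∀ i n, |π i h n - n| ≤ D := by
  induction h using FreeGroup.induction_on with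
  | C1 => exact ⟨0, fun i n => by simp⟩
  | of x => exact ⟨r, fun i n => hπ i x n⟩
  | inv_of x ih =>
    obtain ⟨D, hD⟩ := ih
    refine ⟨D, fun i n => ?_⟩
    have h1 := hD i (π i (FreeGroup.of x)⁻¹ n)
    rw [← Equiv.Perm.mul_apply, ← map_mul, mul_inv_cancel, map_one, Equiv.Perm.one_apply,
      abs_sub_comm] at h1
    exact h1
  | mul x y hx hy =>
    obtain ⟨D, hD⟩ := hx
    obtain ⟨E, hE⟩ := hy
    refine ⟨D + E, fun i n => ?_⟩
    have h1 := hD i (π i y n)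
    have h2 := hE i n
    rw [map_mul, Equiv.Perm.mul_apply]
    push_cast
    have : π i x (π i y n) - n = (π i x (π i y n) - π i y n) + (π i y n - n) := by ring
    rw [this]
    exact (abs_add_le _ _).trans (add_le_add h1 h2)

/-- barriers seen by the orbit from below -/
theorem ss_count_up (f : Equiv.Perm ℤ) (n : ℤ) (L : ℕ) (S : Finset ℕ)
    (hinj : ∀ j ∈ S, ∀ k ∈ S, (f ^ j) n = (f ^ k) n → j = k)
    (hS : ∀ k ∈ S, ∃ b : ℤ, (f b = b ∧ (∀ y, y < b → f y < b) ∧ (∀ y, b < y → b < f y)) ∧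
      (f ^ k) n < b ∧ b ≤ (f ^ k) n + L) : S.card ≤ L := by
  classical
  rcases S.eq_empty_or_nonempty with rfl | hne
  · simp
  choose! b hb1 hb2 hb3 using hS
  obtain ⟨k0, hk0, hmin⟩ := Finset.exists_min_image S b hne
  have hfix : ∀ k : ℕ, (f ^ k) (b k0) = b k0 := by
    intro k
    induction k with
    | zero => simp
    | succ k ih => rw [pow_succ, Equiv.Perm.mul_apply, (hb1 k0 hk0).1, ih]
  have hup : ∀ (k : ℕ) (y : ℤ), b k0 < y → b k0 < (f ^ k) y := by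
    intro k
    induction k with
    | zero => intro y hy; simpa using hy
    | succ k ih =>
      intro y hy
      rw [pow_succ, Equiv.Perm.mul_apply]
      exact ih _ ((hb1 k0 hk0).2.2 y hy)
  have hdn : ∀ (k : ℕ) (y : ℤ), y < b k0 → (f ^ k) y < b k0 := by
    intro k
    induction k with
    | zero => intro y hy; simpa using hy
    | succ k ih =>
      intro y hy
      rw [pow_succ, Equiv.Perm.mul_apply]
      exact ih _ ((hb1 k0 hk0).2.1 y hy)
  have hn : n < b k0 := by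
    by_contra hcon
    push Not at hcon
    have h1 := hb2 k0 hk0
    rcases hcon.lt_or_eq with h | h
    · have := hup k0 n h
      omega
    · rw [← h, hfix] at h1
      exact lt_irrefl _ h1
  have : S.card ≤ (Finset.Ico (b k0 - L) (b k0)).card := by
    refine Finset.card_le_card_of_injOn (fun k => (f ^ k) n) (fun k hk => ?_) ?_
    · rw [Finset.coe_Ico, Set.mem_Ico]
      refine ⟨?_, hdn k n hn⟩
      have h1 := hb3 k hk
      have h2 := hmin k hk
      show b k0 - L ≤ (f ^ k) n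
      omega
    · intro j hj k hk hjk
      exact hinj j hj k hk hjk
  simpa using this

/-- barriers seen by the orbit from above -/
theorem ss_count_dn (f : Equiv.Perm ℤ) (n : ℤ) (L : ℕ) (S : Finset ℕ)
    (hinj : ∀ j ∈ S, ∀ k ∈ S, (f ^ j) n = (f ^ k) n → j = k)
    (hS : ∀ k ∈ S, ∃ b : ℤ, (f b = b ∧ (∀ y, y < b → f y < b) ∧ (∀ y, b < y → b < f y)) ∧
      b < (f ^ k) n ∧ (f ^ k) n ≤ b + L) : S.card ≤ L := by
  classical
  rcases S.eq_empty_or_nonempty with rfl | hne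
  · simp
  choose! b hb1 hb2 hb3 using hS
  obtain ⟨k0, hk0, hmin⟩ := Finset.exists_max_image S b hne
  have hfix : ∀ k : ℕ, (f ^ k) (b k0) = b k0 := by
    intro k
    induction k with
    | zero => simp
    | succ k ih => rw [pow_succ, Equiv.Perm.mul_apply, (hb1 k0 hk0).1, ih]
  have hup : ∀ (k : ℕ) (y : ℤ), b k0 < y → b k0 < (f ^ k) y := by
    intro k
    induction k with
    | zero => intro y hy; simpa using hy
    | succ k ih =>
      intro y hy
      rw [pow_succ, Equiv.Perm.mul_apply]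
      exact ih _ ((hb1 k0 hk0).2.2 y hy)
  have hdn : ∀ (k : ℕ) (y : ℤ), y < b k0 → (f ^ k) y < b k0 := by
    intro k
    induction k with
    | zero => intro y hy; simpa using hy
    | succ k ih =>
      intro y hy
      rw [pow_succ, Equiv.Perm.mul_apply]
      exact ih _ ((hb1 k0 hk0).2.1 y hy)
  have hn : b k0 < n := by
    by_contra hcon
    push Not at hcon
    have h1 := hb2 k0 hk0
    rcases hcon.lt_or_eq with h | h
    · have := hdn k0 n h
      omega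
    · rw [h, hfix] at h1
      exact lt_irrefl _ h1
  have : S.card ≤ (Finset.Ioc (b k0) (b k0 + L)).card := by
    refine Finset.card_le_card_of_injOn (fun k => (f ^ k) n) (fun k hk => ?_) ?_
    · rw [Finset.coe_Ioc, Set.mem_Ioc]
      refine ⟨hup k n hn, ?_⟩
      have h1 := hb3 k hk
      have h2 := hmin k hk
      show (f ^ k) n ≤ b k0 + L
      omega
    · intro j hj k hk hjk
      exact hinj j hj k hk hjk
  simpa using this

/-- the orbit count -/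
theorem ss_count (f : Equiv.Perm ℤ) (n : ℤ) (N L : ℕ) (hN : 1 ≤ N) (S : Finset ℕ)
    (hSN : ∀ k ∈ S, k < N)
    (hS : ∀ k ∈ S, (∃ b : ℤ, |b - (f ^ k) n| ≤ L ∧
      (f b = b ∧ (∀ y, y < b → f y < b) ∧ (∀ y, b < y → b < f y))) ∧
      ∀ j : ℕ, 1 ≤ j → j ≤ N → (f ^ j) ((f ^ k) n) ≠ (f ^ k) n) : S.card ≤ 2 * L := by
  classical
  rcases S.eq_empty_or_nonempty with rfl | ⟨k0, hk0⟩
  · simp
  have hdist : ∀ j : ℕ, 1 ≤ j → j ≤ N → (f ^ j) n ≠ n := by
    intro j hj1 hj2 h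
    refine (hS k0 hk0).2 j hj1 hj2 ?_
    rw [← Equiv.Perm.mul_apply, ← pow_add, add_comm, pow_add, Equiv.Perm.mul_apply, h]
  have hinj' : ∀ j k : ℕ, j < k → k < N → (f ^ j) n ≠ (f ^ k) n := by
    intro j k hjk hkN h
    refine hdist (k - j) (by omega) (by omega) ?_
    have : (f ^ k) n = (f ^ j) ((f ^ (k - j)) n) := by
      rw [← Equiv.Perm.mul_apply, ← pow_add]
      congr 2
      omega
    rw [this] at h
    exact ((f ^ j).injective h).symm
  have hinj : ∀ j ∈ S, ∀ k ∈ S, (f ^ j) n = (f ^ k) n → j = k := by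
    intro j hj k hk h
    rcases lt_trichotomy j k with h1 | h1 | h1
    · exact (hinj' j k h1 (hSN k hk) h).elim
    · exact h1
    · exact (hinj' k j h1 (hSN j hj) h.symm).elim
  set S1 := S.filter (fun k => ∃ b : ℤ,
    (f b = b ∧ (∀ y, y < b → f y < b) ∧ (∀ y, b < y → b < f y)) ∧
      (f ^ k) n < b ∧ b ≤ (f ^ k) n + L) with hS1
  set S2 := S.filter (fun k => ∃ b : ℤ,
    (f b = b ∧ (∀ y, y < b → f y < b) ∧ (∀ y, b < y → b < f y)) ∧
      b < (f ^ k) n ∧ (f ^ k) n ≤ b + L) with hS2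
  have hU : S ⊆ S1 ∪ S2 := by
    intro k hk
    obtain ⟨⟨b, hb, hbar⟩, hk2⟩ := hS k hk
    rw [abs_le] at hb
    rcases lt_trichotomy b ((f ^ k) n) with h | h | h
    · refine Finset.mem_union_right _ (Finset.mem_filter.2 ⟨hk, b, hbar, h, by omega⟩)
    · exfalso
      refine hk2 1 le_rfl hN ?_
      rw [pow_one, ← h]
      exact hbar.1
    · refine Finset.mem_union_left _ (Finset.mem_filter.2 ⟨hk, b, hbar, h, by omega⟩)
  have c1 : S1.card ≤ L := ss_count_up f n L S1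
    (fun j hj k hk => hinj j (Finset.mem_of_mem_filter j hj) k (Finset.mem_of_mem_filter k hk))
    fun k hk => (Finset.mem_filter.1 hk).2
  have c2 : S2.card ≤ L := ss_count_dn f n L S2
    (fun j hj k hk => hinj j (Finset.mem_of_mem_filter j hj) k (Finset.mem_of_mem_filter k hk))
    fun k hk => (Finset.mem_filter.1 hk).2
  have c3 := Finset.card_le_card hU
  have c4 := Finset.card_union_le S1 S2
  omega

/-- points close to a barrier -/
def ssB {I : Type*} (π : I → (F2 →* Equiv.Perm ℤ)) (g : F2) (L : ℕ) : Set (I × ℤ) :=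
  {w | ∃ b : ℤ, |b - w.2| ≤ L ∧ Bar (π w.1) g b}

/-- moved points -/
def ssU {I : Type*} (π : I → (F2 →* Equiv.Perm ℤ)) (g : F2) : Set (I × ℤ) :=
  {w | prodAct π g w ≠ w}

theorem ssB_mono {I : Type*} (π : I → (F2 →* Equiv.Perm ℤ)) (g : F2) {L L' : ℕ} (h : L ≤ L') :
    ssB π g L ⊆ ssB π g L' := by
  rintro w ⟨b, hb, hbar⟩
  exact ⟨b, hb.trans (by exact_mod_cast h), hbar⟩

theorem ss_step1 {I : Type*} (π : I → (F2 →* Equiv.Perm ℤ)) (M : Mean (I × ℤ))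
    (hinv : ∀ (g : F2) (F : I × ℤ → ℝ), Bd F → M.m (fun ω => F (prodAct π g ω)) = M.m F)
    (g : F2) (L N : ℕ) (hN : 1 ≤ N) :
    N * ssmu M (ssB π g L ∩ ssU π (g ^ N.factorial)) ≤ 2 * L := by
  classical
  set Y : Set (I × ℤ) := {w | w ∈ ssB π g L ∧ ∀ k : ℕ, 1 ≤ k → k ≤ N →
    prodAct π (g ^ k) w ≠ w} with hY
  have hsub : ssB π g L ∩ ssU π (g ^ N.factorial) ⊆ Y := by
    rintro w ⟨hw1, hw2⟩
    refine ⟨hw1, fun k hk1 hk2 h => hw2 ?_⟩
    obtain ⟨m, hm⟩ := Nat.dvd_factorial (by omega : 0 < k) hk2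
    rw [hm, pow_mul, map_pow]
    have h' : ∀ m : ℕ, ((prodAct π (g ^ k)) ^ m) w = w := by
      intro m
      induction m with
      | zero => rfl
      | succ m ih => rw [pow_succ, Equiv.Perm.mul_apply, h, ih]
    exact h' m
  have h1 : ssmu M (ssB π g L ∩ ssU π (g ^ N.factorial)) ≤ ssmu M Y := ssmu_mono M hsub
  have h2 : (N : ℝ) * ssmu M Y = M.m (fun ω => ∑ k ∈ Finset.range N,
      Set.indicator {w | prodAct π (g ^ k) w ∈ Y} (fun _ => (1 : ℝ)) ω) := by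
    rw [ss_sum M _ _ fun k _ => ss_Bd_ind _]
    have : ∀ k ∈ Finset.range N, M.m (Set.indicator {w | prodAct π (g ^ k) w ∈ Y}
        (fun _ => (1 : ℝ))) = ssmu M Y := by
      intro k _
      exact ssmu_inv M (prodAct π) hinv (g ^ k) Y
    rw [Finset.sum_congr rfl this, Finset.sum_const, Finset.card_range, nsmul_eq_mul]
  have h3 : M.m (fun ω => ∑ k ∈ Finset.range N,
      Set.indicator {w | prodAct π (g ^ k) w ∈ Y} (fun _ => (1 : ℝ)) ω) ≤ 2 * L := by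
    rw [← ss_const M (2 * (L : ℝ))]
    refine ss_mono M (ss_Bd_sum _ _ fun k _ => ss_Bd_ind _) (ss_Bd_const _) fun ω => ?_
    obtain ⟨i, n⟩ := ω
    have e1 : ∑ k ∈ Finset.range N,
        Set.indicator {w | prodAct π (g ^ k) w ∈ Y} (fun _ => (1 : ℝ)) (i, n) =
        (((Finset.range N).filter (fun k => prodAct π (g ^ k) (i, n) ∈ Y)).card : ℝ) := by
      rw [Finset.card_filter]
      push_cast
      refine Finset.sum_congr rfl fun k _ => ?_
      by_cases hk : prodAct π (g ^ k) (i, n) ∈ Y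
      · simp only [Set.indicator, Set.mem_ofPred_eq, hk, if_true]
      · simp only [Set.indicator, Set.mem_ofPred_eq, hk, if_false]
    rw [e1]
    have := ss_count (π i g) n N L hN
      ((Finset.range N).filter (fun k => prodAct π (g ^ k) (i, n) ∈ Y))
      (fun k hk => Finset.mem_range.1 (Finset.mem_of_mem_filter k hk)) (fun k hk => by
        have hk' := (Finset.mem_filter.1 hk).2
        rw [hY, Set.mem_ofPred_eq, prodAct_apply, map_pow] at hk'
        obtain ⟨⟨b, hb1, hb2⟩, hk2⟩ := hk'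
        refine ⟨⟨b, hb1, hb2⟩, fun j hj1 hj2 h => hk2 j hj1 hj2 ?_⟩
        rw [prodAct_apply, map_pow, h])
    exact_mod_cast this
  have h4 : (N : ℝ) * ssmu M (ssB π g L ∩ ssU π (g ^ N.factorial)) ≤ N * ssmu M Y :=
    mul_le_mul_of_nonneg_left h1 (Nat.cast_nonneg _)
  linarith

theorem ss_step2 {I : Type*} (π : I → (F2 →* Equiv.Perm ℤ)) (r : ℕ)
    (hπ : ∀ i, Disp r (π i)) (M : Mean (I × ℤ))
    (hinv : ∀ (g : F2) (F : I × ℤ → ℝ), Bd F → M.m (fun ω => F (prodAct π g ω)) = M.m F)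
    (g : F2) {ε : ℝ} (hε : 0 < ε) :
    ∃ L0 : ℕ, ∀ L ≥ L0, ∀ h : F2,
      ssmu M {w | w ∈ ssB π g L ∧ prodAct π h w ∉ ssB π g L} ≤ ε := by
  have hbdd : BddAbove (Set.range fun L : ℕ => ssmu M (ssB π g L)) :=
    ⟨1, by rintro _ ⟨L, rfl⟩; exact ssmu_le_one M _⟩
  obtain ⟨L0, hL0⟩ := exists_lt_of_lt_ciSup
    (show (⨆ L : ℕ, ssmu M (ssB π g L)) - ε < ⨆ L : ℕ, ssmu M (ssB π g L) by linarith)
  refine ⟨L0, fun L hL h => ?_⟩
  obtain ⟨D, hD⟩ := ss_disp π r hπ h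
  have h1 : ssmu M {w | w ∈ ssB π g L ∧ prodAct π h w ∉ ssB π g L} ≤
      ssmu M {w | prodAct π h w ∈ ssB π g (L + D) \ ssB π g L} := by
    refine ssmu_mono M ?_
    rintro ⟨i, n⟩ ⟨⟨b, hb1, hb2⟩, hw2⟩
    refine ⟨⟨b, ?_, hb2⟩, hw2⟩
    have h3 := hD i n
    show |b - π i h n| ≤ ((L + D : ℕ) : ℤ)
    have : b - π i h n = (b - n) - (π i h n - n) := by ring
    rw [this]
    push_cast
    exact (abs_sub _ _).trans (add_le_add hb1 h3)
  rw [ssmu_inv M (prodAct π) hinv h, ssmu_diff M (ssB_mono π g (Nat.le_add_right L D))] at h1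
  have h2 : ssmu M (ssB π g (L + D)) ≤ ⨆ L : ℕ, ssmu M (ssB π g L) := le_ciSup hbdd (L + D)
  have h3 : ssmu M (ssB π g L0) ≤ ssmu M (ssB π g L) := ssmu_mono M (ssB_mono π g hL)
  linarith

section step3

variable {I : Type*} (π : I → (F2 →* Equiv.Perm ℤ)) (M : Mean (I × ℤ))
    (hinv : ∀ (g : F2) (F : I × ℤ → ℝ), Bd F → M.m (fun ω => F (prodAct π g ω)) = M.m F)
    (B : Set (I × ℤ)) (ε : ℝ)
    (hB : ∀ h : F2, ssmu M {w | w ∈ B ∧ prodAct π h w ∉ B} ≤ ε)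

include hinv hB

theorem ss_step3a (x h : F2) :
    ssmu M (B ∩ {w | prodAct π h w ∈ ssU π x}) ≤ ssmu M (B ∩ ssU π x) + ε := by
  have h1 : ssmu M (B ∩ {w | prodAct π h w ∈ ssU π x}) ≤
      ssmu M ({w | prodAct π h w ∈ B ∩ ssU π x} ∪ {w | w ∈ B ∧ prodAct π h w ∉ B}) := by
    refine ssmu_mono M ?_
    rintro w ⟨hw1, hw2⟩
    by_cases hw : prodAct π h w ∈ B
    · exact Or.inl ⟨hw, hw2⟩
    · exact Or.inr ⟨hw1, hw⟩
  have h2 := ssmu_union M {w | prodAct π h w ∈ B ∩ ssU π x} {w | w ∈ B ∧ prodAct π h w ∉ B}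
  rw [ssmu_inv M (prodAct π) hinv h] at h2
  have h3 := hB h
  linarith

theorem ss_step3b (t u : F2) :
    ssmu M (B ∩ ssU π (t * u * t⁻¹)) ≤ ssmu M (B ∩ ssU π u) + ε := by
  refine le_trans (ssmu_mono M ?_) (ss_step3a π M hinv B ε hB u t⁻¹)
  rintro w ⟨hw1, hw2⟩
  refine ⟨hw1, fun h => hw2 ?_⟩
  rw [map_mul, map_mul, Equiv.Perm.mul_apply, Equiv.Perm.mul_apply, h, map_inv,
    ss_apply_inv_self]

theorem ss_step3c (x y : F2) :
    ssmu M (B ∩ ssU π (x * y * x⁻¹ * y⁻¹)) ≤ 2 * ssmu M (B ∩ ssU π x) + ε := by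
  have h1 := ss_step3a π M hinv B ε hB x y⁻¹
  have h2 := ssmu_union M (B ∩ ssU π x) (B ∩ {w | prodAct π y⁻¹ w ∈ ssU π x})
  have h3 : ssmu M (B ∩ ssU π (x * y * x⁻¹ * y⁻¹)) ≤
      ssmu M ((B ∩ ssU π x) ∪ (B ∩ {w | prodAct π y⁻¹ w ∈ ssU π x})) := by
    refine ssmu_mono M ?_
    rintro w ⟨hw1, hw2⟩
    by_contra hcon
    rw [Set.mem_union, not_or] at hcon
    obtain ⟨hc1, hc2⟩ := hcon
    have e1 : prodAct π x w = w := by
      by_contra h
      exact hc1 ⟨hw1, h⟩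
    have e2 : prodAct π x (prodAct π y⁻¹ w) = prodAct π y⁻¹ w := by
      by_contra h
      exact hc2 ⟨hw1, h⟩
    refine hw2 ?_
    rw [map_mul, map_mul, map_mul, Equiv.Perm.mul_apply, Equiv.Perm.mul_apply,
      Equiv.Perm.mul_apply]
    have e3 : prodAct π x⁻¹ (prodAct π y⁻¹ w) = prodAct π y⁻¹ w := by
      rw [map_inv, Equiv.Perm.inv_eq_iff_eq, e2]
    rw [e3, map_inv, ss_apply_inv_self, e1]
  linarith

theorem ss_step3d (x y : F2) :
    ssmu M (B ∩ ssU π (x * y * x⁻¹ * y⁻¹)) ≤ 2 * ssmu M (B ∩ ssU π y) + ε := by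
  have h1 := ss_step3a π M hinv B ε hB y x⁻¹
  have h2 := ssmu_union M (B ∩ ssU π y) (B ∩ {w | prodAct π x⁻¹ w ∈ ssU π y})
  have h3 : ssmu M (B ∩ ssU π (x * y * x⁻¹ * y⁻¹)) ≤
      ssmu M ((B ∩ ssU π y) ∪ (B ∩ {w | prodAct π x⁻¹ w ∈ ssU π y})) := by
    refine ssmu_mono M ?_
    rintro w ⟨hw1, hw2⟩
    by_contra hcon
    rw [Set.mem_union, not_or] at hcon
    obtain ⟨hc1, hc2⟩ := hcon
    have e1 : prodAct π y w = w := by
      by_contra h
      exact hc1 ⟨hw1, h⟩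
    have e2 : prodAct π y (prodAct π x⁻¹ w) = prodAct π x⁻¹ w := by
      by_contra h
      exact hc2 ⟨hw1, h⟩
    refine hw2 ?_
    rw [map_mul, map_mul, map_mul, Equiv.Perm.mul_apply, Equiv.Perm.mul_apply,
      Equiv.Perm.mul_apply]
    have e3 : prodAct π y⁻¹ w = w := by
      rw [map_inv, Equiv.Perm.inv_eq_iff_eq, e1]
    rw [e3, e2, map_inv, ss_apply_inv_self]
  linarith

end step3

theorem ss_step4 {I : Type*} (π : I → (F2 →* Equiv.Perm ℤ)) (r : ℕ)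
    (hπ : ∀ i, Disp r (π i)) (M : Mean (I × ℤ))
    (hinv : ∀ (g : F2) (F : I × ℤ → ℝ), Bd F → M.m (fun ω => F (prodAct π g ω)) = M.m F)
    (htwist : ∀ g g' : F2, g ≠ 1 → g' ≠ 1 → ∃ t : F2,
      g * (t * g' * t⁻¹) * g⁻¹ * (t * g' * t⁻¹)⁻¹ ≠ 1)
    (htf : ∀ g : F2, g ≠ 1 → ∀ n : ℕ, n ≠ 0 → g ^ n ≠ 1) (l : Finset F2) :
    (∀ g ∈ l, g ≠ 1) → ∀ δ : ℝ, 0 < δ → ∀ L : ℕ, ∃ C : F2, C ≠ 1 ∧
      ∀ g ∈ l, ssmu M (ssB π g L ∩ ssU π C) ≤ δ := by
  classical
  induction l using Finset.induction_on with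
  | empty =>
    intro _ δ _ L
    exact ⟨FreeGroup.of true, FreeGroup.of_ne_one true, by simp⟩
  | insert g l hg ih =>
    intro hl δ hδ L
    have hg1 : g ≠ 1 := hl g (Finset.mem_insert_self _ _)
    have hδ8 : 0 < δ / 8 := by positivity
    choose L0 hL0 using fun g' : F2 => ss_step2 π r hπ M hinv g' hδ8
    set L' := max L (max (L0 g) (l.sup L0)) with hL'
    have hL1 : L ≤ L' := le_max_left _ _
    have hL2 : L0 g ≤ L' := (le_max_left _ _).trans (le_max_right _ _)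
    have hL3 : ∀ g' ∈ l, L0 g' ≤ L' := fun g' hg' =>
      (Finset.le_sup hg').trans ((le_max_right _ _).trans (le_max_right _ _))
    obtain ⟨C', hC'1, hC'⟩ := ih (fun g' hg' => hl g' (Finset.mem_insert_of_mem hg'))
      (δ / 8) hδ8 L'
    obtain ⟨N, hN⟩ := exists_nat_gt (2 * (L' : ℝ) / (δ / 8))
    have hNpos : (0 : ℝ) < N := lt_of_le_of_lt (by positivity) hN
    have hN1 : 1 ≤ N := by
      have : 0 < N := by exact_mod_cast hNpos
      omega
    have hu1 : g ^ N.factorial ≠ 1 := htf g hg1 _ (Nat.factorial_ne_zero N)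
    have hu2 : ssmu M (ssB π g L' ∩ ssU π (g ^ N.factorial)) ≤ δ / 8 := by
      have h1 := ss_step1 π M hinv g L' N hN1
      rw [div_lt_iff₀ hδ8] at hN
      have h2 : (N : ℝ) * ssmu M (ssB π g L' ∩ ssU π (g ^ N.factorial)) ≤ N * (δ / 8) := by
        linarith
      exact le_of_mul_le_mul_left h2 hNpos
    obtain ⟨t, ht⟩ := htwist C' (g ^ N.factorial) hC'1 hu1
    refine ⟨_, ht, fun g' hg' => ?_⟩
    rw [Finset.mem_insert] at hg'
    rcases hg' with rfl | hg'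
    · have h1 := ss_step3d π M hinv (ssB π g' L') (δ / 8) (hL0 g' L' hL2) C'
        (t * g' ^ N.factorial * t⁻¹)
      have h2 := ss_step3b π M hinv (ssB π g' L') (δ / 8) (hL0 g' L' hL2) t (g' ^ N.factorial)
      have h3 := ssmu_mono M (Set.inter_subset_inter_left
        (ssU π (C' * (t * g' ^ N.factorial * t⁻¹) * C'⁻¹ * (t * g' ^ N.factorial * t⁻¹)⁻¹))
        (ssB_mono π g' hL1))
      linarith
    · have h1 := ss_step3c π M hinv (ssB π g' L') (δ / 8) (hL0 g' L' (hL3 g' hg')) C'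
        (t * g ^ N.factorial * t⁻¹)
      have h2 := hC' g' hg'
      have h3 := ssmu_mono M (Set.inter_subset_inter_left
        (ssU π (C' * (t * g ^ N.factorial * t⁻¹) * C'⁻¹ * (t * g ^ N.factorial * t⁻¹)⁻¹))
        (ssB_mono π g' hL1))
      linarith

/-- an invariant mean gives small mass to the support of some nontrivial element -/
theorem small_support {I : Type*} (π : I → (F2 →* Equiv.Perm ℤ)) (r : ℕ)
    (hπ : ∀ i, Disp r (π i)) (M : Mean (I × ℤ))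
    (hinv : ∀ (g : F2) (F : I × ℤ → ℝ), Bd F → M.m (fun ω => F (prodAct π g ω)) = M.m F)
    (G₀ : Finset F2) (h1 : ∀ g ∈ G₀, g ≠ 1) (hB : ∀ i n, ∃ g ∈ G₀, Bar (π i) g n)
    (htwist : ∀ g g' : F2, g ≠ 1 → g' ≠ 1 → ∃ t : F2,
      g * (t * g' * t⁻¹) * g⁻¹ * (t * g' * t⁻¹)⁻¹ ≠ 1)
    (htf : ∀ g : F2, g ≠ 1 → ∀ n : ℕ, n ≠ 0 → g ^ n ≠ 1)
    (δ : ℝ) (hδ : 0 < δ) :
    ∃ C : F2, C ≠ 1 ∧
      M.m (Set.indicator {ω | prodAct π C ω ≠ ω} (fun _ => (1 : ℝ))) ≤ δ := by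
  obtain ⟨C, hC1, hC⟩ := ss_step4 π r hπ M hinv htwist htf G₀ h1 (δ / (G₀.card + 1))
    (by positivity) 0
  refine ⟨C, hC1, ?_⟩
  have h2 : ssmu M (ssU π C) ≤ ∑ g ∈ G₀, ssmu M (ssB π g 0 ∩ ssU π C) := by
    refine ssmu_sum M G₀ _ _ fun ω hω => ?_
    obtain ⟨i, n⟩ := ω
    obtain ⟨g, hg, hbar⟩ := hB i n
    exact ⟨g, hg, ⟨n, by simp, hbar⟩, hω⟩
  have h3 : ∑ g ∈ G₀, ssmu M (ssB π g 0 ∩ ssU π C) ≤ ∑ _g ∈ G₀, δ / (G₀.card + 1) :=
    Finset.sum_le_sum hC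
  rw [Finset.sum_const, nsmul_eq_mul] at h3
  have h4 : (G₀.card : ℝ) * (δ / (G₀.card + 1)) ≤ δ := by
    have h5 : (0 : ℝ) < (G₀.card : ℝ) + 1 := by positivity
    rw [mul_div_assoc', div_le_iff₀ h5]
    nlinarith
  exact h2.trans (h3.trans h4)

end JF

end Pool.Agent.Helper894.FS
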