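import Pool.Agent.Helper894.FS.Sub

namespace Pool.Agent.Helper894.FS

namespace JG1

open scoped BigOperators


theorem isOpen_cyl8706 {A : Type} [TopologicalSpace A] [DiscreteTopology A]
    (F : Set (List A)) (m : ℕ) (x : SF F) :
    IsOpen {y : SF F | ∀ i : ℤ, |i| ≤ m → y.1 i = x.1 i} := by
  have e : {y : SF F | ∀ i : ℤ, |i| ≤ m → y.1 i = x.1 i} =
      ⋂ i ∈ (Finset.Icc (-(m : ℤ)) m), {y : SF F | y.1 i = x.1 i} := by
    ext y
    simp only [Set.mem_setOf_eq, Set.mem_iInter, Finset.mem_Icc, abs_le]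
  rw [e]
  apply isOpen_biInter_finset
  intro i _
  have h1 : Continuous fun y : SF F => y.1 i := (continuous_apply i).comp continuous_subtype_val
  exact (isOpen_discrete ({x.1 i} : Set A)).preimage h1

theorem exists_cyl8706 {A : Type} [TopologicalSpace A] [DiscreteTopology A]
    (F : Set (List A)) (U : Set (SF F)) (hU : IsOpen U) (x : SF F) (hx : x ∈ U) :
    ∃ m : ℕ, ∀ y : SF F, (∀ i : ℤ, |i| ≤ m → y.1 i = x.1 i) → y ∈ U := by
  obtain ⟨V, hV, rfl⟩ := isOpen_induced_iff.mp hU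
  obtain ⟨I, u, hu, hsub⟩ := isOpen_pi_iff.mp hV x.1 hx
  refine ⟨I.sup (fun i => i.natAbs), fun y hy => ?_⟩
  apply hsub
  intro i hi
  have h1 : i.natAbs ≤ I.sup (fun i => i.natAbs) := Finset.le_sup (f := fun i : ℤ => i.natAbs) hi
  have h2 : y.1 i = x.1 i := hy i (by
    have : (|i| : ℤ) = (i.natAbs : ℤ) := (Int.natCast_natAbs i).symm
    rw [this]
    exact_mod_cast h1)
  have := (hu i hi).2
  show y.1 i ∈ u i
  rw [h2]
  exact this

theorem isClosed_SF8706 {A : Type} [TopologicalSpace A] [DiscreteTopology A]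
    (F : Set (List A)) : IsClosed (SF F) := by
  have e : SF F = ⋂ w ∈ F, ⋂ n : ℤ, {x : ℤ → A | ∀ (i : ℕ) (h : i < w.length), x (n + i) = w[i]}ᶜ := by
    ext x
    simp only [SF, Occurs, Set.mem_setOf_eq, Set.mem_iInter, Set.mem_compl_iff, not_exists]
  rw [e]
  refine isClosed_biInter fun w _ => isClosed_iInter fun n => ?_
  rw [isClosed_compl_iff]
  have e2 : {x : ℤ → A | ∀ (i : ℕ) (h : i < w.length), x (n + i) = w[i]} =
      ⋂ i : Fin w.length, {x : ℤ → A | x (n + (i : ℕ)) = w[(i : ℕ)]} := by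
    ext x
    simp only [Set.mem_setOf_eq, Set.mem_iInter]
    exact ⟨fun h i => h i i.2, fun h i hi => h ⟨i, hi⟩⟩
  rw [e2]
  refine isOpen_iInter_of_finite fun i => ?_
  have h1 : Continuous fun y : ℤ → A => y (n + (i : ℕ)) := continuous_apply _
  exact (isOpen_discrete ({w[(i : ℕ)]} : Set A)).preimage h1

/-- homeomorphism given locally by shifts -/
def Loc8706 {A : Type} [TopologicalSpace A] [DiscreteTopology A] (F : Set (List A))
    (h : SF F → SF F) : Prop :=
  ∀ x, ∃ U : Set (SF F), IsOpen U ∧ x ∈ U ∧ ∃ k : ℤ, ∀ y ∈ U, (h y : ℤ → A) = sh k y.1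

theorem loc_phi8706 {A : Type} [TopologicalSpace A] [DiscreteTopology A] (F : Set (List A))
    (hF : ∀ a : A, [a, a] ∈ F) (a : A) : Loc8706 F (phi F hF a) := by
  intro x
  refine ⟨{y : SF F | ∀ i : ℤ, |i| ≤ (1 : ℕ) → y.1 i = x.1 i}, isOpen_cyl8706 F 1 x,
    fun i _ => rfl, ?_⟩
  by_cases h1 : x.1 1 = a
  · refine ⟨1, fun y hy => ?_⟩
    have : y.1 1 = a := (hy 1 (by norm_num)).trans h1
    show phiFun a y.1 = _
    simp [phiFun, this]
  · by_cases h0 : x.1 0 = a
    · refine ⟨-1, fun y hy => ?_⟩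
      have t1 : y.1 1 ≠ a := by rw [hy 1 (by norm_num)]; exact h1
      have t0 : y.1 0 = a := (hy 0 (by norm_num)).trans h0
      show phiFun a y.1 = _
      simp [phiFun, t1, t0]
    · refine ⟨0, fun y hy => ?_⟩
      have t1 : y.1 1 ≠ a := by rw [hy 1 (by norm_num)]; exact h1
      have t0 : y.1 0 ≠ a := by rw [hy 0 (by norm_num)]; exact h0
      show phiFun a y.1 = _
      simp [phiFun, t1, t0, sh_zero]

theorem loc_GF8706 {A : Type} [TopologicalSpace A] [DiscreteTopology A] (F : Set (List A))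
    (hF : ∀ a : A, [a, a] ∈ F) (g : SF F ≃ₜ SF F) (hg : g ∈ GF F hF) : Loc8706 F g := by
  induction hg using Subgroup.closure_induction with
  | mem g hg =>
    obtain ⟨a, rfl⟩ := hg
    exact loc_phi8706 F hF a
  | one =>
    intro x
    exact ⟨Set.univ, isOpen_univ, trivial, 0, fun y _ => (sh_zero y.1).symm⟩
  | mul g h _ _ hg hh =>
    intro x
    obtain ⟨U, hU, hxU, k, hk⟩ := hh x
    obtain ⟨V, hV, hxV, l, hl⟩ := hg (h x)
    refine ⟨U ∩ h ⁻¹' V, hU.inter (hV.preimage h.continuous), ⟨hxU, hxV⟩, l + k, ?_⟩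
    rintro y ⟨hyU, hyV⟩
    show (g (h y)).1 = _
    rw [hl (h y) hyV, hk y hyU, sh_sh]
  | inv g _ hg =>
    intro x
    obtain ⟨U, hU, hxU, k, hk⟩ := hg (g.symm x)
    refine ⟨g.symm ⁻¹' U, hU.preimage g.symm.continuous, hxU, -k, ?_⟩
    intro y hy
    show (g.symm y).1 = _
    have := hk (g.symm y) hy
    rw [g.apply_symm_apply] at this
    rw [this, sh_sh]
    simp [sh_zero]

theorem loc_full8706 {A : Type} [TopologicalSpace A] [DiscreteTopology A] (F : Set (List A))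
    (hF : ∀ a : A, [a, a] ∈ F) (h : SF F ≃ₜ SF F) (hh : h ∈ FullG F hF) : Loc8706 F h := by
  intro x
  obtain ⟨U, hU, hxU, g, hg, hgU⟩ := (mem_FullG F hF h).mp hh x
  obtain ⟨V, hV, hxV, k, hk⟩ := loc_GF8706 F hF g hg x
  refine ⟨U ∩ V, hU.inter hV, ⟨hxU, hxV⟩, k, ?_⟩
  rintro y ⟨hyU, hyV⟩
  rw [hgU y hyU, hk y hyV]

/-- elements of the full group are given by bounded local cocycles -/
theorem exists_cocycle {A : Type} [Finite A] [TopologicalSpace A] [DiscreteTopology A]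
    (F : Set (List A)) (hF : ∀ a : A, [a, a] ∈ F) (h : SF F ≃ₜ SF F) (hh : h ∈ FullG F hF) :
    ∃ (r κ : ℕ) (c : SF F → ℤ), (∀ x, (h x : ℤ → A) = sh (c x) x.1) ∧ (∀ x, |c x| ≤ r) ∧
      ∀ x y : SF F, (∀ i : ℤ, |i| ≤ κ → x.1 i = y.1 i) → c x = c y := by
  classical
  have hloc := loc_full8706 F hF h hh
  haveI : CompactSpace (SF F) := isCompact_iff_compactSpace.mp (isClosed_SF8706 F).isCompact
  choose U hU hxU k hk using hloc
  choose m hm using fun x => exists_cyl8706 F (U x) (hU x) x (hxU x)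
  obtain ⟨T, hT⟩ := isCompact_univ.elim_finite_subcover
    (fun x : SF F => {y : SF F | ∀ i : ℤ, |i| ≤ m x → y.1 i = x.1 i})
    (fun x => isOpen_cyl8706 F (m x) x)
    (fun x _ => Set.mem_iUnion.mpr ⟨x, fun i _ => rfl⟩)
  have hT' : ∀ y : SF F, ∃ x ∈ T, ∀ i : ℤ, |i| ≤ m x → y.1 i = x.1 i := by
    intro y
    have := hT (Set.mem_univ y)
    simpa only [Set.mem_iUnion, exists_prop, Set.mem_setOf_eq] using this
  set κ : ℕ := T.sup m with hκ
  set r : ℕ := T.sup (fun x => (k x).natAbs) with hr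
  -- predicate on restrictions
  let P : ({i : ℤ // |i| ≤ κ} → A) → ℤ → Prop := fun w j =>
    |j| ≤ r ∧ ∀ y : SF F, (∀ i : {i : ℤ // |i| ≤ κ}, y.1 i = w i) → (h y : ℤ → A) = sh j y.1
  let pick : ({i : ℤ // |i| ≤ κ} → A) → ℤ := fun w =>
    if hw : ∃ j, P w j then hw.choose else 0
  have hex : ∀ x : SF F, ∃ j, P (fun i => x.1 i) j := by
    intro x
    obtain ⟨z, hz, hzx⟩ := hT' x
    refine ⟨k z, ?_, ?_⟩
    · have h1 : (k z).natAbs ≤ r := Finset.le_sup (f := fun x => (k x).natAbs) hz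
      have : (|k z| : ℤ) = ((k z).natAbs : ℤ) := (Int.natCast_natAbs _).symm
      rw [this]
      exact_mod_cast h1
    · intro y hy
      apply hk z y
      apply hm z y
      intro i hi
      have h1 : m z ≤ κ := Finset.le_sup hz
      have h2 : |i| ≤ κ := hi.trans (by exact_mod_cast h1)
      have := hy ⟨i, h2⟩
      exact this.trans (hzx i hi)
  have hpick : ∀ x : SF F, P (fun i => x.1 i) (pick (fun i => x.1 i)) := by
    intro x
    have := (hex x).choose_spec
    simp only [pick, dif_pos (hex x)]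
    exact this
  refine ⟨r, κ, fun x => pick (fun i => x.1 i), ?_, ?_, ?_⟩
  · intro x
    exact (hpick x).2 x (fun i => rfl)
  · intro x
    exact (hpick x).1
  · intro x y hxy
    have : (fun i : {i : ℤ // |i| ≤ κ} => x.1 i) = fun i : {i : ℤ // |i| ≤ κ} => y.1 i := by
      funext i
      exact hxy i i.2
    show pick _ = pick _
    rw [this]

end JG1

end Pool.Agent.Helper894.FS
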