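import Pool.Agent.Helper894.FS.Defs

namespace Pool.Agent.Helper894.FS

namespace JG4

open scoped BigOperators


/-- numerical iteration -/
theorem iterate_law (N : ℕ → ℕ) (hN : Monotone N)
    (h : ∀ ε : ℝ, 0 < ε → ∀ n₀ : ℕ, ∃ n ≥ n₀, Real.log (N n) ≤ ε * Real.sqrt n)
    (P : ℕ → ℝ → Prop) (hstep : ∀ (l : ℕ) (α : ℝ), 0 ≤ α → P l α → P (4 * l + 8) (48 * α ^ 2))
    (l₀ : ℕ) (h0 : P l₀ (1 / 96)) (r κ : ℕ) :
    ∃ (l : ℕ) (α : ℝ), P l α ∧ (N (2 * (l * r + κ) + 1) : ℝ) * α < 1 := by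
  obtain ⟨L, hL0, hLs⟩ : ∃ L : ℕ → ℕ, L 0 = l₀ ∧ ∀ d, L (d + 1) = 4 * L d + 8 :=
    ⟨fun d => Nat.rec l₀ (fun _ x => 4 * x + 8) d, rfl, fun _ => rfl⟩
  have hP : ∀ d, P (L d) ((1 / 48) * (1 / 2 : ℝ) ^ (2 ^ d)) := by
    intro d
    induction d with
    | zero =>
      rw [hL0]
      have e : (1 / 48 : ℝ) * (1 / 2 : ℝ) ^ (2 ^ 0) = 1 / 96 := by norm_num
      rw [e]
      exact h0
    | succ d ih =>
      have h1 := hstep (L d) _ (by positivity) ih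
      rw [hLs]
      have e : (48 : ℝ) * ((1 / 48) * (1 / 2 : ℝ) ^ (2 ^ d)) ^ 2 =
          (1 / 48) * (1 / 2 : ℝ) ^ (2 ^ (d + 1)) := by
        rw [pow_succ 2 d, pow_mul]
        ring
      rw [e] at h1
      exact h1
  have hLle : ∀ d, L d + 3 ≤ 4 ^ d * (l₀ + 3) := by
    intro d
    induction d with
    | zero => rw [hL0]; simp
    | succ d ih =>
      rw [hLs, pow_succ]
      have e : 4 ^ d * 4 * (l₀ + 3) = 4 * (4 ^ d * (l₀ + 3)) := by ring
      rw [e]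
      omega
  obtain ⟨K, hK⟩ : ∃ K : ℕ, K = 2 * (l₀ + 3) * r + 2 * κ + 1 := ⟨_, rfl⟩
  have hK0 : 0 < K := by omega
  have hm : ∀ d, 2 * (L d * r + κ) + 1 ≤ 4 ^ d * K := by
    intro d
    have h1 : L d * r ≤ 4 ^ d * (l₀ + 3) * r := Nat.mul_le_mul_right _ (by have := hLle d; omega)
    have h2 : 1 * (2 * κ + 1) ≤ 4 ^ d * (2 * κ + 1) :=
      Nat.mul_le_mul_right _ (Nat.one_le_pow _ _ (by norm_num))
    rw [hK]
    have e : 4 ^ d * (2 * (l₀ + 3) * r + 2 * κ + 1) =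
        2 * (4 ^ d * (l₀ + 3) * r) + 4 ^ d * (2 * κ + 1) := by ring
    rw [e]
    omega
  have hKr : (0 : ℝ) < K := by exact_mod_cast hK0
  have hsK : 0 < Real.sqrt K := Real.sqrt_pos.2 hKr
  obtain ⟨n, hnK, hn⟩ := h (1 / (4 * Real.sqrt K)) (by positivity) K
  obtain ⟨d, hd⟩ : ∃ d, d = Nat.log 4 (n / K) := ⟨_, rfl⟩
  have hq : n / K ≠ 0 := by
    have : 0 < n / K := Nat.div_pos hnK hK0
    omega
  have hd1 : 4 ^ d * K ≤ n := by
    rw [← Nat.le_div_iff_mul_le hK0, hd]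
    exact Nat.pow_log_le_self 4 hq
  have hd2 : n < 4 ^ (d + 1) * K := by
    rw [← Nat.div_lt_iff_lt_mul hK0, hd]
    exact Nat.lt_pow_succ_log_self (by norm_num) _
  refine ⟨L d, (1 / 48) * (1 / 2 : ℝ) ^ (2 ^ d), hP d, ?_⟩
  have hNle : N (2 * (L d * r + κ) + 1) ≤ N n := hN ((hm d).trans hd1)
  by_cases hN0 : N (2 * (L d * r + κ) + 1) = 0
  · rw [hN0]
    simp
  · have hNpos : (0 : ℝ) < N (2 * (L d * r + κ) + 1) := by
      exact_mod_cast Nat.pos_of_ne_zero hN0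
    have h1 : Real.log (N (2 * (L d * r + κ) + 1)) ≤ Real.log (N n) :=
      Real.log_le_log hNpos (by exact_mod_cast hNle)
    have h2 : Real.sqrt n ≤ 2 ^ (d + 1) * Real.sqrt K := by
      have e : (2 : ℝ) ^ (d + 1) * Real.sqrt K = Real.sqrt ((4 : ℝ) ^ (d + 1) * K) := by
        rw [Real.sqrt_mul (by positivity)]
        congr 1
        have e2 : (4 : ℝ) ^ (d + 1) = (2 ^ (d + 1)) ^ 2 := by
          rw [← pow_mul, mul_comm (d + 1) 2, pow_mul]
          norm_num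
        rw [e2, Real.sqrt_sq (by positivity)]
      rw [e]
      apply Real.sqrt_le_sqrt
      have : (n : ℝ) ≤ ((4 ^ (d + 1) * K : ℕ) : ℝ) := by exact_mod_cast hd2.le
      push_cast at this
      exact this
    have h3 : Real.log (N (2 * (L d * r + κ) + 1)) ≤ (2 : ℝ) ^ d / 2 := by
      calc Real.log (N (2 * (L d * r + κ) + 1)) ≤ 1 / (4 * Real.sqrt K) * Real.sqrt n := h1.trans hn
        _ ≤ 1 / (4 * Real.sqrt K) * (2 ^ (d + 1) * Real.sqrt K) :=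
          mul_le_mul_of_nonneg_left h2 (by positivity)
        _ = (2 : ℝ) ^ d / 2 := by
          rw [pow_succ]
          field_simp
          ring
    have h4 : (N (2 * (L d * r + κ) + 1) : ℝ) ≤ Real.exp ((2 : ℝ) ^ d / 2) := by
      rw [← Real.exp_log hNpos]
      exact Real.exp_le_exp.2 h3
    have h5 : Real.exp (1 / 2) ≤ 2 := by
      have e : Real.exp (1 / 2) ^ 2 = Real.exp 1 := by
        rw [← Real.exp_nat_mul]
        norm_num
      have e1 := Real.exp_one_lt_d9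
      have e2 := Real.exp_pos (1 / 2)
      nlinarith
    have h6 : Real.exp ((2 : ℝ) ^ d / 2) ≤ 2 ^ (2 ^ d) := by
      have e : Real.exp ((2 : ℝ) ^ d / 2) = Real.exp (1 / 2) ^ (2 ^ d) := by
        rw [← Real.exp_nat_mul]
        congr 1
        push_cast
        ring
      rw [e]
      exact pow_le_pow_left₀ (Real.exp_pos _).le h5 _
    calc (N (2 * (L d * r + κ) + 1) : ℝ) * ((1 / 48) * (1 / 2 : ℝ) ^ (2 ^ d))
        ≤ 2 ^ (2 ^ d) * ((1 / 48) * (1 / 2 : ℝ) ^ (2 ^ d)) :=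
          mul_le_mul_of_nonneg_right (h4.trans h6) (by positivity)
      _ = (1 / 48) * ((2 * (1 / 2 : ℝ)) ^ (2 ^ d)) := by rw [mul_pow]; ring
      _ < 1 := by norm_num

end JG4

end Pool.Agent.Helper894.FS
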