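import Pool.Agent.Helper894.FS.Defs

namespace Pool.Agent.Helper894.FS

namespace JK

open scoped BigOperators



theorem mem_words_8651 (n : ℕ) (l : List Lt) : l ∈ words n ↔ l.length = n := by
  induction n generalizing l with
  | zero => simp [words, List.length_eq_zero_iff]
  | succ n ih =>
    cases l with
    | nil => simp [words]
    | cons s l =>
      simp only [words, Finset.mem_map, Finset.mem_product, Finset.mem_univ, true_and,
        Function.Embedding.coeFn_mk, List.length_cons, Nat.add_right_cancel_iff]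
      constructor
      · rintro ⟨p, hp, he⟩
        have he' : p.1 :: p.2 = s :: l := he
        simp only [List.cons.injEq] at he'
        rw [← he'.2]
        exact (ih _).1 hp
      · intro h
        exact ⟨(s, l), (ih _).2 h, rfl⟩

theorem step_8651 (g : F2) :
    ∑ s : Lt, (3 / 5 : ℝ) ^ (lt s * g).norm ≤ 67 / 15 * (3 / 5 : ℝ) ^ g.norm := by
  have hL : ∀ p : Bool × Bool, (FreeGroup.mk [p] * g).toWord =
      FreeGroup.reduce (p :: g.toWord) := by
    intro p
    conv_lhs => rw [← FreeGroup.mk_toWord (x := g)]
    rw [FreeGroup.mul_mk, FreeGroup.toWord_mk]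
    rfl
  have hr : FreeGroup.reduce g.toWord = g.toWord := FreeGroup.reduce_toWord g
  rw [Fintype.sum_option]
  simp only [lt, one_mul, FreeGroup.norm, hL, FreeGroup.reduce.cons, hr]
  rw [Fintype.sum_prod_type]
  simp only [Fintype.sum_bool]
  rcases g.toWord with _ | ⟨⟨a, b⟩, tl⟩
  · simp
    norm_num
  · have h1 : 0 ≤ (3 / 5 : ℝ) ^ tl.length := by positivity
    cases a <;> cases b <;> simp [pow_succ] <;> nlinarith

theorem sum_8651 (n : ℕ) (g : F2) :
    ∑ l ∈ words n, (3 / 5 : ℝ) ^ (ev l * g).norm ≤ (67 / 15) ^ n * (3 / 5 : ℝ) ^ g.norm := by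
  induction n generalizing g with
  | zero => simp [words, ev]
  | succ n ih =>
    rw [words, Finset.sum_map, Finset.sum_product]
    change ∑ s : Lt, ∑ l ∈ words n, (3 / 5 : ℝ) ^ (ev l * lt s * g).norm ≤ _
    calc ∑ s : Lt, ∑ l ∈ words n, (3 / 5 : ℝ) ^ (ev l * lt s * g).norm
        ≤ ∑ s : Lt, (67 / 15) ^ n * (3 / 5 : ℝ) ^ (lt s * g).norm := by
          refine Finset.sum_le_sum fun s _ => ?_
          have := ih (lt s * g)
          simpa only [mul_assoc] using this
      _ = (67 / 15) ^ n * ∑ s : Lt, (3 / 5 : ℝ) ^ (lt s * g).norm := by rw [Finset.mul_sum]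
      _ ≤ (67 / 15) ^ n * (67 / 15 * (3 / 5 : ℝ) ^ g.norm) :=
          mul_le_mul_of_nonneg_left (step_8651 g) (by positivity)
      _ = _ := by ring

/-- few words of length m are trivial in the free group -/
theorem card_trivial (m : ℕ) :
    (((words m).filter (fun l => ev l = 1)).card : ℝ) ≤ (67 / 15) ^ m := by
  have h := sum_8651 m 1
  rw [FreeGroup.norm_one, pow_zero, mul_one] at h
  refine le_trans ?_ h
  have e : (((words m).filter (fun l => ev l = 1)).card : ℝ) =
      ∑ l ∈ (words m).filter (fun l => ev l = 1), (3 / 5 : ℝ) ^ (ev l * 1).norm := by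
    rw [Finset.card_eq_sum_ones]
    push_cast
    refine Finset.sum_congr rfl fun l hl => ?_
    rw [(Finset.mem_filter.1 hl).2, mul_one, FreeGroup.norm_one, pow_zero]
  rw [e]
  exact Finset.sum_le_sum_of_subset_of_nonneg (Finset.filter_subset _ _)
    fun _ _ _ => by positivity

/-- inverse letter -/
def inv_8651 : Lt → Lt := Option.map (fun p => (p.1, !p.2))

theorem lt_inv_8651 (s : Lt) : lt (inv_8651 s) = (lt s)⁻¹ := by
  cases s with
  | none => simp [inv_8651, lt]
  | some p => simp [inv_8651, lt, FreeGroup.inv_mk, FreeGroup.invRev]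

theorem inv_inv_8651 (s : Lt) : inv_8651 (inv_8651 s) = s := by
  cases s with
  | none => simp [inv_8651]
  | some p => simp [inv_8651]

theorem ev_append_8651 (l₁ l₂ : List Lt) : ev (l₁ ++ l₂) = ev l₂ * ev l₁ := by
  induction l₁ with
  | nil => simp [ev]
  | cons s l ih => simp [ev, ih, mul_assoc]

theorem ev_inv_8651 (l : List Lt) : ev (l.map inv_8651).reverse = (ev l)⁻¹ := by
  induction l with
  | nil => simp [ev]
  | cons s l ih =>
    rw [List.map_cons, List.reverse_cons, ev_append_8651, ih]
    simp [ev, lt_inv_8651]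

/-- few pairs of words of length n are equal in the free group -/
theorem card_pairs (n : ℕ) :
    (((words n ×ˢ words n).filter (fun p => ev p.1 = ev p.2)).card : ℝ) ≤ 20 ^ n := by
  have h1 : ((words n ×ˢ words n).filter (fun p => ev p.1 = ev p.2)).card ≤
      ((words (2 * n)).filter (fun l => ev l = 1)).card := by
    refine Finset.card_le_card_of_injOn (fun p => p.1 ++ (p.2.map inv_8651).reverse) ?_ ?_
    · intro p hp
      simp only [Finset.coe_filter, Finset.mem_product, mem_words_8651, Set.mem_setOf_eq] at hp ⊢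
      refine ⟨?_, ?_⟩
      · simp only [List.length_append, List.length_reverse, List.length_map]
        omega
      · rw [ev_append_8651, ev_inv_8651, hp.2]
        simp
    · intro p hp q hq he
      simp only [Finset.coe_filter, Finset.mem_product, mem_words_8651, Set.mem_setOf_eq] at hp hq
      obtain ⟨h1, h2⟩ := List.append_inj he (hp.1.1.trans hq.1.1.symm)
      refine Prod.ext h1 ?_
      have h3 := List.reverse_injective h2
      exact List.map_injective_iff.2 (Function.LeftInverse.injective inv_inv_8651) h3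
  calc (((words n ×ˢ words n).filter (fun p => ev p.1 = ev p.2)).card : ℝ)
      ≤ (((words (2 * n)).filter (fun l => ev l = 1)).card : ℝ) := by exact_mod_cast h1
    _ ≤ (67 / 15) ^ (2 * n) := card_trivial _
    _ = (4489 / 225) ^ n := by rw [pow_mul]; norm_num
    _ ≤ 20 ^ n := pow_le_pow_left₀ (by norm_num) (by norm_num) n

end JK

end Pool.Agent.Helper894.FS
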