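import Pool.Agent.Helper894.FS.Sub

namespace Pool.Agent.Helper894.FS

open scoped BigOperators

variable {A : Type} {S : Set (ℤ → A)}

/-- the point of S obtained by shifting -/
def shS (hS : ∀ (k : ℤ), ∀ x ∈ S, sh k x ∈ S) (k : ℤ) (x : S) : S := ⟨sh k x.1, hS k x.1 x.2⟩

theorem line_bijective (hS : ∀ (k : ℤ), ∀ x ∈ S, sh k x ∈ S) (h : Equiv.Perm S) (c : S → ℤ)
    (hc : ∀ x, (h x : ℤ → A) = sh (c x) x.1) (x : S) :
    Function.Bijective (fun n : ℤ => n + c (shS hS n x)) := by
  have key : ∀ n : ℤ, (h (shS hS n x) : ℤ → A) = sh (n + c (shS hS n x)) x.1 := by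
    intro n
    rw [hc, shS, sh_sh, add_comm]
  constructor
  · intro n m hnm
    have e1 := key n
    have e2 := key m
    simp only at hnm
    rw [← hnm] at e2
    have e3 : h (shS hS n x) = h (shS hS m x) := Subtype.ext (e1.trans e2.symm)
    have e4 := h.injective e3
    rw [e4] at hnm
    omega
  · intro q
    set z := h.symm (shS hS q x) with hz
    have e1 : h z = shS hS q x := by rw [hz, h.apply_symm_apply]
    have e2 : sh (c z) z.1 = sh q x.1 := by
      rw [← hc, e1, shS]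
    have e3 : z = shS hS (q - c z) x := by
      apply Subtype.ext
      have : sh (-c z) (sh (c z) z.1) = sh (-c z) (sh q x.1) := by rw [e2]
      rw [sh_sh, sh_sh] at this
      rw [shS]
      simp only
      rw [neg_add_cancel, sh_zero] at this
      rw [this]
      congr 1
      ring
    refine ⟨q - c z, ?_⟩
    simp only
    rw [← e3]
    ring

/-- line permutation of a permutation with a cocycle -/
noncomputable def linePerm (hS : ∀ (k : ℤ), ∀ x ∈ S, sh k x ∈ S) (h : Equiv.Perm S) (c : S → ℤ)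
    (hc : ∀ x, (h x : ℤ → A) = sh (c x) x.1) (x : S) : Equiv.Perm ℤ :=
  Equiv.ofBijective _ (line_bijective hS h c hc x)

theorem linePerm_apply (hS : ∀ (k : ℤ), ∀ x ∈ S, sh k x ∈ S) (h : Equiv.Perm S) (c : S → ℤ)
    (hc : ∀ x, (h x : ℤ → A) = sh (c x) x.1) (x : S) (n : ℤ) :
    linePerm hS h c hc x n = n + c (shS hS n x) := rfl

/-- the action of the free group on the line of x -/
noncomputable def lineHom (hS : ∀ (k : ℤ), ∀ x ∈ S, sh k x ∈ S) (a : Bool → Equiv.Perm S)
    (c : Bool → S → ℤ) (hc : ∀ b x, (a b x : ℤ → A) = sh (c b x) x.1) (x : S) :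
    F2 →* Equiv.Perm ℤ := FreeGroup.lift (fun b => linePerm hS (a b) (c b) (hc b) x)

theorem lineHom_of (hS : ∀ (k : ℤ), ∀ x ∈ S, sh k x ∈ S) (a : Bool → Equiv.Perm S)
    (c : Bool → S → ℤ) (hc : ∀ b x, (a b x : ℤ → A) = sh (c b x) x.1) (x : S) (b : Bool)
    (n : ℤ) : lineHom hS a c hc x (FreeGroup.of b) n = n + c b (shS hS n x) := by
  rw [lineHom, FreeGroup.lift_apply_of, linePerm_apply]

theorem lineHom_disp (hS : ∀ (k : ℤ), ∀ x ∈ S, sh k x ∈ S) (a : Bool → Equiv.Perm S)
    (c : Bool → S → ℤ) (hc : ∀ b x, (a b x : ℤ → A) = sh (c b x) x.1) (r : ℕ)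
    (hr : ∀ b x, |c b x| ≤ r) (x : S) : Disp r (lineHom hS a c hc x) := by
  intro b n
  rw [lineHom_of]
  simpa using hr b _

theorem lift_shS (hS : ∀ (k : ℤ), ∀ x ∈ S, sh k x ∈ S) (a : Bool → Equiv.Perm S)
    (c : Bool → S → ℤ) (hc : ∀ b x, (a b x : ℤ → A) = sh (c b x) x.1) (g : F2) :
    ∀ (x : S) (n : ℤ), FreeGroup.lift a g (shS hS n x) =
      shS hS (lineHom hS a c hc x g n) x := by
  have hof : ∀ (b : Bool) (x : S) (n : ℤ), a b (shS hS n x) =
      shS hS (lineHom hS a c hc x (FreeGroup.of b) n) x := by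
    intro b x n
    apply Subtype.ext
    rw [hc, lineHom_of]
    simp only [shS, sh_sh]
    rw [add_comm]
  induction g using FreeGroup.induction_on with
  | C1 => intro x n; simp
  | of b => intro x n; rw [FreeGroup.lift_apply_of]; exact hof b x n
  | inv_of b _ =>
    intro x n
    rw [map_inv, map_inv, FreeGroup.lift_apply_of]
    rw [Equiv.Perm.inv_eq_iff_eq, hof]
    congr 1
    simp
  | mul g h hg hh =>
    intro x n
    rw [map_mul, map_mul, Equiv.Perm.mul_apply, Equiv.Perm.mul_apply, hh, hg]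

end Pool.Agent.Helper894.FS
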