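import Pool.Agent.Helper894.FS.Union2
import Pool.Agent.Helper894.FS.JA
import Pool.Agent.Helper894.FS.JK
import Pool.Agent.Helper894.FS.JB
import Pool.Agent.Helper894.FS.JD1
import Pool.Agent.Helper894.FS.JD2
import Pool.Agent.Helper894.FS.JD3
import Pool.Agent.Helper894.FS.JC
import Pool.Agent.Helper894.FS.JE
import Pool.Agent.Helper894.FS.JF
import Pool.Agent.Helper894.FS.JG1
import Pool.Agent.Helper894.FS.JG4

namespace Pool.Agent.Helper894.FS

open scoped BigOperators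

theorem avg_slice {I : Type*} (π : I → (F2 →* Equiv.Perm ℤ)) (n : ℕ) (G : I × ℤ → ℝ) (i : I) :
    ∀ z : ℤ, ((avg (prodAct π))^[n] G) (i, z) = ((avg (π i))^[n] (fun y => G (i, y))) z := by
  induction n with
  | zero => intro z; rfl
  | succ n ih =>
    intro z
    rw [Function.iterate_succ_apply', Function.iterate_succ_apply', avg, avg]
    congr 1
    apply Finset.sum_congr rfl
    intro s _
    rw [prodAct_apply, ih]

/-- the disp lemmas combined: tail estimate -/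
theorem tail_final (r : ℕ) (ε : ℝ) (hε : 0 < ε) :
    ∀ᶠ j : ℕ in Filter.atTop, ∀ n ≤ j ^ 4, ∀ (π : F2 →* Equiv.Perm ℤ), Disp r π → ∀ z : ℤ,
      (((words n).filter (fun l => ((j ^ 3 : ℕ) : ℤ) ≤ |π (ev l) z - z|)).card : ℝ) ≤
        ε / ((j : ℝ) ^ 4 + 1) ^ 2 * 5 ^ n :=
  JD2.tail_eventually r (fun π hπ => JD2.tail r π hπ (fun W δ hW hδ f hf =>
    JD1.weighted π r hπ W δ hW hδ f hf)) ε hε

/-- universal laws with small supports on all lines -/
theorem core (r : ℕ) (α : ℝ) (hα : 0 < α) : ∃ l, HasLaw (univAct r) l α := by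
  by_contra hcon
  push Not at hcon
  have : Nonempty (LA r × ℤ) := ⟨⟨⟨1, fun x n => by simp⟩, 0⟩⟩
  have hno : ¬ ∃ (ι : Type) (_ : Fintype ι) (c : ι → ℝ) (g : ι → F2), (∀ i, 0 ≤ c i) ∧
      ∑ i, c i = 1 ∧ (∀ i, g i ≠ 1) ∧
      ∀ ω, ∑ i, c i * Set.indicator {ω' | univAct r (g i) ω' ≠ ω'}
        (fun _ => (1 : ℝ)) ω ≤ α := by
    rintro ⟨ι, hι, c, g, h1, h2, h3, h4⟩
    exact hcon (Finset.univ.sup fun i => (g i).norm) ⟨ι, hι, c, g, h1, h2, h3,
      fun i => Finset.le_sup (f := fun i => (g i).norm) (Finset.mem_univ i), h4⟩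
  have hD : ∀ ε : ℝ, 0 < ε → ∃ N : ℕ, 0 < N ∧ ∀ F : LA r × ℤ → ℝ, (∀ ω, |F ω| ≤ 1) →
      ∀ (s : Lt) (ω : LA r × ℤ), |(1 / (N : ℝ)) * ∑ n ∈ Finset.range N,
        ((avg (univAct r))^[n] (fun ω' => F ω' - F (univAct r (lt s) ω'))) ω| ≤ ε := by
    intro ε hε
    obtain ⟨j, hj1, hj2⟩ := ((JD3.tv r (fun π f hf => JD1.energy π f hf)
      (fun ε' hε' => tail_final r ε' hε') ε hε).and
      (Filter.eventually_gt_atTop 0)).exists
    refine ⟨j ^ 4, pow_pos hj2 4, ?_⟩
    rintro F hF s ⟨π, z⟩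
    have h := hj1 π.1 π.2 (fun y => F (π, y)) (fun y => hF _) s z
    push_cast
    simp only [univAct, avg_slice]
    exact h
  obtain ⟨M, hinv, hmass⟩ := JC.exists_mean (univAct r) α hα hD hno
  obtain ⟨G₀, hG1, hG2⟩ := JE.barriers r JK.card_pairs (fun ε hε => tail_final r ε hε)
  obtain ⟨C, hC1, hC2⟩ := JF.small_support (fun π : LA r => π.1) r (fun π => π.2) M hinv G₀ hG1
    (fun π n => hG2 π.1 π.2 n)
    (fun g g' hg hg' => by
      obtain ⟨p, q, h⟩ := JA.twist g g' hg hg'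
      exact ⟨_, h⟩) JA.torsion_free (α / 2) (half_pos hα)
  have := hmass C hC1
  have h2 : M.m (Set.indicator {ω | univAct r C ω ≠ ω} (fun _ => (1 : ℝ))) ≤ α / 2 := hC2
  linarith

theorem numWords_mono {A : Type} [Finite A] (F : Set (List A)) : Monotone (numWords F) := by
  intro n m hnm
  unfold numWords
  have : Finite {w : Fin m → A // ∃ x ∈ SF F, ∃ k : ℤ, ∀ i : Fin m, x (k + (i : ℕ)) = w i} :=
    Subtype.finite
  apply Nat.card_le_card_of_surjective
    (fun w : {w : Fin m → A // ∃ x ∈ SF F, ∃ k : ℤ, ∀ i : Fin m, x (k + (i : ℕ)) = w i} =>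
      (⟨fun i => w.1 (Fin.castLE hnm i), by
        obtain ⟨x, hx, k, hk⟩ := w.2
        exact ⟨x, hx, k, fun i => hk (Fin.castLE hnm i)⟩⟩ :
        {w : Fin n → A // ∃ x ∈ SF F, ∃ k : ℤ, ∀ i : Fin n, x (k + (i : ℕ)) = w i}))
  rintro ⟨w, x, hx, k, hk⟩
  refine ⟨⟨fun i => x (k + (i : ℕ)), x, hx, k, fun i => rfl⟩, ?_⟩
  apply Subtype.ext
  funext i
  exact hk i

/-- homeomorphisms as permutations -/
def toPermHom (X : Type*) [TopologicalSpace X] : (X ≃ₜ X) →* Equiv.Perm X where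
  toFun h := h.toEquiv
  map_one' := rfl
  map_mul' _ _ := rfl

theorem no_free {A : Type} [Finite A] [TopologicalSpace A] [DiscreteTopology A]
    (F : Set (List A)) (hF : ∀ a : A, [a, a] ∈ F)
    (h : ∀ ε : ℝ, 0 < ε → ∀ n₀ : ℕ, ∃ n ≥ n₀,
      Real.log (numWords F n) ≤ ε * Real.sqrt n)
    (f : F2 →* FullG F hF) : ¬ Function.Injective f := by
  intro hf
  choose r κ c hc hr hκ using fun b : Bool =>
    JG1.exists_cocycle F hF (f (FreeGroup.of b)).1 (f (FreeGroup.of b)).2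
  set a : Bool → Equiv.Perm (SF F) := fun b => toPermHom _ (f (FreeGroup.of b)).1 with ha
  have hlift : FreeGroup.lift a = ((toPermHom (SF F)).comp (FullG F hF).subtype).comp f := by
    apply FreeGroup.ext_hom
    intro b
    rw [FreeGroup.lift_apply_of]
    rfl
  obtain ⟨l₀, hl₀⟩ := core (max (r true) (r false)) (1 / 96) (by norm_num)
  obtain ⟨l, α, hlaw, hlt⟩ := JG4.iterate_law (numWords F) (numWords_mono F) h
    (fun l α => HasLaw (univAct (max (r true) (r false))) l α)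
    (fun l α hα hl => JB.law_step _ JA.twist l α hα hl) l₀ hl₀
    (max (r true) (r false)) (max (κ true) (κ false))
  obtain ⟨g, hg1, hg2⟩ := union_bound F a c (fun b x => hc b x) (max (r true) (r false))
    (max (κ true) (κ false))
    (fun b x => (hr b x).trans (by cases b <;> simp))
    (fun b x y hxy => hκ b x y (fun i hi => hxy i (hi.trans (by cases b <;> simp))))
    l α hlaw hlt
  apply hg1
  apply hf
  rw [map_one]
  rw [hlift] at hg2
  apply Subtype.ext
  have h3 : toPermHom (SF F) (f g).1 = 1 := hg2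
  ext1 x
  exact congrArg (fun p : Equiv.Perm (SF F) => p x) h3

end Pool.Agent.Helper894.FS
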