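import Pool.Agent.Helper894.FS.Defs

namespace Pool.Agent.Helper894.FS

/-- the word w occurs in the bi-infinite word x -/
def Occurs {A : Type} (w : List A) (x : ℤ → A) : Prop :=
  ∃ n : ℤ, ∀ (i : ℕ) (h : i < w.length), x (n + i) = w[i]

/-- the subshift with the set F of forbidden words -/
def SF {A : Type} (F : Set (List A)) : Set (ℤ → A) := {x | ∀ w ∈ F, ¬ Occurs w x}

/-- the k-th power of the left shift -/
def sh {A : Type} (k : ℤ) (x : ℤ → A) : ℤ → A := fun n => x (n + k)

theorem sh_zero {A : Type} (x : ℤ → A) : sh 0 x = x := by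
  funext n; simp [sh]

theorem sh_sh {A : Type} (j k : ℤ) (x : ℤ → A) : sh j (sh k x) = sh (j + k) x := by
  funext n; simp [sh, add_assoc]

theorem sh_mem {A : Type} {F : Set (List A)} (k : ℤ) {x : ℤ → A} (hx : x ∈ SF F) :
    sh k x ∈ SF F := by
  rintro w hw ⟨n, hn⟩
  exact hx w hw ⟨n + k, fun i h => by have := hn i h; simp only [sh] at this; rw [← this]; congr 1; ring⟩

open Classical in
/-- the local shift given by the letter a: move right over the letter a, or left over it -/
noncomputable def phiFun {A : Type} (a : A) (x : ℤ → A) : ℤ → A :=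
  if x 1 = a then sh 1 x else if x 0 = a then sh (-1) x else x

theorem not_aa {A : Type} {F : Set (List A)} (hF : ∀ a : A, [a, a] ∈ F) {x : ℤ → A}
    (hx : x ∈ SF F) (n : ℤ) (a : A) (h0 : x n = a) (h1 : x (n + 1) = a) : False := by
  apply hx _ (hF a)
  refine ⟨n, ?_⟩
  intro i hi
  simp only [List.length_cons, List.length_nil] at hi
  interval_cases i
  · simpa using h0
  · simpa using h1

theorem phiFun_mem {A : Type} {F : Set (List A)} (a : A) {x : ℤ → A} (hx : x ∈ SF F) :
    phiFun a x ∈ SF F := by
  unfold phiFun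
  split_ifs
  · exact sh_mem 1 hx
  · exact sh_mem (-1) hx
  · exact hx

theorem phiFun_phiFun {A : Type} {F : Set (List A)} (hF : ∀ a : A, [a, a] ∈ F) (a : A)
    {x : ℤ → A} (hx : x ∈ SF F) : phiFun a (phiFun a x) = x := by
  by_cases h1 : x 1 = a
  · have e : phiFun a x = sh 1 x := by simp [phiFun, h1]
    rw [e]
    have h2 : (sh 1 x) 1 ≠ a := by
      intro h
      simp only [sh] at h
      exact not_aa hF hx 1 a h1 h
    have h3 : (sh 1 x) 0 = a := by simp [sh, h1]
    simp only [phiFun, if_neg h2, if_pos h3, sh_sh]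
    simpa using sh_zero x
  · by_cases h0 : x 0 = a
    · have e : phiFun a x = sh (-1) x := by simp [phiFun, h1, h0]
      rw [e]
      have h2 : (sh (-1) x) 1 = a := by simp [sh, h0]
      simp only [phiFun, if_pos h2, sh_sh]
      simpa using sh_zero x
    · have e : phiFun a x = x := by simp [phiFun, h1, h0]
      rw [e, e]

theorem continuous_sh {A : Type} [TopologicalSpace A] (k : ℤ) :
    Continuous (sh k : (ℤ → A) → (ℤ → A)) :=
  continuous_pi fun n => continuous_apply (n + k)

theorem continuous_phiFun {A : Type} [TopologicalSpace A] [DiscreteTopology A] (a : A) :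
    Continuous (phiFun a : (ℤ → A) → (ℤ → A)) := by
  classical
  have h1 : IsClopen {x : ℤ → A | x 1 = a} :=
    (isClopen_discrete {a}).preimage (continuous_apply (1 : ℤ))
  have h0 : IsClopen {x : ℤ → A | x 0 = a} :=
    (isClopen_discrete {a}).preimage (continuous_apply (0 : ℤ))
  unfold phiFun
  refine Continuous.if ?_ (continuous_sh 1) (Continuous.if ?_ (continuous_sh (-1)) continuous_id)
  · intro x hx
    rw [h1.frontier_eq] at hx
    exact absurd hx (Set.notMem_empty _)
  · intro x hx
    rw [h0.frontier_eq] at hx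
    exact absurd hx (Set.notMem_empty _)

/-- the local shift on the subshift -/
noncomputable def phiMap {A : Type} (F : Set (List A)) (a : A) (x : SF F) : SF F :=
  ⟨phiFun a x.1, phiFun_mem a x.2⟩

theorem phiMap_phiMap {A : Type} (F : Set (List A)) (hF : ∀ a : A, [a, a] ∈ F) (a : A)
    (x : SF F) : phiMap F a (phiMap F a x) = x :=
  Subtype.ext (phiFun_phiFun hF a x.2)

theorem continuous_phiMap {A : Type} [TopologicalSpace A] [DiscreteTopology A]
    (F : Set (List A)) (a : A) : Continuous (phiMap F a) :=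
  ((continuous_phiFun a).comp continuous_subtype_val).subtype_mk _

/-- the involutive homeomorphism of the subshift given by the letter a -/
noncomputable def phi {A : Type} [TopologicalSpace A] [DiscreteTopology A] (F : Set (List A))
    (hF : ∀ a : A, [a, a] ∈ F) (a : A) : SF F ≃ₜ SF F where
  toFun := phiMap F a
  invFun := phiMap F a
  left_inv := phiMap_phiMap F hF a
  right_inv := phiMap_phiMap F hF a
  continuous_toFun := continuous_phiMap F a
  continuous_invFun := continuous_phiMap F a

/-- the group generated by the local shifts -/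
noncomputable def GF {A : Type} [TopologicalSpace A] [DiscreteTopology A] (F : Set (List A))
    (hF : ∀ a : A, [a, a] ∈ F) : Subgroup (SF F ≃ₜ SF F) :=
  Subgroup.closure (Set.range (phi F hF))

/-- h agrees near each point with an element of GF -/
def LocallyInGF {A : Type} [TopologicalSpace A] [DiscreteTopology A] (F : Set (List A))
    (hF : ∀ a : A, [a, a] ∈ F) (h : SF F ≃ₜ SF F) : Prop :=
  ∀ x, ∃ U : Set (SF F), IsOpen U ∧ x ∈ U ∧ ∃ g ∈ GF F hF, ∀ y ∈ U, h y = g y

theorem loc_one {A : Type} [TopologicalSpace A] [DiscreteTopology A] (F : Set (List A))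
    (hF : ∀ a : A, [a, a] ∈ F) : LocallyInGF F hF 1 :=
  fun _ => ⟨Set.univ, isOpen_univ, trivial, 1, one_mem _, fun _ _ => rfl⟩

theorem loc_mul {A : Type} [TopologicalSpace A] [DiscreteTopology A] (F : Set (List A))
    (hF : ∀ a : A, [a, a] ∈ F) {h k : SF F ≃ₜ SF F} (hh : LocallyInGF F hF h)
    (hk : LocallyInGF F hF k) : LocallyInGF F hF (h * k) := by
  intro x
  obtain ⟨U, hU, hxU, g, hg, hgU⟩ := hk x
  obtain ⟨V, hV, hxV, g', hg', hgV⟩ := hh (k x)
  refine ⟨U ∩ k ⁻¹' V, hU.inter (hV.preimage k.continuous), ⟨hxU, hxV⟩, g' * g,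
    mul_mem hg' hg, ?_⟩
  rintro y ⟨hyU, hyV⟩
  show h (k y) = g' (g y)
  rw [hgV (k y) hyV, hgU y hyU]

theorem loc_inv {A : Type} [TopologicalSpace A] [DiscreteTopology A] (F : Set (List A))
    (hF : ∀ a : A, [a, a] ∈ F) {h : SF F ≃ₜ SF F} (hh : LocallyInGF F hF h) :
    LocallyInGF F hF h⁻¹ := by
  intro x
  obtain ⟨U, hU, hxU, g, hg, hgU⟩ := hh (h.symm x)
  refine ⟨h.symm ⁻¹' U, hU.preimage h.symm.continuous, hxU, g⁻¹, inv_mem hg, ?_⟩
  intro y hy
  show h.symm y = g.symm y
  have := hgU (h.symm y) hy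
  rw [h.apply_symm_apply] at this
  rw [g.eq_symm_apply]
  exact this.symm

/-- the homeomorphisms which locally coincide with elements of GF form a subgroup -/
theorem exists_fullGroup {A : Type} [TopologicalSpace A] [DiscreteTopology A]
    (F : Set (List A)) (hF : ∀ a : A, [a, a] ∈ F) :
    ∃ K : Subgroup (SF F ≃ₜ SF F), ∀ h, h ∈ K ↔ LocallyInGF F hF h :=
  ⟨{ carrier := {h | LocallyInGF F hF h}
     one_mem' := loc_one F hF
     mul_mem' := loc_mul F hF
     inv_mem' := loc_inv F hF }, fun _ => Iff.rfl⟩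

/-- the topological full group: the group of homeomorphisms which locally coincide with
elements of GF, see mem_FullG -/
def FullG {A : Type} [TopologicalSpace A] [DiscreteTopology A] (F : Set (List A))
    (hF : ∀ a : A, [a, a] ∈ F) : Subgroup (SF F ≃ₜ SF F) :=
  Subgroup.closure {h | LocallyInGF F hF h}

theorem mem_FullG {A : Type} [TopologicalSpace A] [DiscreteTopology A] (F : Set (List A))
    (hF : ∀ a : A, [a, a] ∈ F) (h : SF F ≃ₜ SF F) : h ∈ FullG F hF ↔ LocallyInGF F hF h := by
  obtain ⟨K, hK⟩ := exists_fullGroup F hF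
  have : FullG F hF = K := by
    apply le_antisymm
    · exact (Subgroup.closure_le K).mpr fun h hh => (hK h).mpr hh
    · exact fun h hh => Subgroup.subset_closure ((hK h).mp hh)
  rw [this, hK]

/-- the number of words of length n occurring in points of the subshift -/
noncomputable def numWords {A : Type} (F : Set (List A)) (n : ℕ) : ℕ :=
  Nat.card {w : Fin n → A // ∃ x ∈ SF F, ∃ k : ℤ, ∀ i : Fin n, x (k + (i : ℕ)) = w i}

end Pool.Agent.Helper894.FS
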