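import Pool.Agent.Helper894.FS.Lines

namespace Pool.Agent.Helper894.FS

open scoped BigOperators

variable {A : Type} {S : Set (ℤ → A)}

theorem local_of (hS : ∀ (k : ℤ), ∀ x ∈ S, sh k x ∈ S) (a : Bool → Equiv.Perm S)
    (c : Bool → S → ℤ) (hc : ∀ b x, (a b x : ℤ → A) = sh (c b x) x.1) (κ : ℕ)
    (hκ : ∀ b (x y : S), (∀ i : ℤ, |i| ≤ κ → x.1 i = y.1 i) → c b x = c b y) (b : Bool)
    (x y : S) (m : ℤ) (hxy : ∀ i : ℤ, |i - m| ≤ κ → x.1 i = y.1 i) :
    lineHom hS a c hc x (FreeGroup.of b) m = lineHom hS a c hc y (FreeGroup.of b) m := by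
  rw [lineHom_of, lineHom_of, hκ b (shS hS m x) (shS hS m y)]
  intro i hi
  simp only [shS, sh]
  apply hxy
  simpa using hi

theorem disp_inv {r : ℕ} {π : F2 →* Equiv.Perm ℤ} (hπ : Disp r π) (b : Bool) (n : ℤ) :
    |π (FreeGroup.of b)⁻¹ n - n| ≤ r := by
  have h := hπ b (π (FreeGroup.of b)⁻¹ n)
  rw [← Equiv.Perm.mul_apply, ← map_mul, mul_inv_cancel, map_one, Equiv.Perm.one_apply] at h
  rw [abs_sub_comm]
  exact h

theorem local_mk (hS : ∀ (k : ℤ), ∀ x ∈ S, sh k x ∈ S) (a : Bool → Equiv.Perm S)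
    (c : Bool → S → ℤ) (hc : ∀ b x, (a b x : ℤ → A) = sh (c b x) x.1) (r κ : ℕ)
    (hr : ∀ b x, |c b x| ≤ r)
    (hκ : ∀ b (x y : S), (∀ i : ℤ, |i| ≤ κ → x.1 i = y.1 i) → c b x = c b y)
    (x y : S) (n : ℤ) (L : List (Bool × Bool)) :
    (∀ i : ℤ, |i - n| ≤ L.length * r + κ → x.1 i = y.1 i) →
    lineHom hS a c hc x (FreeGroup.mk L) n = lineHom hS a c hc y (FreeGroup.mk L) n ∧
      |lineHom hS a c hc x (FreeGroup.mk L) n - n| ≤ L.length * r := by
  induction L with
  | nil =>
    intro _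
    rw [← FreeGroup.one_eq_mk]
    simp
  | cons p L ih =>
    intro hxy
    have hlen : (((p :: L).length : ℕ) : ℤ) * r = L.length * r + r := by
      push_cast [List.length_cons]; ring
    rw [hlen] at hxy ⊢
    obtain ⟨h1, h2⟩ := ih (fun i hi => hxy i (by
      have : (0 : ℤ) ≤ r := Int.natCast_nonneg r
      linarith))
    have hsplit : FreeGroup.mk (p :: L) = FreeGroup.mk [p] * FreeGroup.mk L := by
      rw [FreeGroup.mul_mk]; rfl
    rw [hsplit, map_mul, map_mul, Equiv.Perm.mul_apply, Equiv.Perm.mul_apply, ← h1]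
    set m := lineHom hS a c hc x (FreeGroup.mk L) n with hm
    have hdx := lineHom_disp hS a c hc r hr x
    obtain ⟨b, t⟩ := p
    cases t with
    | true =>
      have e : FreeGroup.mk [(b, true)] = FreeGroup.of b := rfl
      rw [e]
      refine ⟨local_of hS a c hc κ hκ b x y m ?_, ?_⟩
      · intro i hi
        apply hxy
        have : |i - n| ≤ |i - m| + |m - n| := abs_sub_le i m n
        have h0 : (0 : ℤ) ≤ r := Int.natCast_nonneg r
        linarith
      · have := hdx b m
        have h3 := abs_sub_le (lineHom hS a c hc x (FreeGroup.of b) m) m n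
        linarith
    | false =>
      have e : FreeGroup.mk [(b, false)] = (FreeGroup.of b)⁻¹ := rfl
      rw [e]
      have hd := disp_inv hdx b m
      set k := lineHom hS a c hc x (FreeGroup.of b)⁻¹ m with hk
      refine ⟨?_, ?_⟩
      · have h4 : lineHom hS a c hc x (FreeGroup.of b) k =
            lineHom hS a c hc y (FreeGroup.of b) k := by
          apply local_of hS a c hc κ hκ b x y k
          intro i hi
          apply hxy
          have h5 : |i - n| ≤ |i - k| + |k - n| := abs_sub_le i k n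
          have h6 : |k - n| ≤ |k - m| + |m - n| := abs_sub_le k m n
          linarith
        have h7 : lineHom hS a c hc x (FreeGroup.of b) k = m := by
          rw [hk, ← Equiv.Perm.mul_apply, ← map_mul, mul_inv_cancel, map_one,
            Equiv.Perm.one_apply]
        rw [h7] at h4
        rw [h4, ← Equiv.Perm.mul_apply, ← map_mul, inv_mul_cancel, map_one,
          Equiv.Perm.one_apply]
      · have h3 := abs_sub_le k m n
        linarith

theorem local_norm (hS : ∀ (k : ℤ), ∀ x ∈ S, sh k x ∈ S) (a : Bool → Equiv.Perm S)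
    (c : Bool → S → ℤ) (hc : ∀ b x, (a b x : ℤ → A) = sh (c b x) x.1) (r κ : ℕ)
    (hr : ∀ b x, |c b x| ≤ r)
    (hκ : ∀ b (x y : S), (∀ i : ℤ, |i| ≤ κ → x.1 i = y.1 i) → c b x = c b y)
    (x y : S) (l : ℕ) (g : F2) (hg : g.norm ≤ l)
    (hxy : ∀ i : ℤ, |i| ≤ l * r + κ → x.1 i = y.1 i) :
    lineHom hS a c hc x g 0 = lineHom hS a c hc y g 0 := by
  have h := (local_mk hS a c hc r κ hr hκ x y 0 g.toWord (fun i hi => hxy i (by
    rw [sub_zero] at hi
    have h1 : ((g.toWord.length : ℕ) : ℤ) ≤ l := by exact_mod_cast hg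
    have h2 : ((g.toWord.length : ℕ) : ℤ) * r ≤ l * r :=
      mul_le_mul_of_nonneg_right h1 (Int.natCast_nonneg r)
    linarith))).1
  rwa [FreeGroup.mk_toWord] at h

end Pool.Agent.Helper894.FS
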