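import Pool.Agent.Helper894.FS.Union

namespace Pool.Agent.Helper894.FS

open scoped BigOperators

variable {A : Type}

/-- all line actions with displacement at most r -/
def LA (r : ℕ) : Type := {π : F2 →* Equiv.Perm ℤ // Disp r π}

/-- the universal family of line actions -/
def univAct (r : ℕ) : F2 →* Equiv.Perm (LA r × ℤ) := prodAct (fun π : LA r => π.1)

theorem union_bound [Finite A] (F : Set (List A)) (a : Bool → Equiv.Perm (SF F))
    (c : Bool → SF F → ℤ) (hc : ∀ b x, (a b x : ℤ → A) = sh (c b x) x.1) (r κ : ℕ)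
    (hr : ∀ b x, |c b x| ≤ r)
    (hκ : ∀ b (x y : SF F), (∀ i : ℤ, |i| ≤ κ → x.1 i = y.1 i) → c b x = c b y)
    (l : ℕ) (α : ℝ) (hlaw : HasLaw (univAct r) l α)
    (hN : (numWords F (2 * (l * r + κ) + 1) : ℝ) * α < 1) :
    ∃ g : F2, g ≠ 1 ∧ FreeGroup.lift a g = 1 := by
  classical
  obtain ⟨ι, _, w, g, hw0, hw1, hg1, hgl, hlaw⟩ := hlaw
  have hS : ∀ (k : ℤ), ∀ x ∈ SF F, sh k x ∈ SF F := fun k x hx => sh_mem k hx
  -- some element of the law fixes the origin of every line
  have hex : ∃ i, ∀ x : SF F, lineHom hS a c hc x (g i) 0 = 0 := by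
    by_contra hcon
    push Not at hcon
    choose x hx using hcon
    set R := l * r + κ with hR
    let W := {v : Fin (2 * R + 1) → A // ∃ x ∈ SF F, ∃ k : ℤ, ∀ i : Fin (2 * R + 1),
      x (k + (i : ℕ)) = v i}
    have : Finite W := Subtype.finite
    let _ : Fintype W := Fintype.ofFinite W
    have hcard : (Fintype.card W : ℝ) = numWords F (2 * R + 1) := by
      rw [numWords, Nat.card_eq_fintype_card]
    have hch : ∀ v : W, ∃ y : SF F, ∀ j : ℤ, ∀ h : |j| ≤ R, ∃ i : Fin (2 * R + 1),
        ((i : ℕ) : ℤ) = j + R ∧ y.1 j = v.1 i := by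
      rintro ⟨v, z, hz, k, hk⟩
      refine ⟨⟨sh (k + R) z, hS _ z hz⟩, ?_⟩
      intro j hj
      rw [abs_le] at hj
      refine ⟨⟨(j + R).toNat, by omega⟩, ?_, ?_⟩
      · simp only
        omega
      · show z (j + (k + R)) = v ⟨(j + R).toNat, _⟩
        rw [← hk]
        congr 1
        have : (((j + R).toNat : ℕ) : ℤ) = j + R := by omega
        simp only [this]
        ring
    choose y hy using hch
    have hloc : ∀ z : SF F, ∃ v : W, ∀ i, lineHom hS a c hc z (g i) 0 =
        lineHom hS a c hc (y v) (g i) 0 := by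
      intro z
      refine ⟨⟨fun i => z.1 (-R + (i : ℕ)), z.1, z.2, -R, fun i => rfl⟩, ?_⟩
      intro i
      apply local_norm hS a c hc r κ hr hκ z _ l (g i) (hgl i)
      intro j hj
      have hj' : |j| ≤ (R : ℤ) := by rw [hR]; push_cast; exact hj
      obtain ⟨i', hi1, hi2⟩ := hy ⟨fun i => z.1 (-R + (i : ℕ)), z.1, z.2, -R, fun i => rfl⟩ j hj'
      rw [hi2]
      show z.1 j = z.1 (-R + ((i' : ℕ) : ℤ))
      rw [hi1]
      ring_nf
    have hpt : ∀ v : W, ∑ i, w i * Set.indicator {ω' | univAct r (g i) ω' ≠ ω'}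
        (fun _ => (1 : ℝ)) (⟨lineHom hS a c hc (y v), lineHom_disp hS a c hc r hr (y v)⟩, 0)
        ≤ α := fun v => hlaw _
    have hsum : ∑ v : W, ∑ i, w i * Set.indicator {ω' | univAct r (g i) ω' ≠ ω'}
        (fun _ => (1 : ℝ)) (⟨lineHom hS a c hc (y v), lineHom_disp hS a c hc r hr (y v)⟩, 0)
        ≤ Fintype.card W * α := by
      have := Finset.sum_le_card_nsmul Finset.univ _ α (fun v _ => hpt v)
      rwa [nsmul_eq_mul, Finset.card_univ] at this
    rw [Finset.sum_comm] at hsum
    have hge : ∑ i, w i ≤ ∑ i, ∑ v : W, w i * Set.indicator {ω' | univAct r (g i) ω' ≠ ω'}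
        (fun _ => (1 : ℝ)) (⟨lineHom hS a c hc (y v), lineHom_disp hS a c hc r hr (y v)⟩, 0) := by
      apply Finset.sum_le_sum
      intro i _
      obtain ⟨v, hv⟩ := hloc (x i)
      have h1 : w i = w i * Set.indicator {ω' | univAct r (g i) ω' ≠ ω'}
          (fun _ => (1 : ℝ))
          (⟨lineHom hS a c hc (y v), lineHom_disp hS a c hc r hr (y v)⟩, 0) := by
        rw [Set.indicator_of_mem, mul_one]
        simp only [Set.mem_ofPred_eq, univAct]
        intro h
        have h2 := congrArg Prod.snd h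
        rw [prodAct_apply] at h2
        simp only at h2
        exact hx i ((hv i).trans h2)
      calc w i = _ := h1
        _ ≤ _ := Finset.single_le_sum (f := fun v : W => w i *
            Set.indicator {ω' | univAct r (g i) ω' ≠ ω'} (fun _ => (1 : ℝ))
            (⟨lineHom hS a c hc (y v), lineHom_disp hS a c hc r hr (y v)⟩, 0))
            (fun v _ => mul_nonneg (hw0 i) (Set.indicator_nonneg (fun _ _ => zero_le_one) _))
            (Finset.mem_univ v)
    rw [hw1] at hge
    rw [hcard] at hsum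
    linarith
  obtain ⟨i, hi⟩ := hex
  refine ⟨g i, hg1 i, ?_⟩
  ext1 x
  have h := lift_shS hS a c hc (g i) x 0
  have h0 : shS hS 0 x = x := Subtype.ext (sh_zero x.1)
  rw [hi x, h0] at h
  rw [h]
  rfl

end Pool.Agent.Helper894.FS
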